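import Pool.Agent.N565.LC.Inj

/-!
# The annulus
-/

set_option autoImplicit false

namespace Pool.Agent.N565.LC

open Set Filter
open scoped Topology ContDiff

noncomputable section

/-- a smooth step from `0` to `1` -/
def st (u : ℝ) : ℝ := (1 + S (2 * u - 1)) / 2

lemma st_lo {u : ℝ} (h : u ≤ 0) : st u = 0 := by unfold st; rw [S_neg_one (by linarith)]; ring
lemma st_hi {u : ℝ} (h : 1 ≤ u) : st u = 1 := by unfold st; rw [S_one (by linarith)]; ring
lemma st_nonneg (u : ℝ) : 0 ≤ st u := by unfold st; linarith [neg_one_le_S (2 * u - 1)]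
lemma st_le_one (u : ℝ) : st u ≤ 1 := by unfold st; linarith [S_le_one (2 * u - 1)]
lemma st_mono {u v : ℝ} (h : u ≤ v) : st u ≤ st v := by
  unfold st
  have := S_monotone (show 2 * u - 1 ≤ 2 * v - 1 by linarith)
  linarith
lemma st_contDiff : ContDiff ℝ ∞ st := by
  unfold st
  exact (contDiff_const.add (S_contDiff.comp
    ((contDiff_const.mul contDiff_id).sub contDiff_const))).div_const _

/-- the first parameter of the isotopy -/
def sg (τ : ℝ) : ℝ := st (3 * τ - 1)
/-- the second parameter of the isotopy -/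
def la (τ : ℝ) : ℝ := st (3 * τ) - st (3 * τ - 2)

lemma adm (τ : ℝ) : Adm (sg τ) (la τ) := by
  unfold sg la
  refine ⟨st_nonneg _, st_le_one _, ?_, ?_, ?_⟩
  · have := st_mono (show 3 * τ - 2 ≤ 3 * τ by linarith); linarith
  · have h1 := st_le_one (3 * τ)
    have h2 := st_nonneg (3 * τ - 2)
    linarith
  · rcases le_or_gt (3 * τ) 1 with h | h
    · left; exact st_lo (by linarith)
    rcases le_or_gt 2 (3 * τ) with h2 | h2
    · right; left; exact st_hi (by linarith)
    · right; right; rw [st_hi h.le, st_lo (by linarith)]; ring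

lemma sg_contDiff : ContDiff ℝ ∞ sg :=
  st_contDiff.comp ((contDiff_const.mul contDiff_id).sub contDiff_const)
lemma la_contDiff : ContDiff ℝ ∞ la :=
  (st_contDiff.comp (contDiff_const.mul contDiff_id)).sub
    (st_contDiff.comp ((contDiff_const.mul contDiff_id).sub contDiff_const))

/-- the annulus -/
def An (T : ℝ) (p : ℝ × ℝ) : R4 :=
  (p.1, Fp (sg ((p.1 + T) / (2 * T))) (la ((p.1 + T) / (2 * T))) p.2)

lemma An_annulus {T : ℝ} (hT : 0 < T) : IsEmbeddedAnnulus 76 T γm γp (An T) where
  smooth := by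
    unfold An
    have h1 : ContDiff ℝ ∞ (fun p : ℝ × ℝ => (p.1 + T) / (2 * T)) :=
      (contDiff_fst.add contDiff_const).div_const _
    have h2 : ContDiff ℝ ∞ (fun p : ℝ × ℝ =>
        (sg ((p.1 + T) / (2 * T)), la ((p.1 + T) / (2 * T)), p.2)) :=
      (sg_contDiff.comp h1).prodMk ((la_contDiff.comp h1).prodMk contDiff_snd)
    exact contDiff_fst.prodMk (Fp_contDiff.comp h2)
  periodic := fun a s => by unfold An; simp only [Fp_periodic]
  injective := by
    intro a _ a' _ s s' h
    unfold An at h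
    simp only [Prod.mk.injEq] at h
    obtain ⟨h1, h2⟩ := h
    subst h1
    exact ⟨rfl, Fp_inj (adm _) h2⟩
  immersed := by
    intro a _ s
    set τ := (a + T) / (2 * T) with hτ
    have hs : ContDiff ℝ ∞ (An T) := by
      unfold An
      have h1 : ContDiff ℝ ∞ (fun p : ℝ × ℝ => (p.1 + T) / (2 * T)) :=
        (contDiff_fst.add contDiff_const).div_const _
      have h2 : ContDiff ℝ ∞ (fun p : ℝ × ℝ =>
          (sg ((p.1 + T) / (2 * T)), la ((p.1 + T) / (2 * T)), p.2)) :=
        (sg_contDiff.comp h1).prodMk ((la_contDiff.comp h1).prodMk contDiff_snd)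
      exact contDiff_fst.prodMk (Fp_contDiff.comp h2)
    have hd : HasFDerivAt (An T) (fderiv ℝ (An T) (a, s)) (a, s) :=
      ((hs.differentiable (by simp)) (a, s)).hasFDerivAt
    rw [injective_iff_map_eq_zero]
    rintro ⟨v, w⟩ hvw
    -- the first coordinate
    have h1 : HasFDerivAt (fun p : ℝ × ℝ => (An T p).1)
        ((ContinuousLinearMap.fst ℝ ℝ R3).comp (fderiv ℝ (An T) (a, s))) (a, s) :=
      (ContinuousLinearMap.fst ℝ ℝ R3).hasFDerivAt.comp (a, s) hd
    have h2 : HasFDerivAt (fun p : ℝ × ℝ => (An T p).1) (ContinuousLinearMap.fst ℝ ℝ ℝ) (a, s) :=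
      (ContinuousLinearMap.fst ℝ ℝ ℝ).hasFDerivAt
    have h3 := congrArg (fun f : ℝ × ℝ →L[ℝ] ℝ => f (v, w)) (h1.unique h2)
    simp only [ContinuousLinearMap.comp_apply, hvw] at h3
    have hv : v = 0 := by simpa using h3.symm
    subst hv
    -- the second coordinate
    have h4 : HasDerivAt (fun t : ℝ => (a, t)) ((0:ℝ), (1:ℝ)) s :=
      (hasDerivAt_const s a).prodMk (hasDerivAt_id s)
    have h5 := hd.comp_hasDerivAt s h4
    have h6 : HasDerivAt (fun t : ℝ => An T (a, t)) ((0:ℝ), F1 (sg τ) (la τ) (rd s)) s :=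
      (hasDerivAt_const s a).prodMk (Fp_hasDerivAt (sg τ) (la τ) s)
    have h7 := h5.unique h6
    have h8 : fderiv ℝ (An T) (a, s) (0, w) = w • fderiv ℝ (An T) (a, s) (0, 1) := by
      rw [← map_smul]; simp
    rw [h8, h7] at hvw
    have h9 := congrArg Prod.snd hvw
    have h10 : w • F1 (sg τ) (la τ) (rd s) = 0 := h9
    have := (smul_eq_zero.1 h10).resolve_right (F_imm (adm τ))
    simp [this]
  interior := fun a ha s => ha
  bottom := fun s => by
    have e : (-T + T) / (2 * T) = 0 := by simp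
    unfold An γm
    simp only [e]
    have e1 : sg 0 = 0 := by unfold sg; exact st_lo (by norm_num)
    have e2 : la 0 = 0 := by unfold la; rw [st_lo (by norm_num), st_lo (by norm_num)]; ring
    rw [e1, e2]
  top := fun s => by
    have e : (T + T) / (2 * T) = 1 := by field_simp; ring
    unfold An γp
    simp only [e]
    have e1 : sg 1 = 1 := by unfold sg; exact st_hi (by norm_num)
    have e2 : la 1 = 0 := by unfold la; rw [st_hi (by norm_num), st_hi (by norm_num)]; ring
    rw [e1, e2]

end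

end Pool.Agent.N565.LC
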