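import Pool.Agent.N565.LC.Pair

/-!
# Charts of a pair of sheets
-/

set_option autoImplicit false

namespace Pool.Agent.N565.LC

open Set Filter
open scoped Topology ContDiff

noncomputable section

lemma comp_contDiffOn {ψ : R4 → ℝ} {U : Set R4} {F : R4 × ℝ → ℝ} (hF : ContDiff ℝ ∞ F)
    (hψ : ContDiffOn ℝ ∞ ψ U) : ContDiffOn ℝ ∞ (fun q => F (q, ψ q)) U :=
  hF.comp_contDiffOn (contDiffOn_id.prodMk hψ)

lemma fderiv_zero_of_eq_zero {r : R4 → ℝ} {r' : R4 →L[ℝ] ℝ} {p : R4} {U : Set R4}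
    (hU : IsOpen U) (hp : p ∈ U) (h : ∀ q ∈ U, r q = 0) (hr : HasFDerivAt r r' p) : r' = 0 := by
  have : HasFDerivAt r (0 : R4 →L[ℝ] ℝ) p := by
    apply (hasFDerivAt_const (0:ℝ) p).congr_of_eventuallyEq
    filter_upwards [hU.mem_nhds hp] with q hq using h q hq
  exact hr.unique this

/-- everything we need to know about a neighbourhood of a point of a pair of sheets -/
lemma chart (j c₀ : ℝ) (P : Prof) {p₀ : R4} (hp₀ : p₀ ∈ Pair j c₀ P) :
    ∃ U : Set R4, IsOpen U ∧ p₀ ∈ U ∧ ∃ ψ : R4 → ℝ, ContDiffOn ℝ ∞ ψ U ∧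
      (∀ p ∈ U, p ∈ Pair j c₀ P →
        ψ p = zt j c₀ P p ∧ R1 j P (p, ψ p) = 0 ∧ R2 j (p, ψ p) = 0 ∧ R3' c₀ P (p, ψ p) = 0) ∧
      ∃ g : R4 → ℝ × ℝ, ContDiffOn ℝ ∞ g U ∧ Function.Surjective (fderiv ℝ g p₀) ∧
        ∀ q ∈ U, q ∈ Pair j c₀ P ↔ g q = 0 := by
  obtain ⟨z₀, h1, h2, h3⟩ := hp₀
  have hzt : zt j c₀ P p₀ = z₀ := zt_eq h1 h3
  -- a criterion
  have key : ∀ (U : Set R4) (ψ : R4 → ℝ), IsOpen U → p₀ ∈ U → ContDiffOn ℝ ∞ ψ U →
      (∀ p ∈ U, ∀ z, R1 j P (p, z) = 0 → R2 j (p, z) = 0 → R3' c₀ P (p, z) = 0 → z = ψ p) →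
      ∀ p ∈ U, p ∈ Pair j c₀ P →
        ψ p = zt j c₀ P p ∧ R1 j P (p, ψ p) = 0 ∧ R2 j (p, ψ p) = 0 ∧ R3' c₀ P (p, ψ p) = 0 := by
    intro U ψ _ _ _ h p hp hpP
    obtain ⟨z, k1, k2, k3⟩ := hpP
    have := h p hp z k1 k2 k3
    subst this
    exact ⟨(zt_eq k1 k3).symm, k1, k2, k3⟩
  by_cases hz₀ : z₀ = 0
  · subst hz₀
    -- the witness is small near `p₀`
    have small : ∀ δ > 0, ∃ V : Set R4, IsOpen V ∧ p₀ ∈ V ∧
        ∀ p ∈ V, ∀ z, R1 j P (p, z) = 0 → |z - 0| < δ := by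
      intro δ hδ
      refine ⟨{p | X (p.2.1 - j) - P.c p.1 < X δ}, ?_, ?_, ?_⟩
      · apply isOpen_lt _ continuous_const
        exact (X_continuous.comp (by fun_prop)).sub (P.cc.continuous.comp continuous_fst)
      · simp only [mem_ofPred_eq]
        have : X (p₀.2.1 - j) - P.c p₀.1 = X 0 := by unfold R1 at h1; simp at h1; linarith
        rw [this]
        exact X_lt_X (by simp [abs_of_pos hδ, hδ])
      · intro p hp z hz
        simp only [mem_ofPred_eq] at hp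
        have : X (p.2.1 - j) - P.c p.1 = X z := by unfold R1 at hz; simp at hz; linarith
        rw [this] at hp
        have := abs_lt_of_X_lt hp
        rwa [abs_of_pos hδ, ← sub_zero z] at this
    by_cases hx : p₀.2.1 - j = 0
    · -- the saddle point
      have hk : P.k p₀.1 ≠ 0 := by
        apply P.nz
        unfold R1 at h1; simp [hx] at h1; exact h1
      obtain ⟨U₀, hU₀, hpU₀, δ, hδ, ψ, hψ, hψ0, hψR, hψu⟩ := ift (R3' c₀ P) (R3_contDiff c₀ P) p₀ 0 h3
        (fun p z => S z * Y z - Y1 z * P.k p.1)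
        (fun p z => by
          have := (((G_hasDerivAt z).const_add c₀).sub ((Y_hasDerivAt z).mul_const (P.k p.1))).sub_const
            p.2.2.2
          exact this)
        (by
          have a1 := Y_contDiff.continuous
          have a2 := Y1_contDiff.continuous
          have a3 := S_continuous
          have a4 := P.kc.continuous
          fun_prop)
        (by simp [Y1_zero_pos.ne', hk])
      obtain ⟨V, hV, hpV, hVs⟩ := small δ hδ
      have hU : IsOpen (U₀ ∩ V) := hU₀.inter hV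
      have hpU : p₀ ∈ U₀ ∩ V := ⟨hpU₀, hpV⟩
      have hψ' : ContDiffOn ℝ ∞ ψ (U₀ ∩ V) := hψ.mono inter_subset_left
      have hd : HasFDerivAt ψ (fderiv ℝ ψ p₀) p₀ :=
        ((hψ'.contDiffAt (hU.mem_nhds hpU)).differentiableAt (by simp)).hasFDerivAt
      refine ⟨U₀ ∩ V, hU, hpU, ψ, hψ', key _ ψ hU hpU hψ'
        (fun p hp z k1 k2 k3 => hψu p hp.1 z (hVs p hp.2 z k1) k3), 
        fun q => (R1 j P (q, ψ q), R2 j (q, ψ q)), ?_, ?_, ?_⟩
      · exact (comp_contDiffOn (R1_contDiff j P) hψ').prodMk (comp_contDiffOn (R2_contDiff j) hψ')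
      · have e1 := hasFDerivAt_R1 j P hd
        have e2 := hasFDerivAt_R2 j hd
        have e3 := fderiv_zero_of_eq_zero hU₀ hpU₀ hψR (hasFDerivAt_R3 c₀ P hd)
        rw [(e1.prodMk e2).fderiv]
        rintro ⟨a, b⟩
        refine ⟨(-a / P.k p₀.1, 0, -b, 0), ?_⟩
        have e4 : fderiv ℝ ψ p₀ (-a / P.k p₀.1, 0, -b, 0) = 0 := by
          have := congrArg (fun f : R4 →L[ℝ] ℝ => f (-a / P.k p₀.1, 0, -b, 0)) e3
          simp [hψ0, Y1_zero_pos.ne', hk] at this
          exact this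
        ext
        · simp only [ContinuousLinearMap.prod_apply, _root_.sub_apply,
            _root_.smul_apply, smul_eq_mul, dx_apply, dt_apply, hψ0, e4]
          field_simp; simp
        · simp [e4]
      · intro q hq
        constructor
        · intro hqP
          obtain ⟨_, k1, k2, _⟩ := key _ ψ hU hpU hψ'
            (fun p hp z k1 k2 k3 => hψu p hp.1 z (hVs p hp.2 z k1) k3) q hq hqP
          simp [k1, k2]
        · intro hg
          exact ⟨ψ q, congrArg Prod.fst hg, congrArg Prod.snd hg, hψR q hq.1⟩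
    · -- a point on a cusp edge
      have hS : S (p₀.2.1 - j) ≠ 0 := fun h => hx (S_eq_zero.1 h)
      obtain ⟨U₀, hU₀, hpU₀, δ, hδ, ψ, hψ, hψ0, hψR, hψu⟩ := ift (R2 j) (R2_contDiff j) p₀ 0 h2
        (fun p z => Y1 z * S (p.2.1 - j))
        (fun p z => by
          have := ((Y_hasDerivAt z).mul_const (S (p.2.1 - j))).sub_const p.2.2.1
          exact this)
        (by
          have a2 := Y1_contDiff.continuous
          have a3 := S_continuous
          fun_prop)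
        (mul_ne_zero Y1_zero_pos.ne' hS)
      obtain ⟨V, hV, hpV, hVs⟩ := small δ hδ
      have hU : IsOpen (U₀ ∩ V) := hU₀.inter hV
      have hpU : p₀ ∈ U₀ ∩ V := ⟨hpU₀, hpV⟩
      have hψ' : ContDiffOn ℝ ∞ ψ (U₀ ∩ V) := hψ.mono inter_subset_left
      have hd : HasFDerivAt ψ (fderiv ℝ ψ p₀) p₀ :=
        ((hψ'.contDiffAt (hU.mem_nhds hpU)).differentiableAt (by simp)).hasFDerivAt
      refine ⟨U₀ ∩ V, hU, hpU, ψ, hψ', key _ ψ hU hpU hψ'
        (fun p hp z k1 k2 k3 => hψu p hp.1 z (hVs p hp.2 z k1) k2), 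
        fun q => (R1 j P (q, ψ q), R3' c₀ P (q, ψ q)), ?_, ?_, ?_⟩
      · exact (comp_contDiffOn (R1_contDiff j P) hψ').prodMk (comp_contDiffOn (R3_contDiff c₀ P) hψ')
      · have e1 := hasFDerivAt_R1 j P hd
        have e2 := hasFDerivAt_R3 c₀ P hd
        have e3 := fderiv_zero_of_eq_zero hU₀ hpU₀ hψR (hasFDerivAt_R2 j hd)
        rw [(e1.prodMk e2).fderiv]
        rintro ⟨a, b⟩
        refine ⟨(0, a / S (p₀.2.1 - j), 0, -b), ?_⟩
        have e4 : fderiv ℝ ψ p₀ (0, a / S (p₀.2.1 - j), 0, -b) = 0 := by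
          have := congrArg (fun f : R4 →L[ℝ] ℝ => f (0, a / S (p₀.2.1 - j), 0, -b)) e3
          simp [hψ0, Y1_zero_pos.ne', hS] at this
          exact this
        ext
        · simp only [ContinuousLinearMap.prod_apply, _root_.sub_apply,
            _root_.smul_apply, smul_eq_mul, dx_apply, dt_apply, hψ0, e4]
          field_simp; simp
        · simp [e4]
      · intro q hq
        constructor
        · intro hqP
          obtain ⟨_, k1, _, k3⟩ := key _ ψ hU hpU hψ'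
            (fun p hp z k1 k2 k3 => hψu p hp.1 z (hVs p hp.2 z k1) k2) q hq hqP
          simp [k1, k3]
        · intro hg
          exact ⟨ψ q, congrArg Prod.fst hg, hψR q hq.1, congrArg Prod.snd hg⟩
  · -- a point where the sheet is a graph
    have hS : S z₀ ≠ 0 := fun h => hz₀ (S_eq_zero.1 h)
    obtain ⟨U₀, hU₀, hpU₀, δ, hδ, ψ, hψ, hψ0, hψR, hψu⟩ := ift (R1 j P) (R1_contDiff j P) p₀ z₀ h1
      (fun p z => - S z)
      (fun p z => by
        have := ((X_hasDerivAt z).const_sub (X (p.2.1 - j))).sub_const (P.c p.1)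
        exact this)
      (by
        have a3 := S_continuous
        fun_prop)
      (neg_ne_zero.2 hS)
    set V : Set R4 := U₀ ∩ {p | R3' c₀ P (p, - ψ p) ≠ 0} with hVdef
    have hV : IsOpen V := by
      have hc : ContinuousOn (fun p => R3' c₀ P (p, - ψ p)) U₀ :=
        (comp_contDiffOn (R3_contDiff c₀ P) hψ.neg).continuousOn
      exact hc.isOpen_inter_preimage hU₀ isOpen_ne
    have hpV : p₀ ∈ V := by
      refine ⟨hpU₀, ?_⟩
      simp only [mem_ofPred_eq, hψ0]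
      unfold R3' at h3 ⊢
      simp only [G_odd, Y_odd] at h3 ⊢
      rcases lt_or_gt_of_ne hz₀ with hz | hz
      · have h4 := GYk_pos P (neg_pos.2 hz) p₀.1
        rw [G_odd, Y_odd] at h4
        intro h5; linarith
      · have h4 := GYk_pos P hz p₀.1
        intro h5; linarith
    have hψ' : ContDiffOn ℝ ∞ ψ V := hψ.mono inter_subset_left
    have hd : HasFDerivAt ψ (fderiv ℝ ψ p₀) p₀ :=
      ((hψ'.contDiffAt (hV.mem_nhds hpV)).differentiableAt (by simp)).hasFDerivAt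
    have uniq : ∀ p ∈ V, ∀ z, R1 j P (p, z) = 0 → R2 j (p, z) = 0 → R3' c₀ P (p, z) = 0 →
        z = ψ p := by
      intro p hp z k1 k2 k3
      have k4 := hψR p hp.1
      unfold R1 at k1 k4
      simp only at k1 k4
      rcases X_inj (show X z = X (ψ p) by linarith) with h | h
      · exact h
      · exfalso
        apply hp.2
        rw [← h]; exact k3
    refine ⟨V, hV, hpV, ψ, hψ', key _ ψ hV hpV hψ' uniq, 
        fun q => (R2 j (q, ψ q), R3' c₀ P (q, ψ q)), ?_, ?_, ?_⟩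
    · exact (comp_contDiffOn (R2_contDiff j) hψ').prodMk (comp_contDiffOn (R3_contDiff c₀ P) hψ')
    · have e1 := hasFDerivAt_R2 j hd
      have e2 := hasFDerivAt_R3 c₀ P hd
      have e3 := fderiv_zero_of_eq_zero hU₀ hpU₀ hψR (hasFDerivAt_R1 j P hd)
      rw [(e1.prodMk e2).fderiv]
      rintro ⟨a, b⟩
      refine ⟨(0, 0, -a, -b), ?_⟩
      have e4 : fderiv ℝ ψ p₀ (0, 0, -a, -b) = 0 := by
        have := congrArg (fun f : R4 →L[ℝ] ℝ => f (0, 0, -a, -b)) e3
        simp [hψ0, hS] at this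
        exact this
      ext
      · simp [e4]
      · simp [e4]
    · intro q hq
      constructor
      · intro hqP
        obtain ⟨_, k1, k2, k3⟩ := key _ ψ hV hpV hψ' uniq q hq hqP
        simp [k2, k3]
      · intro hg
        exact ⟨ψ q, hψR q hq.1, congrArg Prod.fst hg, congrArg Prod.snd hg⟩

/-- tangent vectors of a pair of sheets -/
lemma tangent_pair (j c₀ : ℝ) (P : Prof) {p : R4} (hp : p ∈ Pair j c₀ P) {v : R4}
    (hv : v ∈ tangentConeAt ℝ (Pair j c₀ P) p) : ∃ e : ℝ,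
      S (p.2.1 - j) * v.2.1 - S (zt j c₀ P p) * e - P.k p.1 * v.1 = 0 ∧
      v.2.2.1 = Y1 (zt j c₀ P p) * S (p.2.1 - j) * e + Y (zt j c₀ P p) * S1 (p.2.1 - j) * v.2.1 ∧
      v.2.2.2 = (S (zt j c₀ P p) * Y (zt j c₀ P p) - Y1 (zt j c₀ P p) * P.k p.1) * e
        - Y (zt j c₀ P p) * P.l p.1 * v.1 := by
  obtain ⟨U, hU, hpU, ψ, hψ, hψP, -⟩ := chart j c₀ P hp
  have hd : HasFDerivAt ψ (fderiv ℝ ψ p) p :=
    ((hψ.contDiffAt (hU.mem_nhds hpU)).differentiableAt (by simp)).hasFDerivAt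
  have hz := (hψP p hpU hp).1
  have gen : ∀ (r : R4 → ℝ) (r' : R4 →L[ℝ] ℝ), HasFDerivAt r r' p →
      (∀ q ∈ U, q ∈ Pair j c₀ P → r q = 0) → r' v = 0 := by
    intro r r' hr h0
    have a1 : HasFDerivWithinAt r r' (Pair j c₀ P) p := hr.hasFDerivWithinAt
    have a2 : HasFDerivWithinAt r (0 : R4 →L[ℝ] ℝ) (Pair j c₀ P) p := by
      apply (hasFDerivWithinAt_const (0:ℝ) p (Pair j c₀ P)).congr_of_eventuallyEq
      · filter_upwards [mem_nhdsWithin_of_mem_nhds (hU.mem_nhds hpU), self_mem_nhdsWithin]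
          with q hq hqP using h0 q hq hqP
      · exact h0 p hpU hp
    exact a1.unique_on a2 hv
  have e1 := gen _ _ (hasFDerivAt_R1 j P hd) (fun q hq hqP => (hψP q hq hqP).2.1)
  have e2 := gen _ _ (hasFDerivAt_R2 j hd) (fun q hq hqP => (hψP q hq hqP).2.2.1)
  have e3 := gen _ _ (hasFDerivAt_R3 c₀ P hd) (fun q hq hqP => (hψP q hq hqP).2.2.2)
  rw [hz] at e1 e2 e3
  simp only [_root_.sub_apply, _root_.add_apply,
    _root_.smul_apply, smul_eq_mul, dx_apply, dt_apply, dy_apply, dz_apply] at e1 e2 e3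
  exact ⟨fderiv ℝ ψ p v, by linarith, by linarith, by linarith⟩

end

end Pool.Agent.N565.LC
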