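import Pool.Agent.N565.LC.Orient

/-!
# Connectedness and genus
-/

set_option autoImplicit false

namespace Pool.Agent.N565.LC

open Set Filter
open scoped Topology ContDiff

noncomputable section

/-- two points which are joined by a preconnected subset of `A` -/
def JC (A : Set R4) (p q : R4) : Prop := ∃ S ⊆ A, IsPreconnected S ∧ p ∈ S ∧ q ∈ S

lemma JC.trans {A : Set R4} {p q r : R4} (h : JC A p q) (h' : JC A q r) : JC A p r := by
  obtain ⟨S, hS, hc, h1, h2⟩ := h
  obtain ⟨S', hS', hc', h1', h2'⟩ := h'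
  exact ⟨S ∪ S', union_subset hS hS', hc.union q h2 h1' hc', Or.inl h1, Or.inr h2'⟩

lemma JC.symm {A : Set R4} {p q : R4} (h : JC A p q) : JC A q p := by
  obtain ⟨S, hS, hc, h1, h2⟩ := h
  exact ⟨S, hS, hc, h2, h1⟩

lemma JC.mono {A B : Set R4} {p q : R4} (hAB : A ⊆ B) (h : JC A p q) : JC B p q := by
  obtain ⟨S, hS, hc, h1, h2⟩ := h
  exact ⟨S, hS.trans hAB, hc, h1, h2⟩

lemma isPreconnected_of_JC {A : Set R4} (b : R4) (h : ∀ p ∈ A, JC A p b) : IsPreconnected A := by
  apply isPreconnected_of_forall b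
  intro p hp
  obtain ⟨S, hS, hc, h1, h2⟩ := h p hp
  exact ⟨S, hS, h2, h1, hc⟩

/-- a vertical segment -/
lemma vert {A : Set R4} {q : R3} {a b : ℝ} (hab : a ≤ b) (h : ∀ r, a ≤ r → r ≤ b → (r, q) ∈ A) :
    JC A (a, q) (b, q) := by
  refine ⟨(fun r : ℝ => ((r, q) : R4)) '' Icc a b, ?_, ?_, ⟨a, ⟨le_rfl, hab⟩, rfl⟩,
    ⟨b, ⟨hab, le_rfl⟩, rfl⟩⟩
  · rintro _ ⟨r, hr, rfl⟩
    exact h r hr.1 hr.2
  · exact isPreconnected_Icc.image _ (by fun_prop)

/-- the bad set -/
def Bad (p : R4) : Prop := p.1 = 0 ∧ p.2.1 < 0 ∧ p.2.2.2 < 0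

/-- the compact part of the surface, cut open -/
def W : Set R4 := {p | p ∈ L ∧ (-T0 ≤ p.1 ∧ p.1 ≤ T0) ∧ ¬ Bad p}

/-- the base point -/
def bp : R4 := (T0, 0, 0, 3 * hh)

lemma bad_ne {p : R4} (h : p.1 ≠ 0) : ¬ Bad p := fun h' => h h'.1

lemma top_conn {q : R3} (hq : (T0, q) ∈ L) : JC W (T0, q) bp := by
  have hT := T0_pos
  have he : 3 ≤ eps * T0 := lt_eps le_rfl
  have h1 := (mem_L_top he).1 hq
  obtain ⟨s, rfl⟩ := h1
  have hc : Continuous γp := γp_leg.knot.smooth.continuous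
  refine ⟨range (fun s : ℝ => ((T0, γp s) : R4)), ?_, isPreconnected_range (by fun_prop),
    ⟨s, rfl⟩, ⟨0, ?_⟩⟩
  · rintro _ ⟨r, rfl⟩
    exact ⟨(mem_L_top he).2 ⟨r, rfl⟩, ⟨by simp only; linarith, le_rfl⟩, bad_ne hT.ne'⟩
  · show ((T0, Fp 1 0 0) : R4) = bp
    rw [Fp0_zero]; rfl

lemma bot_conn {q : R3} (hq : (-T0, q) ∈ L) : JC W (-T0, q) bp := by
  have hT := T0_pos
  have hh0 := hh_pos
  have he : eps * -T0 ≤ -3 := eps_lt le_rfl
  have h1 := (mem_L_bottom he).1 hq
  obtain ⟨s, rfl⟩ := h1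
  have hc : Continuous γm := γm_leg.knot.smooth.continuous
  have h2 : JC W (-T0, γm s) (-T0, 0, 0, 3 * hh) := by
    refine ⟨range (fun s : ℝ => ((-T0, γm s) : R4)), ?_, isPreconnected_range (by fun_prop),
      ⟨s, rfl⟩, ⟨0, ?_⟩⟩
    · rintro _ ⟨r, rfl⟩
      exact ⟨(mem_L_bottom he).2 ⟨r, rfl⟩, ⟨le_rfl, by simp only; linarith⟩,
        bad_ne (by simp only; linarith)⟩
    · show ((-T0, Fp 0 0 0) : R4) = _
      rw [Fp0_zero]
  apply h2.trans
  apply vert (by linarith)
  intro r h3 h4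
  refine ⟨level_top (by norm_num) (by norm_num), ⟨h3, h4⟩, ?_⟩
  rintro ⟨_, _, h⟩
  simp only at h
  linarith

lemma move_up {t : ℝ} {q : R3} (ht : -T0 ≤ t) (ht' : t ≤ T0) (h : ∀ r, t ≤ r → r ≤ T0 → (r, q) ∈ L)
    (hb : 0 < t ∨ ¬ (q.1 < 0 ∧ q.2.2 < 0)) : JC W (t, q) bp := by
  apply (vert ht' ?_).trans (top_conn (h T0 ht' le_rfl))
  intro r h1 h2
  refine ⟨h r h1 h2, ⟨by simp only; linarith, h2⟩, ?_⟩
  rcases hb with hb | hb
  · exact bad_ne (by simp only; linarith)
  · exact fun h' => hb h'.2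

lemma move_down {t : ℝ} {q : R3} (ht : -T0 ≤ t) (ht' : t ≤ T0)
    (h : ∀ r, -T0 ≤ r → r ≤ t → (r, q) ∈ L)
    (hb : t < 0 ∨ ¬ (q.1 < 0 ∧ q.2.2 < 0)) : JC W (t, q) bp := by
  have hv : JC W (-T0, q) (t, q) := by
    apply vert ht
    intro r h1 h2
    refine ⟨h r h1 h2, ⟨h1, by simp only; linarith⟩, ?_⟩
    rcases hb with hb | hb
    · exact bad_ne (by simp only; linarith)
    · exact fun h' => hb h'.2
  exact hv.symm.trans (bot_conn (h (-T0) le_rfl ht))

lemma move_static {p : R4} (hp : p ∈ W) (h : ∀ r, (r, p.2) ∈ L) : JC W p bp := by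
  obtain ⟨h1, ⟨h2, h3⟩, h4⟩ := hp
  rcases lt_trichotomy p.1 0 with ht | ht | ht
  · exact move_down (t := p.1) (q := p.2) h2 h3 (fun r _ _ => h r) (Or.inl ht)
  · exact move_up (t := p.1) (q := p.2) h2 h3 (fun r _ _ => h r) (Or.inr fun h' => h4 ⟨ht, h'⟩)
  · exact move_up (t := p.1) (q := p.2) h2 h3 (fun r _ _ => h r) (Or.inl ht)

lemma pair_same {j c₀ t t' : ℝ} {P : Prof} {q : R3} (hc : P.c t = P.c t') (hk : P.k t = P.k t') :
    (t, q) ∈ Pair j c₀ P ↔ (t', q) ∈ Pair j c₀ P := by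
  unfold Pair R1 R2 R3'
  simp only [mem_ofPred_eq, hc, hk]

lemma flat_same {c t t' : ℝ} {q : R3} : (t, q) ∈ Flat c ↔ (t', q) ∈ Flat c := Iff.rfl

lemma N4_static {p : R4} (hx : -10 ≤ p.2.1) (hx' : p.2.1 ≤ 10) (h1 : 2 ≤ |p.2.1 + 6|)
    (h2 : 2 ≤ |p.2.1|) (h3 : 2 ≤ |p.2.1 - 6|) (h : N4 p) (r : ℝ) : (r, p.2) ∈ L := by
  have hN : N4 (r, p.2) := h
  rcases le_or_gt p.2.1 (-3) with s1 | s1
  · exact (L_iff2 (p := (r, p.2)) hx (by simp only; linarith)).2 ((A2_iff (p := (r, p.2)) h1).2 hN)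
  rcases le_or_gt p.2.1 3 with s2 | s2
  · exact (L_iff3 (p := (r, p.2)) (by simp only; linarith) (by simp only; linarith)).2
      ((A3_iff (p := (r, p.2)) h2).2 hN)
  · exact (L_iff4 (p := (r, p.2)) (by simp only; linarith) hx').2
      ((A4_iff (p := (r, p.2)) h3).2 hN)

/-- moving horizontally in a pair of sheets -/
lemma horiz {j c₀ : ℝ} {P : Prof} {p : R4} (hp : p ∈ Pair j c₀ P) (hx : |p.2.1 - j| ≤ 2) :
    ∃ S : Set R4, IsPreconnected S ∧ p ∈ S ∧
      (∀ q ∈ S, q ∈ Pair j c₀ P ∧ q.1 = p.1 ∧ |q.2.1 - j| ≤ 2) ∧ ∃ q ∈ S, |q.2.1 - j| = 2 := by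
  obtain ⟨ζ, h1, h2, h3⟩ := hp
  obtain ⟨ε, hε, hεx⟩ : ∃ ε : ℝ, (ε = 1 ∨ ε = -1) ∧ ε * |p.2.1 - j| = p.2.1 - j := by
    rcases abs_choice (p.2.1 - j) with h | h
    · exact ⟨1, Or.inl rfl, by rw [h]; ring⟩
    · exact ⟨-1, Or.inr rfl, by rw [h]; ring⟩
  obtain ⟨δ, hδ, hδz⟩ : ∃ δ : ℝ, (δ = 1 ∨ δ = -1) ∧ δ * |ζ| = ζ := by
    rcases abs_choice ζ with h | h
    · exact ⟨1, Or.inl rfl, by rw [h]; ring⟩
    · exact ⟨-1, Or.inr rfl, by rw [h]; ring⟩
  have hXε : ∀ r, X (ε * r) = X r := by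
    intro r; rcases hε with rfl | rfl
    · rw [one_mul]
    · rw [neg_one_mul, X_even]
  have hXδ : ∀ r, X (δ * r) = X r := by
    intro r; rcases hδ with rfl | rfl
    · rw [one_mul]
    · rw [neg_one_mul, X_even]
  set w : ℝ → ℝ := fun r => δ * Xinv (X r - P.c p.1) with hw
  set Φ : ℝ → R4 := fun r => (p.1, j + ε * r, Y (w r) * S (ε * r),
    c₀ + G (w r) - Y (w r) * P.k p.1) with hΦ
  have hwc : Continuous w :=
    continuous_const.mul (Xinv_continuous.comp (X_continuous.sub continuous_const))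
  have hΦc : Continuous Φ := by
    have a1 := Y_contDiff.continuous
    have a2 := G_contDiff.continuous
    have a3 := S_continuous
    simp only [hΦ]
    fun_prop
  have e1 : X (p.2.1 - j) - P.c p.1 = X ζ := by unfold R1 at h1; simp only at h1; linarith
  have e0 : X |p.2.1 - j| - P.c p.1 = X ζ := by rw [X_abs]; exact e1
  have hw0 : w |p.2.1 - j| = ζ := by
    simp only [hw]; rw [e0, Xinv_X', hδz]
  refine ⟨Φ '' Icc |p.2.1 - j| 2, isPreconnected_Icc.image _ hΦc.continuousOn,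
    ⟨|p.2.1 - j|, ⟨le_rfl, hx⟩, ?_⟩, ?_, Φ 2, ⟨2, ⟨hx, le_rfl⟩, rfl⟩, ?_⟩
  · simp only [hΦ]
    rw [hw0, hεx]
    unfold R2 at h2
    unfold R3' at h3
    simp only at h2 h3
    ext
    · rfl
    · simp
    · simp only; linarith
    · simp only; linarith
  · rintro _ ⟨r, ⟨hr1, hr2⟩, rfl⟩
    have hr0 : 0 ≤ r := (abs_nonneg _).trans hr1
    have hX0 : X 0 ≤ X r - P.c p.1 := by
      have : X |p.2.1 - j| ≤ X r := X_le_X (by rw [abs_abs, abs_of_nonneg hr0]; exact hr1)
      have h5 := X_zero_le ζ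
      linarith
    refine ⟨⟨w r, ?_, ?_, ?_⟩, rfl, ?_⟩
    · unfold R1
      simp only [hΦ, add_sub_cancel_left]
      rw [hXε]
      simp only [hw]
      rw [hXδ, X_Xinv hX0]; ring
    · unfold R2
      simp only [hΦ, add_sub_cancel_left]; ring
    · unfold R3'
      simp only [hΦ]; ring
    · simp only [hΦ, add_sub_cancel_left]
      rw [abs_mul]
      have : |ε| = 1 := by rcases hε with rfl | rfl <;> simp
      rw [this, one_mul, abs_of_nonneg hr0]; exact hr2
  · simp only [hΦ, add_sub_cancel_left]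
    rw [abs_mul]
    have : |ε| = 1 := by rcases hε with rfl | rfl <;> simp
    rw [this]; norm_num

lemma c1_k0 {t : ℝ} (h : -1 ≤ eps * t) : c1.k t = 0 := by
  show - (eps * S1 (eps * t + 2)) = 0
  rw [S1_zero (le_abs.2 (Or.inl (by linarith)))]; ring

lemma W_move {p : R4} (hp : p ∈ W) : JC W p bp := by
  have hpW := hp
  have he := eps_pos
  have hX := X_nonneg
  obtain ⟨hL, ⟨t1, t2⟩, hB⟩ := hp
  obtain ⟨x1, x2⟩ := L_x hL
  rcases le_or_gt p.2.1 (-8) with s1 | s1
  · apply move_static hpW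
    intro r
    obtain ⟨h0, h⟩ := (L_iff1 s1).1 hL
    apply (L_iff1 (p := (r, p.2)) s1).2
    refine ⟨h0, ?_⟩
    rcases h with h | h
    · exact Or.inl ((pair_same rfl rfl).1 h)
    · exact Or.inr ((pair_same rfl rfl).1 h)
  rcases le_or_gt p.2.1 (-4) with s2 | s2
  · rcases (L_iff2 (by linarith) (by linarith)).1 hL with h | h | h
    · apply move_static hpW
      intro r
      exact (L_iff2 (p := (r, p.2)) (by simp only; linarith) (by simp only; linarith)).2 (Or.inl h)
    · -- the first saddle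
      rcases le_or_gt 0 p.1 with ht | ht
      · apply move_up (t := p.1) (q := p.2) t1 t2
        · intro r r1 r2
          have b1 : -1 ≤ eps * r := by have := mul_nonneg he.le (ht.trans r1); linarith
          have b2 : -1 ≤ eps * p.1 := by have := mul_nonneg he.le ht; linarith
          apply (L_iff2 (p := (r, p.2)) (by simp only; linarith) (by simp only; linarith)).2
          refine Or.inr (Or.inl ((pair_same ?_ ?_).1 h))
          · rw [c1_separated b1, c1_separated b2]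
          · rw [c1_k0 b1, c1_k0 b2]
        · rcases ht.eq_or_lt with h0 | h0
          · exact Or.inr fun h' => hB ⟨h0.symm, h'⟩
          · exact Or.inl h0
      · obtain ⟨S, hS1, hS2, hS3, q, hq1, hq2⟩ := horiz h
          (by rw [sub_neg_eq_add]; exact abs_le.2 ⟨by linarith, by linarith⟩)
        have hSW : S ⊆ W := by
          intro q hq
          obtain ⟨k1, k2, k3⟩ := hS3 q hq
          rw [sub_neg_eq_add] at k3
          obtain ⟨k4, k5⟩ := abs_le.1 k3
          refine ⟨(L_iff2 (by linarith) (by linarith)).2 (Or.inr (Or.inl k1)),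
            ⟨by rw [k2]; exact t1, by rw [k2]; exact t2⟩, bad_ne (by rw [k2]; exact ht.ne)⟩
        have hqJ : JC W p q := ⟨S, hSW, hS1, hS2, hq1⟩
        apply hqJ.trans
        apply move_static (hSW hq1)
        intro r
        rw [sub_neg_eq_add] at hq2
        obtain ⟨k4, k5⟩ := abs_le.1 hq2.le
        have hN : N4 q := (A2_iff hq2.ge).1 (Or.inr (Or.inl (hS3 q hq1).1))
        exact N4_static (by linarith) (by linarith) hq2.ge
          (le_abs.2 (Or.inr (by linarith))) (le_abs.2 (Or.inr (by linarith))) hN r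
    · apply move_static hpW
      intro r
      exact (L_iff2 (p := (r, p.2)) (by simp only; linarith) (by simp only; linarith)).2
        (Or.inr (Or.inr h))
  rcases le_or_gt p.2.1 (-2) with s2' | s2'
  · apply move_static hpW
    intro r
    have hN : N4 p := (A2_iff (le_abs.2 (Or.inl (by linarith)))).1
      ((L_iff2 (by linarith) (by linarith)).1 hL)
    exact N4_static (by linarith) (by linarith) (le_abs.2 (Or.inl (by linarith)))
      (le_abs.2 (Or.inr (by linarith))) (le_abs.2 (Or.inr (by linarith))) hN r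
  rcases le_or_gt p.2.1 2 with s3 | s3
  · rcases (L_iff3 (by linarith) (by linarith)).1 hL with h | h | h
    · apply move_static hpW
      intro r
      exact (L_iff3 (p := (r, p.2)) (by simp only; linarith) (by simp only; linarith)).2 (Or.inl h)
    · apply move_static hpW
      intro r
      exact (L_iff3 (p := (r, p.2)) (by simp only; linarith) (by simp only; linarith)).2
        (Or.inr (Or.inl h))
    · -- the second saddle
      rcases le_or_gt p.1 0 with ht | ht
      · have b2 : eps * p.1 ≤ 1 := by have := mul_nonneg he.le (neg_nonneg.2 ht); linarith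
        apply move_down (t := p.1) (q := p.2) t1 t2
        · intro r r1 r2
          have b1 : eps * r ≤ 1 := by
            have := mul_nonneg he.le (neg_nonneg.2 (r2.trans ht)); linarith
          apply (L_iff3 (p := (r, p.2)) (by simp only; linarith) (by simp only; linarith)).2
          refine Or.inr (Or.inr ((pair_same ?_ ?_).1 h))
          · rw [(c2_pinched b1).1, (c2_pinched b2).1]
          · rw [(c2_pinched b1).2, (c2_pinched b2).2]
        · rcases ht.eq_or_lt with h0 | h0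
          · exact Or.inr fun h' => hB ⟨h0, h'⟩
          · exact Or.inl h0
      · obtain ⟨S, hS1, hS2, hS3, q, hq1, hq2⟩ := horiz h
          (by rw [sub_zero]; exact abs_le.2 ⟨by linarith, by linarith⟩)
        have hSW : S ⊆ W := by
          intro q hq
          obtain ⟨k1, k2, k3⟩ := hS3 q hq
          rw [sub_zero] at k3
          obtain ⟨k4, k5⟩ := abs_le.1 k3
          refine ⟨(L_iff3 (by linarith) (by linarith)).2 (Or.inr (Or.inr k1)),
            ⟨by rw [k2]; exact t1, by rw [k2]; exact t2⟩, bad_ne (by rw [k2]; exact ht.ne')⟩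
        have hqJ : JC W p q := ⟨S, hSW, hS1, hS2, hq1⟩
        apply hqJ.trans
        apply move_static (hSW hq1)
        intro r
        rw [sub_zero] at hq2
        obtain ⟨k4, k5⟩ := abs_le.1 hq2.le
        have hN : N4 q := (A3_iff hq2.ge).1 (Or.inr (Or.inr (hS3 q hq1).1))
        exact N4_static (by linarith) (by linarith) (le_abs.2 (Or.inl (by linarith)))
          hq2.ge (le_abs.2 (Or.inr (by linarith))) hN r
  rcases le_or_gt p.2.1 8 with s4 | s4
  · apply move_static hpW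
    intro r
    have h := (L_iff4 (by linarith) (by linarith)).1 hL
    apply (L_iff4 (p := (r, p.2)) (by simp only; linarith) (by simp only; linarith)).2
    rcases h with h | h | h
    · exact Or.inl h
    · exact Or.inr (Or.inl ((pair_same rfl rfl).1 h))
    · exact Or.inr (Or.inr h)
  · apply move_static hpW
    intro r
    obtain ⟨h0, h⟩ := (L_iff5 s4.le).1 hL
    apply (L_iff5 (p := (r, p.2)) s4.le).2
    refine ⟨h0, ?_⟩
    rcases h with h | h
    · exact Or.inl ((pair_same rfl rfl).1 h)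
    · exact Or.inr ((pair_same rfl rfl).1 h)

lemma bp_mem : bp ∈ W := by
  have hT := T0_pos
  exact ⟨level_top (by norm_num) (by norm_num), ⟨by unfold bp; simp only; linarith, le_rfl⟩,
    bad_ne hT.ne'⟩

lemma W_connected : IsConnected W := ⟨⟨bp, bp_mem⟩, isPreconnected_of_JC bp fun _ hp => W_move hp⟩

/-- the surface is invariant under small translations at time `0` -/
lemma L_zero {q : R3} (h : (0, q) ∈ L) {r : ℝ} (hr : 0 ≤ r) (hr' : eps * r ≤ 1) : (r, q) ∈ L := by
  have he := eps_pos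
  have b1 : -1 ≤ eps * r := by have := mul_nonneg he.le hr; linarith
  have b0 : -1 ≤ eps * (0:ℝ) := by simp
  have b2 : eps * (0:ℝ) ≤ 1 := by simp
  have k1 : ∀ j c₀, (0, q) ∈ Pair j c₀ c1 → (r, q) ∈ Pair j c₀ c1 := fun j c₀ h =>
    (pair_same (by rw [c1_separated b1, c1_separated b0]) (by rw [c1_k0 b1, c1_k0 b0])).1 h
  have k2 : ∀ j c₀, (0, q) ∈ Pair j c₀ c2 → (r, q) ∈ Pair j c₀ c2 := fun j c₀ h =>
    (pair_same (by rw [(c2_pinched hr').1, (c2_pinched b2).1])
      (by rw [(c2_pinched hr').2, (c2_pinched b2).2])).1 h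
  have k3 : ∀ j c₀, (0, q) ∈ Pair j c₀ Prof.one → (r, q) ∈ Pair j c₀ Prof.one := fun j c₀ h =>
    (pair_same rfl rfl).1 h
  rcases h with ⟨a, b, h | h⟩ | ⟨a, h | h | h⟩ | ⟨a, h | h | h⟩ | ⟨a, h | h | h⟩ | ⟨a, b, h | h⟩
  · exact Or.inl ⟨a, b, Or.inl (k3 _ _ h)⟩
  · exact Or.inl ⟨a, b, Or.inr (k3 _ _ h)⟩
  · exact Or.inr (Or.inl ⟨a, Or.inl h⟩)
  · exact Or.inr (Or.inl ⟨a, Or.inr (Or.inl (k1 _ _ h))⟩)
  · exact Or.inr (Or.inl ⟨a, Or.inr (Or.inr h)⟩)
  · exact Or.inr (Or.inr (Or.inl ⟨a, Or.inl h⟩))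
  · exact Or.inr (Or.inr (Or.inl ⟨a, Or.inr (Or.inl h)⟩))
  · exact Or.inr (Or.inr (Or.inl ⟨a, Or.inr (Or.inr (k2 _ _ h))⟩))
  · exact Or.inr (Or.inr (Or.inr (Or.inl ⟨a, Or.inl h⟩)))
  · exact Or.inr (Or.inr (Or.inr (Or.inl ⟨a, Or.inr (Or.inl (k3 _ _ h))⟩)))
  · exact Or.inr (Or.inr (Or.inr (Or.inl ⟨a, Or.inr (Or.inr h)⟩)))
  · exact Or.inr (Or.inr (Or.inr (Or.inr ⟨a, b, Or.inl (k3 _ _ h)⟩)))
  · exact Or.inr (Or.inr (Or.inr (Or.inr ⟨a, b, Or.inr (k3 _ _ h)⟩)))

lemma L_connected : IsConnected L := by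
  have hT := T0_pos
  have he := eps_pos
  have hWL : W ⊆ L := fun p hp => hp.1
  refine ⟨⟨bp, bp_mem.1⟩, isPreconnected_of_JC bp ?_⟩
  rintro ⟨t, q⟩ hp
  rcases lt_or_ge t (-T0) with h1 | h1
  · have hq := (mem_L_bottom (eps_lt h1.le)).1 hp
    have h2 : JC L (t, q) (-T0, q) := by
      apply vert h1.le
      intro r _ r2
      exact (mem_L_bottom (eps_lt r2)).2 hq
    exact h2.trans ((bot_conn ((mem_L_bottom (eps_lt le_rfl)).2 hq)).mono hWL)
  rcases lt_or_ge T0 t with h2 | h2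
  · have hq := (mem_L_top (lt_eps h2.le)).1 hp
    have h2 : JC L (T0, q) (t, q) := by
      apply vert h2.le
      intro r r2 _
      exact (mem_L_top (lt_eps r2)).2 hq
    exact h2.symm.trans ((top_conn ((mem_L_top (lt_eps le_rfl)).2 hq)).mono hWL)
  · by_cases hB : Bad (t, q)
    · obtain ⟨h0, -⟩ := hB
      simp only at h0
      subst h0
      have e1 : eps * (1 / eps) = 1 := by field_simp
      have e0 : 0 < 1 / eps := by positivity
      have h3 : JC L (0, q) (1 / eps, q) := by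
        apply vert e0.le
        intro r r1 r2
        apply L_zero hp r1
        calc eps * r ≤ eps * (1 / eps) := mul_le_mul_of_nonneg_left r2 he.le
          _ = 1 := e1
      apply h3.trans
      apply (W_move _).mono hWL
      refine ⟨L_zero hp e0.le e1.le, ⟨by simp only; linarith, ?_⟩, bad_ne e0.ne'⟩
      simp only
      unfold T0
      exact div_le_div_of_nonneg_right (by norm_num) he.le
    · exact (W_move ⟨hp, ⟨h1, h2⟩, hB⟩).mono hWL

/-! ### The closed curve -/

/-- coordinates of the curve -/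
def xk (θ : ℝ) : ℝ := -6 - θ + R (θ - 5) - R (θ - 15)
/-- coordinates of the curve -/
def yk (θ : ℝ) : ℝ := -Y (θ - 5) - Y (θ - 15)
/-- coordinates of the curve -/
def zk (θ : ℝ) : ℝ := -hh - Gp 0 (θ - 5) + Gp 0 (θ - 15)

lemma kA {θ : ℝ} (h : θ ≤ 14) : xk θ = -12 + 1 * (1 + X (-(θ - 5))) ∧ yk θ = 1 * Y (-(θ - 5)) ∧
    zk θ = -2 * hh + G (-(θ - 5)) := by
  have k15 : θ - 15 ≤ -1 := by linarith
  refine ⟨?_, ?_, ?_⟩
  · simp only [xk, R_lo k15, X_even]; unfold R; ring
  · simp only [yk, Y_lo k15, Y_odd]; ring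
  · simp only [zk, Gp_lo k15, G_odd]; unfold Gp; rw [Gl_zero]; ring

lemma kB {θ : ℝ} (h : 6 ≤ θ) : xk θ = 0 + -1 * (1 + X (θ - 15)) ∧ yk θ = -1 * Y (θ - 15) ∧
    zk θ = -2 * hh + G (θ - 15) := by
  have k5 : 1 ≤ θ - 5 := by linarith
  refine ⟨?_, ?_, ?_⟩
  · simp only [xk, R_hi k5]; unfold R; ring
  · simp only [yk, Y_hi k5]; ring
  · simp only [zk, Gp_hi k5]; unfold Gp; rw [Gl_zero]; ring

/-- the closed curve -/
def κ (s : ℝ) : R4 := (0, xk (20 * s), yk (20 * s), zk (20 * s))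

lemma κ_continuous : Continuous κ := by
  have a1 := R_contDiff.continuous
  have a2 := Y_contDiff.continuous
  have a3 : Continuous (fun u => Gp 0 u) := continuous_iff_continuousAt.2
    fun u => (Gp_hasDerivAt 0 u).continuousAt
  unfold κ xk yk zk
  fun_prop

lemma κ_mem {θ : ℝ} (h0 : 0 ≤ θ) (h1 : θ ≤ 20) : ((0, xk θ, yk θ, zk θ) : R4) ∈ L ∧
    xk θ < 0 ∧ zk θ < 0 := by
  have hp := hh_pos
  have hX := X_nonneg
  have b0 : -1 ≤ eps * (0:ℝ) := by simp
  have b2 : eps * (0:ℝ) ≤ 1 := by simp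
  rcases le_or_gt θ 2 with s1 | s1
  · obtain ⟨w1, w2, w3⟩ := kA (θ := θ) (by linarith)
    rw [X_of_one_le (by linarith)] at w1
    rw [Y_hi (by linarith)] at w2
    rw [G_of_one_le (by linarith)] at w3
    refine ⟨?_, by linarith, by linarith⟩
    refine (L_iff2 (by simp only; linarith) (by simp only; linarith)).2 (Or.inr (Or.inl
      ((pair_separated (c1_separated b0)).2 ⟨by simp only; linarith, Or.inr (by simp only; linarith)⟩)))
  rcases le_or_gt θ 8 with s2 | s2
  · obtain ⟨w1, w2, w3⟩ := kA (θ := θ) (by linarith)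
    have hv := hX (-(θ - 5))
    have hv' : X (-(θ - 5)) ≤ 3 := X_le_three (by linarith) (by linarith)
    refine ⟨?_, by linarith, ?_⟩
    · refine (L_iff1 (by simp only; linarith)).2 ⟨by show -12 ≤ xk θ; linarith, Or.inr
        ((pair_pinched rfl rfl).2 ⟨1, _, Or.inl rfl, w1, w2, w3⟩)⟩
    · have := (abs_le.1 (abs_G_le (-(θ - 5)))).2
      linarith
  rcases le_or_gt θ 12 with s3 | s3
  · obtain ⟨w1, w2, w3⟩ := kA (θ := θ) (by linarith)
    rw [X_of_le_neg_one (by linarith)] at w1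
    rw [Y_lo (by linarith)] at w2
    rw [G_of_le_neg_one (by linarith)] at w3
    refine ⟨?_, by linarith, by linarith⟩
    refine (L_iff2 (by simp only; linarith) (by simp only; linarith)).2 (Or.inr (Or.inr
      ⟨by simp only; linarith, by simp only; linarith⟩))
  rcases le_or_gt θ 18 with s4 | s4
  · obtain ⟨w1, w2, w3⟩ := kB (θ := θ) (by linarith)
    have hv := hX (θ - 15)
    have hv' : X (θ - 15) ≤ 3 := X_le_three (by linarith) (by linarith)
    refine ⟨?_, by linarith, ?_⟩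
    · refine (L_iff3 (by simp only; linarith) (by simp only; linarith)).2 (Or.inr (Or.inr
        ((pair_pinched (c2_pinched b2).1 (c2_pinched b2).2).2 ⟨-1, _, Or.inr rfl, w1, w2, w3⟩)))
    · have := (abs_le.1 (abs_G_le (θ - 15))).2
      linarith
  · obtain ⟨w1, w2, w3⟩ := kB (θ := θ) (by linarith)
    rw [X_of_one_le (by linarith)] at w1
    rw [Y_hi (by linarith)] at w2
    rw [G_of_one_le (by linarith)] at w3
    refine ⟨?_, by linarith, by linarith⟩
    refine (L_iff2 (by simp only; linarith) (by simp only; linarith)).2 (Or.inr (Or.inl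
      ((pair_separated (c1_separated b0)).2 ⟨by simp only; linarith, Or.inr (by simp only; linarith)⟩)))

lemma κ_surj {p : R4} (hL : p ∈ L) (hB : Bad p) : p ∈ κ '' Icc 0 1 := by
  have hp := hh_pos
  have hX := X_nonneg
  have b0 : -1 ≤ eps * (0:ℝ) := by simp
  have b2 : eps * (0:ℝ) ≤ 1 := by simp
  obtain ⟨t, x, y, z⟩ := p
  obtain ⟨h0, hx, hz⟩ := hB
  simp only at h0 hx hz
  subst h0
  have x1 := (L_x hL).1
  simp only at x1
  have fin : ∀ θ, 0 ≤ θ → θ ≤ 20 → xk θ = x → yk θ = y → zk θ = z →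
      ((0, x, y, z) : R4) ∈ κ '' Icc 0 1 := by
    intro θ a1 a2 a3 a4 a5
    refine ⟨θ / 20, ⟨by positivity, by linarith⟩, ?_⟩
    unfold κ
    have : 20 * (θ / 20) = θ := by ring
    rw [this, a3, a4, a5]
  rcases le_or_gt x (-8) with s1 | s1
  · obtain ⟨-, h | h⟩ := (L_iff1 (p := (0, x, y, z)) s1).1 hL
    · exfalso
      have := (abs_le.1 (pair_z h)).1
      simp only at this; linarith
    · obtain ⟨ε, v, hε, h1, h2, h3⟩ := (pair_pinched rfl rfl).1 h
      simp only at h1 h2 h3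
      have hv := hX v
      rcases hε with rfl | rfl
      · have hv3 := abs_le.1 (abs_le_three (z := v) (by linarith))
        obtain ⟨w1, w2, w3⟩ := kA (θ := 5 - v) (by linarith)
        have e : -(5 - v - 5) = v := by ring
        rw [e] at w1 w2 w3
        exact fin (5 - v) (by linarith) (by linarith) (by rw [w1, h1]) (by rw [w2, h2]) (by rw [w3, h3])
      · exfalso; linarith
  rcases le_or_gt x (-4) with s2 | s2
  · rcases (L_iff2 (p := (0, x, y, z)) (by simp only; linarith) (by simp only; linarith)).1 hL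
      with h | h | h
    · exfalso; have := h.2; simp only at this; linarith
    · obtain ⟨h1, h2 | h2⟩ := (pair_separated (c1_separated b0)).1 h
      · exfalso; simp only at h2; linarith
      · simp only at h1 h2
        rcases le_or_gt x (-6) with s3 | s3
        · obtain ⟨w1, w2, w3⟩ := kA (θ := -6 - x) (by linarith)
          rw [X_of_one_le (by linarith)] at w1
          rw [Y_hi (by linarith)] at w2
          rw [G_of_one_le (by linarith)] at w3
          exact fin (-6 - x) (by linarith) (by linarith) (by rw [w1]; ring) (by rw [w2, h1]; ring)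
            (by rw [w3, h2]; ring)
        · obtain ⟨w1, w2, w3⟩ := kB (θ := 14 - x) (by linarith)
          rw [X_of_one_le (by linarith)] at w1
          rw [Y_hi (by linarith)] at w2
          rw [G_of_one_le (by linarith)] at w3
          exact fin (14 - x) (by linarith) (by linarith) (by rw [w1]; ring) (by rw [w2, h1]; ring)
            (by rw [w3, h2]; ring)
    · obtain ⟨h1, h2⟩ := h
      simp only at h1 h2
      obtain ⟨w1, w2, w3⟩ := kB (θ := x + 16) (by linarith)
      rw [X_of_le_neg_one (by linarith)] at w1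
      rw [Y_lo (by linarith)] at w2
      rw [G_of_le_neg_one (by linarith)] at w3
      exact fin (x + 16) (by linarith) (by linarith) (by rw [w1]; ring) (by rw [w2, h1]; ring)
        (by rw [w3, h2]; ring)
  · rcases (L_iff3 (p := (0, x, y, z)) (by simp only; linarith) (by simp only; linarith)).1 hL
      with h | h | h
    · exfalso; have := h.2; simp only at this; linarith
    · exfalso; have := h.2; simp only at this; linarith
    · obtain ⟨ε, v, hε, h1, h2, h3⟩ := (pair_pinched (c2_pinched b2).1 (c2_pinched b2).2).1 h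
      simp only at h1 h2 h3
      have hv := hX v
      rcases hε with rfl | rfl
      · exfalso; linarith
      · have hv3 := abs_le.1 (abs_le_three (z := v) (by linarith))
        obtain ⟨w1, w2, w3⟩ := kB (θ := 15 + v) (by linarith)
        have e : 15 + v - 15 = v := by ring
        rw [e] at w1 w2 w3
        exact fin (15 + v) (by linarith) (by linarith) (by rw [w1, h1]) (by rw [w2, h2]) (by rw [w3, h3])

/-- a left inverse -/
def Pk (x z : ℝ) : ℝ :=
  if -hh ≤ z then (if x ≤ -6 then -6 - x else 14 - x) else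
  if -3 * hh < z then (if x < -6 then 5 - Gi 0 (z + 2 * hh) else 15 + Gi 0 (z + 2 * hh)) else
  x + 16

lemma Pk_eq {θ : ℝ} (h0 : 0 ≤ θ) (h1 : θ < 20) : Pk (xk θ) (zk θ) = θ := by
  have hp := hh_pos
  rcases le_or_gt θ 4 with s1 | s1
  · obtain ⟨w1, -, w3⟩ := kA (θ := θ) (by linarith)
    rw [X_of_one_le (by linarith)] at w1
    rw [G_of_one_le (by linarith)] at w3
    unfold Pk
    rw [w3, w1, if_pos (by linarith), if_pos (by linarith)]
    ring
  rcases lt_or_ge θ 6 with s2 | s2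
  · obtain ⟨w1, -, w3⟩ := kA (θ := θ) (by linarith)
    rw [← Gl_zero] at w3
    have g := Gl_lt (l := 0) le_rfl zero_le_one (u := -(θ - 5)) (by linarith) (by linarith)
    have b := X_lt_one (u := -(θ - 5)) (abs_lt.2 ⟨by linarith, by linarith⟩)
    unfold Pk
    rw [w3, w1, if_neg (by linarith), if_pos (by linarith), if_pos (by linarith)]
    have e : -2 * hh + Gl 0 (-(θ - 5)) + 2 * hh = Gl 0 (-(θ - 5)) := by ring
    rw [e, Gi_Gl le_rfl zero_le_one (by linarith) (by linarith)]; ring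
  rcases le_or_gt θ 14 with s3 | s3
  · obtain ⟨w1, -, w3⟩ := kA (θ := θ) (by linarith)
    rw [X_of_le_neg_one (by linarith)] at w1
    rw [G_of_le_neg_one (by linarith)] at w3
    unfold Pk
    rw [w3, w1, if_neg (by linarith), if_neg (by linarith)]
    ring
  rcases lt_or_ge θ 16 with s4 | s4
  · obtain ⟨w1, -, w3⟩ := kB (θ := θ) (by linarith)
    rw [← Gl_zero] at w3
    have g := Gl_lt (l := 0) le_rfl zero_le_one (u := θ - 15) (by linarith) (by linarith)
    have b := X_lt_one (u := θ - 15) (abs_lt.2 ⟨by linarith, by linarith⟩)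
    unfold Pk
    rw [w3, w1, if_neg (by linarith), if_pos (by linarith), if_neg (by linarith)]
    have e : -2 * hh + Gl 0 (θ - 15) + 2 * hh = Gl 0 (θ - 15) := by ring
    rw [e, Gi_Gl le_rfl zero_le_one (by linarith) (by linarith)]; ring
  · obtain ⟨w1, -, w3⟩ := kB (θ := θ) (by linarith)
    rw [X_of_one_le (by linarith)] at w1
    rw [G_of_one_le (by linarith)] at w3
    unfold Pk
    rw [w3, w1, if_pos (by linarith), if_neg (by linarith)]
    ring

lemma genus_pos : HasPositiveGenus T0 L := by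
  have hT := T0_pos
  refine ⟨κ, κ_continuous.continuousOn, ?_, ?_, ?_, ?_⟩
  · intro s hs s' hs' h
    unfold κ at h
    simp only [Prod.mk.injEq, true_and] at h
    have h1 := Pk_eq (θ := 20 * s) (by linarith [hs.1]) (by linarith [hs.2])
    have h2 := Pk_eq (θ := 20 * s') (by linarith [hs'.1]) (by linarith [hs'.2])
    rw [h.1, h.2.2, h2] at h1
    linarith
  · obtain ⟨w1, w2, w3⟩ := kA (θ := 20 * 0) (by norm_num)
    obtain ⟨v1, v2, v3⟩ := kB (θ := 20 * 1) (by norm_num)
    rw [X_of_one_le (by norm_num)] at w1 v1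
    rw [Y_hi (by norm_num)] at w2 v2
    rw [G_of_one_le (by norm_num)] at w3 v3
    unfold κ
    rw [w1, w2, w3, v1, v2, v3]
    ext
    · rfl
    · simp only; norm_num
    · simp only; norm_num
    · rfl
  · intro s hs
    refine ⟨(κ_mem (θ := 20 * s) (by linarith [hs.1]) (by linarith [hs.2])).1, ?_, ?_⟩
    · show -T0 < 0; linarith
    · exact hT
  · have e : (L ∩ {p | -T0 ≤ p.1 ∧ p.1 ≤ T0}) \ κ '' Icc 0 1 = W := by
      ext p
      constructor
      · rintro ⟨⟨h1, h2⟩, h3⟩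
        exact ⟨h1, h2, fun hB => h3 (κ_surj h1 hB)⟩
      · rintro ⟨h1, h2, h3⟩
        refine ⟨⟨h1, h2⟩, ?_⟩
        rintro ⟨s, hs, rfl⟩
        obtain ⟨-, h5, h6⟩ := κ_mem (θ := 20 * s) (by linarith [hs.1]) (by linarith [hs.2])
        exact h3 ⟨rfl, h5, h6⟩
    rw [e]
    exact W_connected

end

end Pool.Agent.N565.LC
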