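import Pool.Agent.N565.LC.Pair

/-!
# The two knots: basic functions
-/

set_option autoImplicit false

namespace Pool.Agent.N565.LC

open Set Filter
open scoped Topology ContDiff

noncomputable section

/-- `R u = 0` for `u ≤ -1` and `R u = 2 u` for `u ≥ 1` -/
def R (u : ℝ) : ℝ := u + X u
/-- its derivative -/
def Rd (u : ℝ) : ℝ := 1 + S u

lemma R_lo {u : ℝ} (h : u ≤ -1) : R u = 0 := by unfold R; rw [X_of_le_neg_one h]; ring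
lemma R_hi {u : ℝ} (h : 1 ≤ u) : R u = 2 * u := by unfold R; rw [X_of_one_le h]; ring
lemma Rd_lo {u : ℝ} (h : u ≤ -1) : Rd u = 0 := by unfold Rd; rw [S_neg_one h]; ring
lemma Rd_hi {u : ℝ} (h : 1 ≤ u) : Rd u = 2 := by unfold Rd; rw [S_one h]; ring
lemma R_hasDerivAt (u : ℝ) : HasDerivAt R (Rd u) u := (hasDerivAt_id u).add (X_hasDerivAt u)
lemma R_contDiff : ContDiff ℝ ∞ R := contDiff_id.add X_contDiff

lemma Y_lo {u : ℝ} (h : u ≤ -1) : Y u = 0 := Y_of_one_le_abs (le_abs.2 (Or.inr (by linarith)))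
lemma Y_hi {u : ℝ} (h : 1 ≤ u) : Y u = 0 := Y_of_one_le_abs (le_abs.2 (Or.inl h))

lemma S2_zero'' {u : ℝ} (hu : 1 ≤ |u|) : S2 u = 0 := by
  have hcl : IsClosed {v : ℝ | S2 v = 0} := isClosed_eq S2_contDiff.continuous continuous_const
  rcases le_abs.1 hu with h | h
  · have h1 : Ioi (1:ℝ) ⊆ {v : ℝ | S2 v = 0} := fun v hv =>
      S2_zero (lt_of_lt_of_le hv (le_abs_self v))
    have h2 := hcl.closure_subset_iff.2 h1
    rw [closure_Ioi] at h2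
    exact h2 h
  · have h1 : Iio (-1:ℝ) ⊆ {v : ℝ | S2 v = 0} := fun v hv =>
      S2_zero (lt_of_lt_of_le (by linarith [show v < -1 from hv]) (neg_le_abs v))
    have h2 := hcl.closure_subset_iff.2 h1
    rw [closure_Iio] at h2
    exact h2 (by simp; linarith)

lemma Y1_lo {u : ℝ} (h : u ≤ -1) : Y1 u = 0 := by
  have h' : 1 ≤ |u| := le_abs.2 (Or.inr (by linarith))
  simp [Y1, S1_zero h', S2_zero'' h']
lemma Y1_hi {u : ℝ} (h : 1 ≤ u) : Y1 u = 0 := by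
  have h' : 1 ≤ |u| := le_abs.2 (Or.inl h)
  simp [Y1, S1_zero h', S2_zero'' h']

/-- the interpolation between the height function `G` of a cusp and a monotone immersed one -/
def Gl (l u : ℝ) : ℝ := (1 - l) * G u + l * (hh * S u)
/-- its derivative -/
def Gd (l u : ℝ) : ℝ := (1 - l) * (S u * Y u) + l * (hh * S1 u)
/-- normalized to vanish for `u ≤ -1` -/
def Gp (l u : ℝ) : ℝ := Gl l u + hh

lemma Gl_lo {l u : ℝ} (h : u ≤ -1) : Gl l u = - hh := by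
  unfold Gl; rw [G_of_le_neg_one h, S_neg_one h]; ring
lemma Gl_hi {l u : ℝ} (h : 1 ≤ u) : Gl l u = hh := by
  unfold Gl; rw [G_of_one_le h, S_one h]; ring
lemma Gp_lo {l u : ℝ} (h : u ≤ -1) : Gp l u = 0 := by unfold Gp; rw [Gl_lo h]; ring
lemma Gp_hi {l u : ℝ} (h : 1 ≤ u) : Gp l u = 2 * hh := by unfold Gp; rw [Gl_hi h]; ring
lemma Gd_lo {l u : ℝ} (h : u ≤ -1) : Gd l u = 0 := by
  have h' : 1 ≤ |u| := le_abs.2 (Or.inr (by linarith))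
  unfold Gd; rw [Y_lo h, S1_zero h']; ring
lemma Gd_hi {l u : ℝ} (h : 1 ≤ u) : Gd l u = 0 := by
  have h' : 1 ≤ |u| := le_abs.2 (Or.inl h)
  unfold Gd; rw [Y_hi h, S1_zero h']; ring
lemma Gl_zero (u : ℝ) : Gl 0 u = G u := by unfold Gl; ring
lemma Gd_zero (u : ℝ) : Gd 0 u = S u * Y u := by unfold Gd; ring
lemma Gl_hasDerivAt (l u : ℝ) : HasDerivAt (Gl l) (Gd l u) u :=
  ((G_hasDerivAt u).const_mul (1 - l)).add (((S_hasDerivAt u).const_mul hh).const_mul l)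
lemma Gp_hasDerivAt (l u : ℝ) : HasDerivAt (Gp l) (Gd l u) u := (Gl_hasDerivAt l u).add_const hh
lemma Gp_contDiff : ContDiff ℝ ∞ (fun q : ℝ × ℝ => Gp q.1 q.2) := by
  unfold Gp Gl
  have h1 : ContDiff ℝ ∞ (fun q : ℝ × ℝ => G q.2) := G_contDiff.comp contDiff_snd
  have h2 : ContDiff ℝ ∞ (fun q : ℝ × ℝ => S q.2) := S_contDiff.comp contDiff_snd
  fun_prop

lemma Gl_odd (l u : ℝ) : Gl l (-u) = - Gl l u := by unfold Gl; rw [G_odd, S_odd]; ring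

lemma Gl_strictMonoOn {l : ℝ} (h0 : 0 ≤ l) (h1 : l ≤ 1) : StrictMonoOn (Gl l) (Icc (-1) 1) := by
  intro u hu v hv huv
  have h2 := S_strictMonoOn hu hv huv
  have h3 : S u ^ 3 < S v ^ 3 := by
    apply Odd.strictMono_pow (by decide : Odd 3) h2
  have h4 := hh_pos
  unfold Gl G
  rcases h0.eq_or_lt with h5 | h5
  · rw [← h5]
    have := mul_lt_mul_of_pos_left h3 h4
    linarith
  · have e1 : (1 - l) * (hh * S u ^ 3) ≤ (1 - l) * (hh * S v ^ 3) :=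
      mul_le_mul_of_nonneg_left (mul_lt_mul_of_pos_left h3 h4).le (by linarith)
    have e2 : l * (hh * S u) < l * (hh * S v) :=
      mul_lt_mul_of_pos_left (mul_lt_mul_of_pos_left h2 h4) h5
    linarith

/-- the inverse of `Gl l` on `[-1, 1]` -/
def Gi (l : ℝ) : ℝ → ℝ := Function.invFunOn (Gl l) (Icc (-1) 1)

lemma Gi_Gl {l u : ℝ} (h0 : 0 ≤ l) (h1 : l ≤ 1) (hu : -1 ≤ u) (hu' : u ≤ 1) :
    Gi l (Gl l u) = u :=
  (Gl_strictMonoOn h0 h1).injOn.leftInvOn_invFunOn ⟨hu, hu'⟩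

lemma Gi_neg_Gl {l u : ℝ} (h0 : 0 ≤ l) (h1 : l ≤ 1) (hu : -1 ≤ u) (hu' : u ≤ 1) :
    Gi l (-Gl l u) = -u := by
  rw [← Gl_odd, Gi_Gl h0 h1 (by linarith) (by linarith)]

lemma Gl_lt {l u : ℝ} (h0 : 0 ≤ l) (h1 : l ≤ 1) (hu : -1 < u) (hu' : u < 1) :
    -hh < Gl l u ∧ Gl l u < hh := by
  have h2 := Gl_strictMonoOn h0 h1 (show (-1:ℝ) ∈ Icc (-1:ℝ) 1 by constructor <;> norm_num)
    ⟨hu.le, hu'.le⟩ hu
  have h3 := Gl_strictMonoOn h0 h1 ⟨hu.le, hu'.le⟩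
    (show (1:ℝ) ∈ Icc (-1:ℝ) 1 by constructor <;> norm_num) hu'
  rw [Gl_lo le_rfl] at h2
  rw [Gl_hi le_rfl] at h3
  exact ⟨h2, h3⟩

/-- the behaviour of a curve near a (possibly smoothed) cusp -/
structure Win (x y : ℝ → ℝ) (z : ℝ → ℝ → ℝ) (x1 y1 : ℝ → ℝ) (z1 : ℝ → ℝ → ℝ)
    (a j ε c δ θ : ℝ) : Prop where
  hx : x θ = j + ε * (1 + X (θ - a))
  hy : y θ = ε * δ * Y (θ - a)
  hz : ∀ l, z l θ = c + δ * Gl l (θ - a)
  hx1 : x1 θ = ε * S (θ - a)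
  hy1 : y1 θ = ε * δ * Y1 (θ - a)
  hz1 : ∀ l, z1 l θ = δ * Gd l (θ - a)

/-! ### The knot at the negative end -/

/-- first coordinate -/
def xm (θ : ℝ) : ℝ := -θ + (R (θ - 11) - R (θ - 15) + R (θ - 19) - R (θ - 29) + R (θ - 33)
  - R (θ - 43) + R (θ - 47) - R (θ - 57) + R (θ - 61) - R (θ - 65))
/-- second coordinate -/
def ym (θ : ℝ) : ℝ := -Y (θ - 11) + Y (θ - 15) - Y (θ - 19) - Y (θ - 29) + Y (θ - 33)
  + Y (θ - 43) - Y (θ - 47) - Y (θ - 57) + Y (θ - 61) - Y (θ - 65)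
/-- third coordinate -/
def zm (l θ : ℝ) : ℝ := 3 * hh - Gp l (θ - 11) - Gp l (θ - 15) - Gp l (θ - 19) + Gp l (θ - 29)
  + Gp l (θ - 33) - Gp l (θ - 43) - Gp l (θ - 47) + Gp l (θ - 57) + Gp l (θ - 61) + Gp l (θ - 65)
/-- derivative of the first coordinate -/
def xm1 (θ : ℝ) : ℝ := -1 + (Rd (θ - 11) - Rd (θ - 15) + Rd (θ - 19) - Rd (θ - 29) + Rd (θ - 33)
  - Rd (θ - 43) + Rd (θ - 47) - Rd (θ - 57) + Rd (θ - 61) - Rd (θ - 65))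
/-- derivative of the second coordinate -/
def ym1 (θ : ℝ) : ℝ := -Y1 (θ - 11) + Y1 (θ - 15) - Y1 (θ - 19) - Y1 (θ - 29) + Y1 (θ - 33)
  + Y1 (θ - 43) - Y1 (θ - 47) - Y1 (θ - 57) + Y1 (θ - 61) - Y1 (θ - 65)
/-- derivative of the third coordinate -/
def zm1 (l θ : ℝ) : ℝ := - Gd l (θ - 11) - Gd l (θ - 15) - Gd l (θ - 19) + Gd l (θ - 29)
  + Gd l (θ - 33) - Gd l (θ - 43) - Gd l (θ - 47) + Gd l (θ - 57) + Gd l (θ - 61) + Gd l (θ - 65)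

/-- the windows of the first knot -/
abbrev Wm := Win xm ym zm xm1 ym1 zm1

lemma wm1 {θ : ℝ} (h' : θ ≤ 14) : Wm 11 (-12) 1 (2 * hh) (-1) θ := by
  have k15 : θ - 15 ≤ (-1:ℝ) := by linarith
  have k19 : θ - 19 ≤ (-1:ℝ) := by linarith
  have k29 : θ - 29 ≤ (-1:ℝ) := by linarith
  have k33 : θ - 33 ≤ (-1:ℝ) := by linarith
  have k43 : θ - 43 ≤ (-1:ℝ) := by linarith
  have k47 : θ - 47 ≤ (-1:ℝ) := by linarith
  have k57 : θ - 57 ≤ (-1:ℝ) := by linarith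
  have k61 : θ - 61 ≤ (-1:ℝ) := by linarith
  have k65 : θ - 65 ≤ (-1:ℝ) := by linarith
  constructor
  · simp only [xm, R_lo k15, R_lo k19, R_lo k29, R_lo k33, R_lo k43, R_lo k47, R_lo k57, R_lo k61, R_lo k65]; unfold R; ring
  · simp only [ym, Y_lo k15, Y_lo k19, Y_lo k29, Y_lo k33, Y_lo k43, Y_lo k47, Y_lo k57, Y_lo k61, Y_lo k65]; ring
  · intro l; simp only [zm, Gp_lo (l := l) k15, Gp_lo (l := l) k19, Gp_lo (l := l) k29, Gp_lo (l := l) k33, Gp_lo (l := l) k43, Gp_lo (l := l) k47, Gp_lo (l := l) k57, Gp_lo (l := l) k61, Gp_lo (l := l) k65]; unfold Gp; ring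
  · simp only [xm1, Rd_lo k15, Rd_lo k19, Rd_lo k29, Rd_lo k33, Rd_lo k43, Rd_lo k47, Rd_lo k57, Rd_lo k61, Rd_lo k65]; unfold Rd; ring
  · simp only [ym1, Y1_lo k15, Y1_lo k19, Y1_lo k29, Y1_lo k33, Y1_lo k43, Y1_lo k47, Y1_lo k57, Y1_lo k61, Y1_lo k65]; ring
  · intro l; simp only [zm1, Gd_lo (l := l) k15, Gd_lo (l := l) k19, Gd_lo (l := l) k29, Gd_lo (l := l) k33, Gd_lo (l := l) k43, Gd_lo (l := l) k47, Gd_lo (l := l) k57, Gd_lo (l := l) k61, Gd_lo (l := l) k65]; ring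

lemma wm2 {θ : ℝ} (h : 12 ≤ θ) (h' : θ ≤ 18) : Wm 15 (-6) (-1) 0 (-1) θ := by
  have k11 : (1:ℝ) ≤ θ - 11 := by linarith
  have k19 : θ - 19 ≤ (-1:ℝ) := by linarith
  have k29 : θ - 29 ≤ (-1:ℝ) := by linarith
  have k33 : θ - 33 ≤ (-1:ℝ) := by linarith
  have k43 : θ - 43 ≤ (-1:ℝ) := by linarith
  have k47 : θ - 47 ≤ (-1:ℝ) := by linarith
  have k57 : θ - 57 ≤ (-1:ℝ) := by linarith
  have k61 : θ - 61 ≤ (-1:ℝ) := by linarith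
  have k65 : θ - 65 ≤ (-1:ℝ) := by linarith
  constructor
  · simp only [xm, R_hi k11, R_lo k19, R_lo k29, R_lo k33, R_lo k43, R_lo k47, R_lo k57, R_lo k61, R_lo k65]; unfold R; ring
  · simp only [ym, Y_hi k11, Y_lo k19, Y_lo k29, Y_lo k33, Y_lo k43, Y_lo k47, Y_lo k57, Y_lo k61, Y_lo k65]; ring
  · intro l; simp only [zm, Gp_hi (l := l) k11, Gp_lo (l := l) k19, Gp_lo (l := l) k29, Gp_lo (l := l) k33, Gp_lo (l := l) k43, Gp_lo (l := l) k47, Gp_lo (l := l) k57, Gp_lo (l := l) k61, Gp_lo (l := l) k65]; unfold Gp; ring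
  · simp only [xm1, Rd_hi k11, Rd_lo k19, Rd_lo k29, Rd_lo k33, Rd_lo k43, Rd_lo k47, Rd_lo k57, Rd_lo k61, Rd_lo k65]; unfold Rd; ring
  · simp only [ym1, Y1_hi k11, Y1_lo k19, Y1_lo k29, Y1_lo k33, Y1_lo k43, Y1_lo k47, Y1_lo k57, Y1_lo k61, Y1_lo k65]; ring
  · intro l; simp only [zm1, Gd_hi (l := l) k11, Gd_lo (l := l) k19, Gd_lo (l := l) k29, Gd_lo (l := l) k33, Gd_lo (l := l) k43, Gd_lo (l := l) k47, Gd_lo (l := l) k57, Gd_lo (l := l) k61, Gd_lo (l := l) k65]; ring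

lemma wm3 {θ : ℝ} (h : 16 ≤ θ) (h' : θ ≤ 28) : Wm 19 (-12) 1 (-2 * hh) (-1) θ := by
  have k11 : (1:ℝ) ≤ θ - 11 := by linarith
  have k15 : (1:ℝ) ≤ θ - 15 := by linarith
  have k29 : θ - 29 ≤ (-1:ℝ) := by linarith
  have k33 : θ - 33 ≤ (-1:ℝ) := by linarith
  have k43 : θ - 43 ≤ (-1:ℝ) := by linarith
  have k47 : θ - 47 ≤ (-1:ℝ) := by linarith
  have k57 : θ - 57 ≤ (-1:ℝ) := by linarith
  have k61 : θ - 61 ≤ (-1:ℝ) := by linarith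
  have k65 : θ - 65 ≤ (-1:ℝ) := by linarith
  constructor
  · simp only [xm, R_hi k11, R_hi k15, R_lo k29, R_lo k33, R_lo k43, R_lo k47, R_lo k57, R_lo k61, R_lo k65]; unfold R; ring
  · simp only [ym, Y_hi k11, Y_hi k15, Y_lo k29, Y_lo k33, Y_lo k43, Y_lo k47, Y_lo k57, Y_lo k61, Y_lo k65]; ring
  · intro l; simp only [zm, Gp_hi (l := l) k11, Gp_hi (l := l) k15, Gp_lo (l := l) k29, Gp_lo (l := l) k33, Gp_lo (l := l) k43, Gp_lo (l := l) k47, Gp_lo (l := l) k57, Gp_lo (l := l) k61, Gp_lo (l := l) k65]; unfold Gp; ring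
  · simp only [xm1, Rd_hi k11, Rd_hi k15, Rd_lo k29, Rd_lo k33, Rd_lo k43, Rd_lo k47, Rd_lo k57, Rd_lo k61, Rd_lo k65]; unfold Rd; ring
  · simp only [ym1, Y1_hi k11, Y1_hi k15, Y1_lo k29, Y1_lo k33, Y1_lo k43, Y1_lo k47, Y1_lo k57, Y1_lo k61, Y1_lo k65]; ring
  · intro l; simp only [zm1, Gd_hi (l := l) k11, Gd_hi (l := l) k15, Gd_lo (l := l) k29, Gd_lo (l := l) k33, Gd_lo (l := l) k43, Gd_lo (l := l) k47, Gd_lo (l := l) k57, Gd_lo (l := l) k61, Gd_lo (l := l) k65]; ring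

lemma wm4 {θ : ℝ} (h : 20 ≤ θ) (h' : θ ≤ 32) : Wm 29 0 (-1) (-2 * hh) 1 θ := by
  have k11 : (1:ℝ) ≤ θ - 11 := by linarith
  have k15 : (1:ℝ) ≤ θ - 15 := by linarith
  have k19 : (1:ℝ) ≤ θ - 19 := by linarith
  have k33 : θ - 33 ≤ (-1:ℝ) := by linarith
  have k43 : θ - 43 ≤ (-1:ℝ) := by linarith
  have k47 : θ - 47 ≤ (-1:ℝ) := by linarith
  have k57 : θ - 57 ≤ (-1:ℝ) := by linarith
  have k61 : θ - 61 ≤ (-1:ℝ) := by linarith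
  have k65 : θ - 65 ≤ (-1:ℝ) := by linarith
  constructor
  · simp only [xm, R_hi k11, R_hi k15, R_hi k19, R_lo k33, R_lo k43, R_lo k47, R_lo k57, R_lo k61, R_lo k65]; unfold R; ring
  · simp only [ym, Y_hi k11, Y_hi k15, Y_hi k19, Y_lo k33, Y_lo k43, Y_lo k47, Y_lo k57, Y_lo k61, Y_lo k65]; ring
  · intro l; simp only [zm, Gp_hi (l := l) k11, Gp_hi (l := l) k15, Gp_hi (l := l) k19, Gp_lo (l := l) k33, Gp_lo (l := l) k43, Gp_lo (l := l) k47, Gp_lo (l := l) k57, Gp_lo (l := l) k61, Gp_lo (l := l) k65]; unfold Gp; ring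
  · simp only [xm1, Rd_hi k11, Rd_hi k15, Rd_hi k19, Rd_lo k33, Rd_lo k43, Rd_lo k47, Rd_lo k57, Rd_lo k61, Rd_lo k65]; unfold Rd; ring
  · simp only [ym1, Y1_hi k11, Y1_hi k15, Y1_hi k19, Y1_lo k33, Y1_lo k43, Y1_lo k47, Y1_lo k57, Y1_lo k61, Y1_lo k65]; ring
  · intro l; simp only [zm1, Gd_hi (l := l) k11, Gd_hi (l := l) k15, Gd_hi (l := l) k19, Gd_lo (l := l) k33, Gd_lo (l := l) k43, Gd_lo (l := l) k47, Gd_lo (l := l) k57, Gd_lo (l := l) k61, Gd_lo (l := l) k65]; ring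

lemma wm5 {θ : ℝ} (h : 30 ≤ θ) (h' : θ ≤ 42) : Wm 33 (-6) 1 0 1 θ := by
  have k11 : (1:ℝ) ≤ θ - 11 := by linarith
  have k15 : (1:ℝ) ≤ θ - 15 := by linarith
  have k19 : (1:ℝ) ≤ θ - 19 := by linarith
  have k29 : (1:ℝ) ≤ θ - 29 := by linarith
  have k43 : θ - 43 ≤ (-1:ℝ) := by linarith
  have k47 : θ - 47 ≤ (-1:ℝ) := by linarith
  have k57 : θ - 57 ≤ (-1:ℝ) := by linarith
  have k61 : θ - 61 ≤ (-1:ℝ) := by linarith
  have k65 : θ - 65 ≤ (-1:ℝ) := by linarith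
  constructor
  · simp only [xm, R_hi k11, R_hi k15, R_hi k19, R_hi k29, R_lo k43, R_lo k47, R_lo k57, R_lo k61, R_lo k65]; unfold R; ring
  · simp only [ym, Y_hi k11, Y_hi k15, Y_hi k19, Y_hi k29, Y_lo k43, Y_lo k47, Y_lo k57, Y_lo k61, Y_lo k65]; ring
  · intro l; simp only [zm, Gp_hi (l := l) k11, Gp_hi (l := l) k15, Gp_hi (l := l) k19, Gp_hi (l := l) k29, Gp_lo (l := l) k43, Gp_lo (l := l) k47, Gp_lo (l := l) k57, Gp_lo (l := l) k61, Gp_lo (l := l) k65]; unfold Gp; ring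
  · simp only [xm1, Rd_hi k11, Rd_hi k15, Rd_hi k19, Rd_hi k29, Rd_lo k43, Rd_lo k47, Rd_lo k57, Rd_lo k61, Rd_lo k65]; unfold Rd; ring
  · simp only [ym1, Y1_hi k11, Y1_hi k15, Y1_hi k19, Y1_hi k29, Y1_lo k43, Y1_lo k47, Y1_lo k57, Y1_lo k61, Y1_lo k65]; ring
  · intro l; simp only [zm1, Gd_hi (l := l) k11, Gd_hi (l := l) k15, Gd_hi (l := l) k19, Gd_hi (l := l) k29, Gd_lo (l := l) k43, Gd_lo (l := l) k47, Gd_lo (l := l) k57, Gd_lo (l := l) k61, Gd_lo (l := l) k65]; ring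

lemma wm6 {θ : ℝ} (h : 34 ≤ θ) (h' : θ ≤ 46) : Wm 43 6 (-1) 0 (-1) θ := by
  have k11 : (1:ℝ) ≤ θ - 11 := by linarith
  have k15 : (1:ℝ) ≤ θ - 15 := by linarith
  have k19 : (1:ℝ) ≤ θ - 19 := by linarith
  have k29 : (1:ℝ) ≤ θ - 29 := by linarith
  have k33 : (1:ℝ) ≤ θ - 33 := by linarith
  have k47 : θ - 47 ≤ (-1:ℝ) := by linarith
  have k57 : θ - 57 ≤ (-1:ℝ) := by linarith
  have k61 : θ - 61 ≤ (-1:ℝ) := by linarith
  have k65 : θ - 65 ≤ (-1:ℝ) := by linarith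
  constructor
  · simp only [xm, R_hi k11, R_hi k15, R_hi k19, R_hi k29, R_hi k33, R_lo k47, R_lo k57, R_lo k61, R_lo k65]; unfold R; ring
  · simp only [ym, Y_hi k11, Y_hi k15, Y_hi k19, Y_hi k29, Y_hi k33, Y_lo k47, Y_lo k57, Y_lo k61, Y_lo k65]; ring
  · intro l; simp only [zm, Gp_hi (l := l) k11, Gp_hi (l := l) k15, Gp_hi (l := l) k19, Gp_hi (l := l) k29, Gp_hi (l := l) k33, Gp_lo (l := l) k47, Gp_lo (l := l) k57, Gp_lo (l := l) k61, Gp_lo (l := l) k65]; unfold Gp; ring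
  · simp only [xm1, Rd_hi k11, Rd_hi k15, Rd_hi k19, Rd_hi k29, Rd_hi k33, Rd_lo k47, Rd_lo k57, Rd_lo k61, Rd_lo k65]; unfold Rd; ring
  · simp only [ym1, Y1_hi k11, Y1_hi k15, Y1_hi k19, Y1_hi k29, Y1_hi k33, Y1_lo k47, Y1_lo k57, Y1_lo k61, Y1_lo k65]; ring
  · intro l; simp only [zm1, Gd_hi (l := l) k11, Gd_hi (l := l) k15, Gd_hi (l := l) k19, Gd_hi (l := l) k29, Gd_hi (l := l) k33, Gd_lo (l := l) k47, Gd_lo (l := l) k57, Gd_lo (l := l) k61, Gd_lo (l := l) k65]; ring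

lemma wm7 {θ : ℝ} (h : 44 ≤ θ) (h' : θ ≤ 56) : Wm 47 0 1 (-2 * hh) (-1) θ := by
  have k11 : (1:ℝ) ≤ θ - 11 := by linarith
  have k15 : (1:ℝ) ≤ θ - 15 := by linarith
  have k19 : (1:ℝ) ≤ θ - 19 := by linarith
  have k29 : (1:ℝ) ≤ θ - 29 := by linarith
  have k33 : (1:ℝ) ≤ θ - 33 := by linarith
  have k43 : (1:ℝ) ≤ θ - 43 := by linarith
  have k57 : θ - 57 ≤ (-1:ℝ) := by linarith
  have k61 : θ - 61 ≤ (-1:ℝ) := by linarith
  have k65 : θ - 65 ≤ (-1:ℝ) := by linarith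
  constructor
  · simp only [xm, R_hi k11, R_hi k15, R_hi k19, R_hi k29, R_hi k33, R_hi k43, R_lo k57, R_lo k61, R_lo k65]; unfold R; ring
  · simp only [ym, Y_hi k11, Y_hi k15, Y_hi k19, Y_hi k29, Y_hi k33, Y_hi k43, Y_lo k57, Y_lo k61, Y_lo k65]; ring
  · intro l; simp only [zm, Gp_hi (l := l) k11, Gp_hi (l := l) k15, Gp_hi (l := l) k19, Gp_hi (l := l) k29, Gp_hi (l := l) k33, Gp_hi (l := l) k43, Gp_lo (l := l) k57, Gp_lo (l := l) k61, Gp_lo (l := l) k65]; unfold Gp; ring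
  · simp only [xm1, Rd_hi k11, Rd_hi k15, Rd_hi k19, Rd_hi k29, Rd_hi k33, Rd_hi k43, Rd_lo k57, Rd_lo k61, Rd_lo k65]; unfold Rd; ring
  · simp only [ym1, Y1_hi k11, Y1_hi k15, Y1_hi k19, Y1_hi k29, Y1_hi k33, Y1_hi k43, Y1_lo k57, Y1_lo k61, Y1_lo k65]; ring
  · intro l; simp only [zm1, Gd_hi (l := l) k11, Gd_hi (l := l) k15, Gd_hi (l := l) k19, Gd_hi (l := l) k29, Gd_hi (l := l) k33, Gd_hi (l := l) k43, Gd_lo (l := l) k57, Gd_lo (l := l) k61, Gd_lo (l := l) k65]; ring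

lemma wm8 {θ : ℝ} (h : 48 ≤ θ) (h' : θ ≤ 60) : Wm 57 12 (-1) (-2 * hh) 1 θ := by
  have k11 : (1:ℝ) ≤ θ - 11 := by linarith
  have k15 : (1:ℝ) ≤ θ - 15 := by linarith
  have k19 : (1:ℝ) ≤ θ - 19 := by linarith
  have k29 : (1:ℝ) ≤ θ - 29 := by linarith
  have k33 : (1:ℝ) ≤ θ - 33 := by linarith
  have k43 : (1:ℝ) ≤ θ - 43 := by linarith
  have k47 : (1:ℝ) ≤ θ - 47 := by linarith
  have k61 : θ - 61 ≤ (-1:ℝ) := by linarith
  have k65 : θ - 65 ≤ (-1:ℝ) := by linarith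
  constructor
  · simp only [xm, R_hi k11, R_hi k15, R_hi k19, R_hi k29, R_hi k33, R_hi k43, R_hi k47, R_lo k61, R_lo k65]; unfold R; ring
  · simp only [ym, Y_hi k11, Y_hi k15, Y_hi k19, Y_hi k29, Y_hi k33, Y_hi k43, Y_hi k47, Y_lo k61, Y_lo k65]; ring
  · intro l; simp only [zm, Gp_hi (l := l) k11, Gp_hi (l := l) k15, Gp_hi (l := l) k19, Gp_hi (l := l) k29, Gp_hi (l := l) k33, Gp_hi (l := l) k43, Gp_hi (l := l) k47, Gp_lo (l := l) k61, Gp_lo (l := l) k65]; unfold Gp; ring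
  · simp only [xm1, Rd_hi k11, Rd_hi k15, Rd_hi k19, Rd_hi k29, Rd_hi k33, Rd_hi k43, Rd_hi k47, Rd_lo k61, Rd_lo k65]; unfold Rd; ring
  · simp only [ym1, Y1_hi k11, Y1_hi k15, Y1_hi k19, Y1_hi k29, Y1_hi k33, Y1_hi k43, Y1_hi k47, Y1_lo k61, Y1_lo k65]; ring
  · intro l; simp only [zm1, Gd_hi (l := l) k11, Gd_hi (l := l) k15, Gd_hi (l := l) k19, Gd_hi (l := l) k29, Gd_hi (l := l) k33, Gd_hi (l := l) k43, Gd_hi (l := l) k47, Gd_lo (l := l) k61, Gd_lo (l := l) k65]; ring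

lemma wm9 {θ : ℝ} (h : 58 ≤ θ) (h' : θ ≤ 64) : Wm 61 6 1 0 1 θ := by
  have k11 : (1:ℝ) ≤ θ - 11 := by linarith
  have k15 : (1:ℝ) ≤ θ - 15 := by linarith
  have k19 : (1:ℝ) ≤ θ - 19 := by linarith
  have k29 : (1:ℝ) ≤ θ - 29 := by linarith
  have k33 : (1:ℝ) ≤ θ - 33 := by linarith
  have k43 : (1:ℝ) ≤ θ - 43 := by linarith
  have k47 : (1:ℝ) ≤ θ - 47 := by linarith
  have k57 : (1:ℝ) ≤ θ - 57 := by linarith
  have k65 : θ - 65 ≤ (-1:ℝ) := by linarith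
  constructor
  · simp only [xm, R_hi k11, R_hi k15, R_hi k19, R_hi k29, R_hi k33, R_hi k43, R_hi k47, R_hi k57, R_lo k65]; unfold R; ring
  · simp only [ym, Y_hi k11, Y_hi k15, Y_hi k19, Y_hi k29, Y_hi k33, Y_hi k43, Y_hi k47, Y_hi k57, Y_lo k65]; ring
  · intro l; simp only [zm, Gp_hi (l := l) k11, Gp_hi (l := l) k15, Gp_hi (l := l) k19, Gp_hi (l := l) k29, Gp_hi (l := l) k33, Gp_hi (l := l) k43, Gp_hi (l := l) k47, Gp_hi (l := l) k57, Gp_lo (l := l) k65]; unfold Gp; ring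
  · simp only [xm1, Rd_hi k11, Rd_hi k15, Rd_hi k19, Rd_hi k29, Rd_hi k33, Rd_hi k43, Rd_hi k47, Rd_hi k57, Rd_lo k65]; unfold Rd; ring
  · simp only [ym1, Y1_hi k11, Y1_hi k15, Y1_hi k19, Y1_hi k29, Y1_hi k33, Y1_hi k43, Y1_hi k47, Y1_hi k57, Y1_lo k65]; ring
  · intro l; simp only [zm1, Gd_hi (l := l) k11, Gd_hi (l := l) k15, Gd_hi (l := l) k19, Gd_hi (l := l) k29, Gd_hi (l := l) k33, Gd_hi (l := l) k43, Gd_hi (l := l) k47, Gd_hi (l := l) k57, Gd_lo (l := l) k65]; ring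

lemma wm10 {θ : ℝ} (h : 62 ≤ θ) : Wm 65 12 (-1) (2 * hh) 1 θ := by
  have k11 : (1:ℝ) ≤ θ - 11 := by linarith
  have k15 : (1:ℝ) ≤ θ - 15 := by linarith
  have k19 : (1:ℝ) ≤ θ - 19 := by linarith
  have k29 : (1:ℝ) ≤ θ - 29 := by linarith
  have k33 : (1:ℝ) ≤ θ - 33 := by linarith
  have k43 : (1:ℝ) ≤ θ - 43 := by linarith
  have k47 : (1:ℝ) ≤ θ - 47 := by linarith
  have k57 : (1:ℝ) ≤ θ - 57 := by linarith
  have k61 : (1:ℝ) ≤ θ - 61 := by linarith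
  constructor
  · simp only [xm, R_hi k11, R_hi k15, R_hi k19, R_hi k29, R_hi k33, R_hi k43, R_hi k47, R_hi k57, R_hi k61]; unfold R; ring
  · simp only [ym, Y_hi k11, Y_hi k15, Y_hi k19, Y_hi k29, Y_hi k33, Y_hi k43, Y_hi k47, Y_hi k57, Y_hi k61]; ring
  · intro l; simp only [zm, Gp_hi (l := l) k11, Gp_hi (l := l) k15, Gp_hi (l := l) k19, Gp_hi (l := l) k29, Gp_hi (l := l) k33, Gp_hi (l := l) k43, Gp_hi (l := l) k47, Gp_hi (l := l) k57, Gp_hi (l := l) k61]; unfold Gp; ring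
  · simp only [xm1, Rd_hi k11, Rd_hi k15, Rd_hi k19, Rd_hi k29, Rd_hi k33, Rd_hi k43, Rd_hi k47, Rd_hi k57, Rd_hi k61]; unfold Rd; ring
  · simp only [ym1, Y1_hi k11, Y1_hi k15, Y1_hi k19, Y1_hi k29, Y1_hi k33, Y1_hi k43, Y1_hi k47, Y1_hi k57, Y1_hi k61]; ring
  · intro l; simp only [zm1, Gd_hi (l := l) k11, Gd_hi (l := l) k15, Gd_hi (l := l) k19, Gd_hi (l := l) k29, Gd_hi (l := l) k33, Gd_hi (l := l) k43, Gd_hi (l := l) k47, Gd_hi (l := l) k57, Gd_hi (l := l) k61]; ring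


/-! ### The knot at the positive end -/

/-- first coordinate -/
def xp (θ : ℝ) : ℝ := -θ + (R (θ - 11) - R (θ - 27) + R (θ - 43) - R (θ - 57) + R (θ - 61) - R (θ - 65)) + 4 * (1 + S (θ - 50))
/-- second coordinate -/
def yp (θ : ℝ) : ℝ := -Y (θ - 11) + Y (θ - 27) - Y (θ - 43) - Y (θ - 57) + Y (θ - 61) - Y (θ - 65)
/-- third coordinate -/
def zp (l θ : ℝ) : ℝ := 3 * hh - Gp l (θ - 11) - Gp l (θ - 27) - Gp l (θ - 43) + Gp l (θ - 57) + Gp l (θ - 61) + Gp l (θ - 65)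
/-- derivative of the first coordinate -/
def xp1 (θ : ℝ) : ℝ := -1 + (Rd (θ - 11) - Rd (θ - 27) + Rd (θ - 43) - Rd (θ - 57) + Rd (θ - 61) - Rd (θ - 65)) + 4 * S1 (θ - 50)
/-- derivative of the second coordinate -/
def yp1 (θ : ℝ) : ℝ := -Y1 (θ - 11) + Y1 (θ - 27) - Y1 (θ - 43) - Y1 (θ - 57) + Y1 (θ - 61) - Y1 (θ - 65)
/-- derivative of the third coordinate -/
def zp1 (l θ : ℝ) : ℝ := -Gd l (θ - 11) - Gd l (θ - 27) - Gd l (θ - 43) + Gd l (θ - 57) + Gd l (θ - 61) + Gd l (θ - 65)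

/-- the windows of the second knot -/
abbrev Wp := Win xp yp zp xp1 yp1 zp1

lemma wp1 {θ : ℝ} (h' : θ ≤ 26) : Wp 11 (-12) 1 (2 * hh) (-1) θ := by
  have k27 : θ - 27 ≤ (-1:ℝ) := by linarith
  have k43 : θ - 43 ≤ (-1:ℝ) := by linarith
  have k57 : θ - 57 ≤ (-1:ℝ) := by linarith
  have k61 : θ - 61 ≤ (-1:ℝ) := by linarith
  have k65 : θ - 65 ≤ (-1:ℝ) := by linarith
  have kk : θ - 50 ≤ (-1:ℝ) := by linarith
  constructor
  · simp only [xp, R_lo k27, R_lo k43, R_lo k57, R_lo k61, R_lo k65, S_neg_one kk]; unfold R; ring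
  · simp only [yp, Y_lo k27, Y_lo k43, Y_lo k57, Y_lo k61, Y_lo k65]; ring
  · intro l; simp only [zp, Gp_lo (l := l) k27, Gp_lo (l := l) k43, Gp_lo (l := l) k57, Gp_lo (l := l) k61, Gp_lo (l := l) k65]; unfold Gp; ring
  · simp only [xp1, Rd_lo k27, Rd_lo k43, Rd_lo k57, Rd_lo k61, Rd_lo k65, S1_zero (le_abs.2 (Or.inr (by linarith : (1:ℝ) ≤ -(θ - 50))))]; unfold Rd; ring
  · simp only [yp1, Y1_lo k27, Y1_lo k43, Y1_lo k57, Y1_lo k61, Y1_lo k65]; ring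
  · intro l; simp only [zp1, Gd_lo (l := l) k27, Gd_lo (l := l) k43, Gd_lo (l := l) k57, Gd_lo (l := l) k61, Gd_lo (l := l) k65]; ring

lemma wp2 {θ : ℝ} (h : 12 ≤ θ) (h' : θ ≤ 42) : Wp 27 6 (-1) 0 (-1) θ := by
  have k11 : (1:ℝ) ≤ θ - 11 := by linarith
  have k43 : θ - 43 ≤ (-1:ℝ) := by linarith
  have k57 : θ - 57 ≤ (-1:ℝ) := by linarith
  have k61 : θ - 61 ≤ (-1:ℝ) := by linarith
  have k65 : θ - 65 ≤ (-1:ℝ) := by linarith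
  have kk : θ - 50 ≤ (-1:ℝ) := by linarith
  constructor
  · simp only [xp, R_hi k11, R_lo k43, R_lo k57, R_lo k61, R_lo k65, S_neg_one kk]; unfold R; ring
  · simp only [yp, Y_hi k11, Y_lo k43, Y_lo k57, Y_lo k61, Y_lo k65]; ring
  · intro l; simp only [zp, Gp_hi (l := l) k11, Gp_lo (l := l) k43, Gp_lo (l := l) k57, Gp_lo (l := l) k61, Gp_lo (l := l) k65]; unfold Gp; ring
  · simp only [xp1, Rd_hi k11, Rd_lo k43, Rd_lo k57, Rd_lo k61, Rd_lo k65, S1_zero (le_abs.2 (Or.inr (by linarith : (1:ℝ) ≤ -(θ - 50))))]; unfold Rd; ring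
  · simp only [yp1, Y1_hi k11, Y1_lo k43, Y1_lo k57, Y1_lo k61, Y1_lo k65]; ring
  · intro l; simp only [zp1, Gd_hi (l := l) k11, Gd_lo (l := l) k43, Gd_lo (l := l) k57, Gd_lo (l := l) k61, Gd_lo (l := l) k65]; ring

lemma wp3 {θ : ℝ} (h : 28 ≤ θ) (h' : θ ≤ 49) : Wp 43 (-12) 1 (-2 * hh) (-1) θ := by
  have k11 : (1:ℝ) ≤ θ - 11 := by linarith
  have k27 : (1:ℝ) ≤ θ - 27 := by linarith
  have k57 : θ - 57 ≤ (-1:ℝ) := by linarith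
  have k61 : θ - 61 ≤ (-1:ℝ) := by linarith
  have k65 : θ - 65 ≤ (-1:ℝ) := by linarith
  have kk : θ - 50 ≤ (-1:ℝ) := by linarith
  constructor
  · simp only [xp, R_hi k11, R_hi k27, R_lo k57, R_lo k61, R_lo k65, S_neg_one kk]; unfold R; ring
  · simp only [yp, Y_hi k11, Y_hi k27, Y_lo k57, Y_lo k61, Y_lo k65]; ring
  · intro l; simp only [zp, Gp_hi (l := l) k11, Gp_hi (l := l) k27, Gp_lo (l := l) k57, Gp_lo (l := l) k61, Gp_lo (l := l) k65]; unfold Gp; ring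
  · simp only [xp1, Rd_hi k11, Rd_hi k27, Rd_lo k57, Rd_lo k61, Rd_lo k65, S1_zero (le_abs.2 (Or.inr (by linarith : (1:ℝ) ≤ -(θ - 50))))]; unfold Rd; ring
  · simp only [yp1, Y1_hi k11, Y1_hi k27, Y1_lo k57, Y1_lo k61, Y1_lo k65]; ring
  · intro l; simp only [zp1, Gd_hi (l := l) k11, Gd_hi (l := l) k27, Gd_lo (l := l) k57, Gd_lo (l := l) k61, Gd_lo (l := l) k65]; ring

lemma wp4 {θ : ℝ} (h : 51 ≤ θ) (h' : θ ≤ 60) : Wp 57 12 (-1) (-2 * hh) 1 θ := by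
  have k11 : (1:ℝ) ≤ θ - 11 := by linarith
  have k27 : (1:ℝ) ≤ θ - 27 := by linarith
  have k43 : (1:ℝ) ≤ θ - 43 := by linarith
  have k61 : θ - 61 ≤ (-1:ℝ) := by linarith
  have k65 : θ - 65 ≤ (-1:ℝ) := by linarith
  have kk : (1:ℝ) ≤ θ - 50 := by linarith
  constructor
  · simp only [xp, R_hi k11, R_hi k27, R_hi k43, R_lo k61, R_lo k65, S_one kk]; unfold R; ring
  · simp only [yp, Y_hi k11, Y_hi k27, Y_hi k43, Y_lo k61, Y_lo k65]; ring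
  · intro l; simp only [zp, Gp_hi (l := l) k11, Gp_hi (l := l) k27, Gp_hi (l := l) k43, Gp_lo (l := l) k61, Gp_lo (l := l) k65]; unfold Gp; ring
  · simp only [xp1, Rd_hi k11, Rd_hi k27, Rd_hi k43, Rd_lo k61, Rd_lo k65, S1_zero (le_abs.2 (Or.inl kk))]; unfold Rd; ring
  · simp only [yp1, Y1_hi k11, Y1_hi k27, Y1_hi k43, Y1_lo k61, Y1_lo k65]; ring
  · intro l; simp only [zp1, Gd_hi (l := l) k11, Gd_hi (l := l) k27, Gd_hi (l := l) k43, Gd_lo (l := l) k61, Gd_lo (l := l) k65]; ring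

lemma wp5 {θ : ℝ} (h : 58 ≤ θ) (h' : θ ≤ 64) : Wp 61 6 1 0 1 θ := by
  have k11 : (1:ℝ) ≤ θ - 11 := by linarith
  have k27 : (1:ℝ) ≤ θ - 27 := by linarith
  have k43 : (1:ℝ) ≤ θ - 43 := by linarith
  have k57 : (1:ℝ) ≤ θ - 57 := by linarith
  have k65 : θ - 65 ≤ (-1:ℝ) := by linarith
  have kk : (1:ℝ) ≤ θ - 50 := by linarith
  constructor
  · simp only [xp, R_hi k11, R_hi k27, R_hi k43, R_hi k57, R_lo k65, S_one kk]; unfold R; ring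
  · simp only [yp, Y_hi k11, Y_hi k27, Y_hi k43, Y_hi k57, Y_lo k65]; ring
  · intro l; simp only [zp, Gp_hi (l := l) k11, Gp_hi (l := l) k27, Gp_hi (l := l) k43, Gp_hi (l := l) k57, Gp_lo (l := l) k65]; unfold Gp; ring
  · simp only [xp1, Rd_hi k11, Rd_hi k27, Rd_hi k43, Rd_hi k57, Rd_lo k65, S1_zero (le_abs.2 (Or.inl kk))]; unfold Rd; ring
  · simp only [yp1, Y1_hi k11, Y1_hi k27, Y1_hi k43, Y1_hi k57, Y1_lo k65]; ring
  · intro l; simp only [zp1, Gd_hi (l := l) k11, Gd_hi (l := l) k27, Gd_hi (l := l) k43, Gd_hi (l := l) k57, Gd_lo (l := l) k65]; ring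

lemma wp6 {θ : ℝ} (h : 62 ≤ θ) : Wp 65 12 (-1) (2 * hh) 1 θ := by
  have k11 : (1:ℝ) ≤ θ - 11 := by linarith
  have k27 : (1:ℝ) ≤ θ - 27 := by linarith
  have k43 : (1:ℝ) ≤ θ - 43 := by linarith
  have k57 : (1:ℝ) ≤ θ - 57 := by linarith
  have k61 : (1:ℝ) ≤ θ - 61 := by linarith
  have kk : (1:ℝ) ≤ θ - 50 := by linarith
  constructor
  · simp only [xp, R_hi k11, R_hi k27, R_hi k43, R_hi k57, R_hi k61, S_one kk]; unfold R; ring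
  · simp only [yp, Y_hi k11, Y_hi k27, Y_hi k43, Y_hi k57, Y_hi k61]; ring
  · intro l; simp only [zp, Gp_hi (l := l) k11, Gp_hi (l := l) k27, Gp_hi (l := l) k43, Gp_hi (l := l) k57, Gp_hi (l := l) k61]; unfold Gp; ring
  · simp only [xp1, Rd_hi k11, Rd_hi k27, Rd_hi k43, Rd_hi k57, Rd_hi k61, S1_zero (le_abs.2 (Or.inl kk))]; unfold Rd; ring
  · simp only [yp1, Y1_hi k11, Y1_hi k27, Y1_hi k43, Y1_hi k57, Y1_hi k61]; ring
  · intro l; simp only [zp1, Gd_hi (l := l) k11, Gd_hi (l := l) k27, Gd_hi (l := l) k43, Gd_hi (l := l) k57, Gd_hi (l := l) k61]; ring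


lemma wp_mid {θ : ℝ} (h : 44 ≤ θ) (h' : θ ≤ 56) : xp θ = θ - 54 + 4 * (1 + S (θ - 50)) ∧ yp θ = 0 ∧
    (∀ l, zp l θ = -3 * hh) ∧ xp1 θ = 1 + 4 * S1 (θ - 50) ∧ yp1 θ = 0 ∧ ∀ l, zp1 l θ = 0 := by
  have k11 : (1:ℝ) ≤ θ - 11 := by linarith
  have k27 : (1:ℝ) ≤ θ - 27 := by linarith
  have k43 : (1:ℝ) ≤ θ - 43 := by linarith
  have k57 : θ - 57 ≤ (-1:ℝ) := by linarith
  have k61 : θ - 61 ≤ (-1:ℝ) := by linarith
  have k65 : θ - 65 ≤ (-1:ℝ) := by linarith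
  refine ⟨?_, ?_, ?_, ?_, ?_, ?_⟩
  · simp only [xp, R_hi k11, R_hi k27, R_hi k43, R_lo k57, R_lo k61, R_lo k65]; ring
  · simp only [yp, Y_hi k11, Y_hi k27, Y_hi k43, Y_lo k57, Y_lo k61, Y_lo k65]; ring
  · intro l; simp only [zp, Gp_hi (l := l) k11, Gp_hi (l := l) k27, Gp_hi (l := l) k43, Gp_lo (l := l) k57, Gp_lo (l := l) k61, Gp_lo (l := l) k65]; ring
  · simp only [xp1, Rd_hi k11, Rd_hi k27, Rd_hi k43, Rd_lo k57, Rd_lo k61, Rd_lo k65]; ring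
  · simp only [yp1, Y1_hi k11, Y1_hi k27, Y1_hi k43, Y1_lo k57, Y1_lo k61, Y1_lo k65]; ring
  · intro l; simp only [zp1, Gd_hi (l := l) k11, Gd_hi (l := l) k27, Gd_hi (l := l) k43, Gd_lo (l := l) k57, Gd_lo (l := l) k61, Gd_lo (l := l) k65]; ring


end

end Pool.Agent.N565.LC
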