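import Mathlib

/-!
# Lagrangian cobordisms in the symplectization of `ℝ³`: definitions

Points of `ℝ³` are `(x, y, z)`, points of the symplectization `ℝ × ℝ³` are `(t, x, y, z)`.
-/

set_option autoImplicit false

namespace Pool.Agent.N565.LC

open Set
open scoped ContDiff

/-- `ℝ³` with coordinates `(x, y, z)` -/
abbrev R3 := ℝ × ℝ × ℝ

/-- the symplectization `ℝ × ℝ³` with coordinates `(t, x, y, z)` -/
abbrev R4 := ℝ × ℝ × ℝ × ℝ

/-- the standard contact form `α = dz - y dx` at the point `q`, evaluated on the vector `v` -/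
def contactForm (q v : R3) : ℝ := v.2.2 - q.2.1 * v.1

/-- the primitive `e^t α` of the symplectic form, at the point `p`, as a linear form -/
noncomputable def liouville (p : R4) : R4 →L[ℝ] ℝ :=
  Real.exp p.1 • ((ContinuousLinearMap.snd ℝ ℝ ℝ).comp
      ((ContinuousLinearMap.snd ℝ ℝ (ℝ × ℝ)).comp (ContinuousLinearMap.snd ℝ ℝ R3))
    - p.2.2.1 • (ContinuousLinearMap.fst ℝ ℝ (ℝ × ℝ)).comp (ContinuousLinearMap.snd ℝ ℝ R3))

/-- the symplectic form `ω = d(e^t α) = e^t (dt ∧ α + dx ∧ dy)` at the point `p` -/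
noncomputable def omega (p u v : R4) : ℝ :=
  Real.exp p.1 * (u.1 * contactForm p.2 v.2 - v.1 * contactForm p.2 u.2
    + (u.2.1 * v.2.2.1 - u.2.2.1 * v.2.1))

/-- a smooth oriented knot: a smooth `P`-periodic curve which is immersed and injective modulo `P` -/
structure IsKnot (P : ℝ) (γ : ℝ → R3) : Prop where
  period_pos : 0 < P
  smooth : ContDiff ℝ ∞ γ
  periodic : ∀ s, γ (s + P) = γ s
  injective : ∀ s s', γ s = γ s' → ∃ n : ℤ, s' = s + n * P
  immersed : ∀ s, deriv γ s ≠ 0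

/-- a Legendrian knot -/
structure IsLegendrianKnot (P : ℝ) (γ : ℝ → R3) : Prop where
  knot : IsKnot P γ
  legendrian : ∀ s, contactForm (γ s) (deriv γ s) = 0

/-- `L` is a smooth embedded surface (without boundary) in `ℝ × ℝ³`: locally it is the zero set of
a smooth map to the plane whose derivative is surjective -/
def IsSmoothSurface (L : Set R4) : Prop :=
  ∀ p ∈ L, ∃ (U : Set R4) (g : R4 → ℝ × ℝ), IsOpen U ∧ p ∈ U ∧ ContDiffOn ℝ ∞ g U ∧
    Function.Surjective (fderiv ℝ g p) ∧ ∀ q ∈ U, q ∈ L ↔ g q = 0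

/-- an orientation of the surface `L`: a 2-form `o` along `L`, continuous on `L`, which does not
vanish on linearly independent tangent vectors; `(u, v)` is positively oriented if `0 < o p u v` -/
structure IsOrientation (L : Set R4) (o : R4 → R4 → R4 → ℝ) : Prop where
  add_left : ∀ p u u' v, o p (u + u') v = o p u v + o p u' v
  smul_left : ∀ (p : R4) (r : ℝ) (u v : R4), o p (r • u) v = r * o p u v
  alt : ∀ p u v, o p v u = - o p u v
  continuousOn : ∀ u v, ContinuousOn (fun p => o p u v) L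
  nonzero : ∀ p ∈ L, ∀ u ∈ tangentConeAt ℝ L p, ∀ v ∈ tangentConeAt ℝ L p,
    LinearIndependent ℝ ![u, v] → o p u v ≠ 0

/-- an oriented connected Lagrangian cobordism from the knot `γ₀` to the knot `γ₁`, cylindrical
outside `[-T, T] × ℝ³` -/
structure IsLagrangianCobordism (T : ℝ) (γ₀ γ₁ : ℝ → R3) (L : Set R4) : Prop where
  closed : IsClosed L
  surface : IsSmoothSurface L
  connected : IsConnected L
  lagrangian : ∀ p ∈ L, ∀ u ∈ tangentConeAt ℝ L p, ∀ v ∈ tangentConeAt ℝ L p, omega p u v = 0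
  bottom : L ∩ {p | p.1 < -T} = {p | p.1 < -T ∧ p.2 ∈ range γ₀}
  top : L ∩ {p | T < p.1} = {p | T < p.1 ∧ p.2 ∈ range γ₁}
  compact : IsCompact (L ∩ {p | -T ≤ p.1 ∧ p.1 ≤ T})
  oriented : ∃ o, IsOrientation L o ∧
    (∀ t < -T, ∀ s, 0 < o (t, γ₀ s) (1, 0) (0, deriv γ₀ s)) ∧
    (∀ t > T, ∀ s, 0 < o (t, γ₁ s) (1, 0) (0, deriv γ₁ s))

/-- exactness: `e^t α|_L = df` for a function `f` which is constant on each of the two ends -/
def IsExact (T : ℝ) (L : Set R4) : Prop :=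
  ∃ f : R4 → ℝ, (∀ p ∈ L, HasFDerivWithinAt f (liouville p) L p) ∧
    (∃ a, ∀ p ∈ L, p.1 < -T → f p = a) ∧ (∃ b, ∀ p ∈ L, T < p.1 → f p = b)

/-- the complex determinant of two vectors `u, v` at the point `p`, in the complex coordinates
`e^t + i z`, `x + i e^t y`; here `ω` is the standard symplectic form of `ℂ²` -/
noncomputable def cdet (p u v : R4) : ℂ :=
  (Real.exp p.1 * u.1 + u.2.2.2 * Complex.I) *
      (v.2.1 + (Real.exp p.1 * (v.2.2.1 + p.2.2.1 * v.1)) * Complex.I)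
    - (Real.exp p.1 * v.1 + v.2.2.2 * Complex.I) *
      (u.2.1 + (Real.exp p.1 * (u.2.2.1 + p.2.2.1 * u.1)) * Complex.I)

/-- the Maslov class of `L` vanishes: the phase `e^{iθ}` (up to sign) of the tangent planes, given
by the complex determinant of tangent vectors, has a continuous logarithm `iθ` on `L` -/
def MaslovZero (L : Set R4) : Prop :=
  ∃ θ : R4 → ℝ, ContinuousOn θ L ∧
    ∀ p ∈ L, ∀ u ∈ tangentConeAt ℝ L p, ∀ v ∈ tangentConeAt ℝ L p,
      ∃ r : ℝ, cdet p u v = r * Complex.exp (θ p * Complex.I)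

/-- the compact surface `L ∩ ([-T, T] × ℝ³)` has positive genus: its interior contains a simple
closed curve which does not separate the surface -/
def HasPositiveGenus (T : ℝ) (L : Set R4) : Prop :=
  ∃ κ : ℝ → R4, ContinuousOn κ (Icc 0 1) ∧ InjOn κ (Ico 0 1) ∧ κ 0 = κ 1 ∧
    (∀ s ∈ Icc (0:ℝ) 1, κ s ∈ L ∧ -T < (κ s).1 ∧ (κ s).1 < T) ∧
    IsConnected ((L ∩ {p | -T ≤ p.1 ∧ p.1 ≤ T}) \ κ '' Icc 0 1)

/-- an annulus (a surface of genus `0`) smoothly and properly embedded in `[-T, T] × ℝ³`, with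
oriented boundary the knot `γ₁` in `{T} × ℝ³` and the reverse of the knot `γ₀` in `{-T} × ℝ³` -/
structure IsEmbeddedAnnulus (P T : ℝ) (γ₀ γ₁ : ℝ → R3) (A : ℝ × ℝ → R4) : Prop where
  smooth : ContDiff ℝ ∞ A
  periodic : ∀ a s, A (a, s + P) = A (a, s)
  injective : ∀ a ∈ Icc (-T) T, ∀ a' ∈ Icc (-T) T, ∀ s s', A (a, s) = A (a', s') →
    a = a' ∧ ∃ n : ℤ, s' = s + n * P
  immersed : ∀ a ∈ Icc (-T) T, ∀ s, Function.Injective (fderiv ℝ A (a, s))
  interior : ∀ a ∈ Ioo (-T) T, ∀ s, -T < (A (a, s)).1 ∧ (A (a, s)).1 < T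
  bottom : ∀ s, A (-T, s) = (-T, γ₀ s)
  top : ∀ s, A (T, s) = (T, γ₁ s)

end Pool.Agent.N565.LC
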