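import Pool.Agent.N565.LC.Global

/-!
# The surface has the local properties at all points
-/

set_option autoImplicit false

namespace Pool.Agent.N565.LC

open Set Filter
open scoped Topology ContDiff

noncomputable section

/-- the phase over the slabs -/
def thA1 (p : R4) : ℝ :=
  if 0 < p.2.2.2 then thP 1 (-12) (2 * hh) Prof.one p else thP 3 (-12) (-2 * hh) Prof.one p
/-- the phase over the slabs -/
def thA2 (p : R4) : ℝ :=
  if 2 * hh < p.2.2.2 then ((1 : ℤ) : ℝ) * Real.pi else
    if p.2.2.2 < -2 * hh then ((4 : ℤ) : ℝ) * Real.pi else thP 2 (-6) 0 c1 p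
/-- the phase over the slabs -/
def thA3 (p : R4) : ℝ :=
  if 2 * hh < p.2.2.2 then ((1 : ℤ) : ℝ) * Real.pi else
    if 0 < p.2.2.2 then ((2 : ℤ) : ℝ) * Real.pi else thP 3 0 (-2 * hh) c2 p
/-- the phase over the slabs -/
def thA4 (p : R4) : ℝ :=
  if 2 * hh < p.2.2.2 then ((1 : ℤ) : ℝ) * Real.pi else
    if p.2.2.2 < -2 * hh then ((4 : ℤ) : ℝ) * Real.pi else thP 2 6 0 Prof.one p
/-- the phase over the slabs -/
def thA5 (p : R4) : ℝ :=
  if 0 < p.2.2.2 then thP 1 12 (2 * hh) Prof.one p else thP 3 12 (-2 * hh) Prof.one p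
/-- the phase over the neutral zones -/
def thN (p : R4) : ℝ := (1 + (3 * hh - p.2.2.2) / (2 * hh)) * Real.pi

/-- the phase of the surface -/
def theta (p : R4) : ℝ :=
  if p.2.1 ≤ -9 then thA1 p else if p.2.1 ≤ -3 then thA2 p else if p.2.1 ≤ 3 then thA3 p
    else if p.2.1 ≤ 9 then thA4 p else thA5 p

lemma thP_neutral {n : ℤ} {j c₀ : ℝ} {P : Prof} {p : R4} (hn : (n : ℝ) * (2 * hh) = 4 * hh - c₀)
    (h : 2 ≤ |p.2.1 - j|) (hp : p ∈ Pair j c₀ P) : thP n j c₀ P p = thN p := by
  have h0 := hh_pos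
  have h1 := (neutral h).1 hp
  obtain ⟨h2, h3⟩ := neutral_zt h hp
  have h4 : (n : ℝ) = 2 - c₀ / (2 * hh) := by field_simp; linarith
  rcases h1.2 with h5 | h5
  · rw [thP_up (h2 h5), thN, h5, h4]; field_simp; ring
  · rw [thP_down (h3 h5), thN, h5, h4]; field_simp; ring

lemma thA1_neutral {p : R4} (h : -10 ≤ p.2.1) (hp : N4 p) : thA1 p = thN p := by
  have h0 := hh_pos
  have hn : 2 ≤ |p.2.1 - (-12)| := le_abs.2 (Or.inl (by linarith))
  obtain ⟨h1, h2⟩ := hp
  unfold thA1
  split_ifs with h3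
  · apply thP_neutral _ hn
    · rw [neutral hn]
      refine ⟨h1, ?_⟩
      rcases h2 with h2 | h2 | h2 | h2
      · left; linarith
      · right; linarith
      · exfalso; linarith
      · exfalso; linarith
    · push_cast; ring
  · apply thP_neutral _ hn
    · rw [neutral hn]
      refine ⟨h1, ?_⟩
      rcases h2 with h2 | h2 | h2 | h2
      · exfalso; linarith
      · exfalso; linarith
      · left; linarith
      · right; linarith
    · push_cast; ring

lemma thA5_neutral {p : R4} (h : p.2.1 ≤ 10) (hp : N4 p) : thA5 p = thN p := by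
  have h0 := hh_pos
  have hn : 2 ≤ |p.2.1 - 12| := le_abs.2 (Or.inr (by linarith))
  obtain ⟨h1, h2⟩ := hp
  unfold thA5
  split_ifs with h3
  · apply thP_neutral _ hn
    · rw [neutral hn]
      refine ⟨h1, ?_⟩
      rcases h2 with h2 | h2 | h2 | h2
      · left; linarith
      · right; linarith
      · exfalso; linarith
      · exfalso; linarith
    · push_cast; ring
  · apply thP_neutral _ hn
    · rw [neutral hn]
      refine ⟨h1, ?_⟩
      rcases h2 with h2 | h2 | h2 | h2
      · exfalso; linarith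
      · exfalso; linarith
      · left; linarith
      · right; linarith
    · push_cast; ring

lemma mid_neutral {P : Prof} {j : ℝ} {p : R4} (hn : 2 ≤ |p.2.1 - j|) (hp : N4 p) :
    (if 2 * hh < p.2.2.2 then ((1 : ℤ) : ℝ) * Real.pi else
    if p.2.2.2 < -2 * hh then ((4 : ℤ) : ℝ) * Real.pi else thP 2 j 0 P p) = thN p := by
  have h0 := hh_pos
  obtain ⟨h1, h2⟩ := hp
  split_ifs with h3 h4
  · have : p.2.2.2 = 3 * hh := by
      rcases h2 with h2 | h2 | h2 | h2
      · exact h2
      all_goals exfalso; linarith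
    rw [thN, this]; simp
  · have : p.2.2.2 = -3 * hh := by
      rcases h2 with h2 | h2 | h2 | h2
      on_goal 4 => exact h2
      all_goals exfalso; linarith
    rw [thN, this]; field_simp; push_cast; ring
  · apply thP_neutral _ hn
    · rw [neutral hn]
      refine ⟨h1, ?_⟩
      rcases h2 with h2 | h2 | h2 | h2
      · exfalso; linarith
      · left; linarith
      · right; linarith
      · exfalso; linarith
    · push_cast; ring

lemma thA2_neutral {p : R4} (hn : 2 ≤ |p.2.1 + 6|) (hp : N4 p) : thA2 p = thN p :=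
  mid_neutral (j := -6) (by rwa [sub_neg_eq_add]) hp

lemma thA4_neutral {p : R4} (hn : 2 ≤ |p.2.1 - 6|) (hp : N4 p) : thA4 p = thN p :=
  mid_neutral hn hp

lemma thA3_neutral {p : R4} (hn : 2 ≤ |p.2.1|) (hp : N4 p) : thA3 p = thN p := by
  have h0 := hh_pos
  have hn' : 2 ≤ |p.2.1 - 0| := by simpa using hn
  obtain ⟨h1, h2⟩ := hp
  unfold thA3
  split_ifs with h3 h4
  · have : p.2.2.2 = 3 * hh := by
      rcases h2 with h2 | h2 | h2 | h2
      · exact h2
      all_goals exfalso; linarith
    rw [thN, this]; simp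
  · have : p.2.2.2 = hh := by
      rcases h2 with h2 | h2 | h2 | h2
      on_goal 2 => exact h2
      all_goals exfalso; linarith
    rw [thN, this]; field_simp; push_cast; ring
  · apply thP_neutral _ hn'
    · rw [neutral hn']
      refine ⟨h1, ?_⟩
      rcases h2 with h2 | h2 | h2 | h2
      · exfalso; linarith
      · exfalso; linarith
      · left; linarith
      · right; linarith
    · push_cast; ring

lemma theta1 {p : R4} (hp : p ∈ L) (h : p.2.1 ≤ -8) : theta p = thA1 p := by
  unfold theta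
  split_ifs with h1 h2 h3 h4
  · rfl
  · rw [L_iff1 h, A1_iff (by linarith)] at hp
    rw [thA1_neutral (by linarith) hp, thA2_neutral (le_abs.2 (Or.inr (by linarith))) hp]
  all_goals exfalso; linarith

lemma theta2 {p : R4} (hp : p ∈ L) (h : -10 ≤ p.2.1) (h' : p.2.1 ≤ -2) : theta p = thA2 p := by
  unfold theta
  split_ifs with h1 h2 h3 h4
  · rw [L_iff1 (by linarith), A1_iff (by linarith)] at hp
    rw [thA1_neutral (by linarith) hp, thA2_neutral (le_abs.2 (Or.inr (by linarith))) hp]
  · rfl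
  · rw [L_iff2 h h', A2_iff (le_abs.2 (Or.inl (by linarith)))] at hp
    rw [thA3_neutral (le_abs.2 (Or.inr (by linarith))) hp,
      thA2_neutral (le_abs.2 (Or.inl (by linarith))) hp]
  all_goals exfalso; linarith

lemma theta3 {p : R4} (hp : p ∈ L) (h : -4 ≤ p.2.1) (h' : p.2.1 ≤ 4) : theta p = thA3 p := by
  unfold theta
  split_ifs with h1 h2 h3 h4
  · exfalso; linarith
  · rw [L_iff3 (by linarith) (by linarith), A3_iff (le_abs.2 (Or.inr (by linarith)))] at hp
    rw [thA3_neutral (le_abs.2 (Or.inr (by linarith))) hp,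
      thA2_neutral (le_abs.2 (Or.inl (by linarith))) hp]
  · rfl
  · rw [L_iff3 (by linarith) (by linarith), A3_iff (le_abs.2 (Or.inl (by linarith)))] at hp
    rw [thA3_neutral (le_abs.2 (Or.inl (by linarith))) hp,
      thA4_neutral (le_abs.2 (Or.inr (by linarith))) hp]
  all_goals exfalso; linarith

lemma theta4 {p : R4} (hp : p ∈ L) (h : 2 ≤ p.2.1) (h' : p.2.1 ≤ 10) : theta p = thA4 p := by
  unfold theta
  split_ifs with h1 h2 h3 h4
  · exfalso; linarith
  · exfalso; linarith
  · rw [L_iff4 (by linarith) (by linarith), A4_iff (le_abs.2 (Or.inr (by linarith)))] at hp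
    rw [thA3_neutral (le_abs.2 (Or.inl (by linarith))) hp,
      thA4_neutral (le_abs.2 (Or.inr (by linarith))) hp]
  · rfl
  · rw [L_iff4 (by linarith) (by linarith), A4_iff (le_abs.2 (Or.inl (by linarith)))] at hp
    rw [thA5_neutral (by linarith) hp, thA4_neutral (le_abs.2 (Or.inl (by linarith))) hp]

lemma theta5 {p : R4} (hp : p ∈ L) (h : 8 ≤ p.2.1) : theta p = thA5 p := by
  unfold theta
  split_ifs with h1 h2 h3 h4
  · exfalso; linarith
  · exfalso; linarith
  · exfalso; linarith
  · rw [L_iff5 h, A5_iff (by linarith)] at hp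
    rw [thA5_neutral (by linarith) hp, thA4_neutral (le_abs.2 (Or.inl (by linarith))) hp]
  · rfl

/-- the primitive over the slabs -/
def fA2 (p : R4) : ℝ := if -2 * hh < p.2.2.2 ∧ p.2.2.2 < 2 * hh then fP (-6) 0 c1 p else 0
/-- the primitive over the slabs -/
def fA3 (p : R4) : ℝ := if p.2.2.2 < 0 then fP 0 (-2 * hh) c2 p else 0
/-- the primitive of `e^t α` on the surface -/
def fL (p : R4) : ℝ :=
  if p.2.1 ≤ -9 then 0 else if p.2.1 ≤ -3 then fA2 p else if p.2.1 ≤ 3 then fA3 p else 0

lemma fA2_neutral {p : R4} (hn : 2 ≤ |p.2.1 + 6|) (hp : N4 p) : fA2 p = 0 := by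
  have h0 := hh_pos
  have hn' : 2 ≤ |p.2.1 - (-6)| := by rwa [sub_neg_eq_add]
  unfold fA2
  split_ifs with h
  · apply fP_neutral hn'
    rw [neutral hn']
    refine ⟨hp.1, ?_⟩
    rcases hp.2 with h2 | h2 | h2 | h2
    · exfalso; linarith [h.2]
    · left; linarith
    · right; linarith
    · exfalso; linarith [h.1]
  · rfl

lemma fA3_neutral {p : R4} (hn : 2 ≤ |p.2.1|) (hp : N4 p) : fA3 p = 0 := by
  have h0 := hh_pos
  have hn' : 2 ≤ |p.2.1 - 0| := by simpa using hn
  unfold fA3
  split_ifs with h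
  · apply fP_neutral hn'
    rw [neutral hn']
    refine ⟨hp.1, ?_⟩
    rcases hp.2 with h2 | h2 | h2 | h2
    · exfalso; linarith
    · exfalso; linarith
    · left; linarith
    · right; linarith
  · rfl

lemma fL1 {p : R4} (hp : p ∈ L) (h : p.2.1 ≤ -8) : fL p = 0 := by
  unfold fL
  split_ifs with h1 h2 h3
  · rfl
  · rw [L_iff1 h, A1_iff (by linarith)] at hp
    exact fA2_neutral (le_abs.2 (Or.inr (by linarith))) hp
  all_goals exfalso; linarith

lemma fL2 {p : R4} (hp : p ∈ L) (h : -10 ≤ p.2.1) (h' : p.2.1 ≤ -2) : fL p = fA2 p := by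
  unfold fL
  split_ifs with h1 h2 h3
  · rw [L_iff1 (by linarith), A1_iff (by linarith)] at hp
    rw [fA2_neutral (le_abs.2 (Or.inr (by linarith))) hp]
  · rfl
  · rw [L_iff2 h h', A2_iff (le_abs.2 (Or.inl (by linarith)))] at hp
    rw [fA3_neutral (le_abs.2 (Or.inr (by linarith))) hp,
      fA2_neutral (le_abs.2 (Or.inl (by linarith))) hp]
  all_goals exfalso; linarith

lemma fL3 {p : R4} (hp : p ∈ L) (h : -4 ≤ p.2.1) (h' : p.2.1 ≤ 4) : fL p = fA3 p := by
  unfold fL
  split_ifs with h1 h2 h3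
  · exfalso; linarith
  · rw [L_iff3 (by linarith) (by linarith), A3_iff (le_abs.2 (Or.inr (by linarith)))] at hp
    rw [fA3_neutral (le_abs.2 (Or.inr (by linarith))) hp,
      fA2_neutral (le_abs.2 (Or.inl (by linarith))) hp]
  · rfl
  · rw [L_iff3 (by linarith) (by linarith), A3_iff (le_abs.2 (Or.inl (by linarith)))] at hp
    rw [fA3_neutral (le_abs.2 (Or.inl (by linarith))) hp]

lemma fL4 {p : R4} (hp : p ∈ L) (h : 2 ≤ p.2.1) : fL p = 0 := by
  unfold fL
  split_ifs with h1 h2 h3
  · exfalso; linarith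
  · exfalso; linarith
  · rw [L_iff3 (by linarith) (by linarith), A3_iff (le_abs.2 (Or.inl (by linarith)))] at hp
    exact fA3_neutral (le_abs.2 (Or.inl (by linarith))) hp
  · rfl

lemma good_all {p : R4} (hp : p ∈ L) : Good L fL theta p := by
  have h0 := hh_pos
  have xc : Continuous (fun p : R4 => p.2.1) := by fun_prop
  have zc : Continuous (fun p : R4 => p.2.2.2) := by fun_prop
  have zpos : ∀ {q : R4} {j : ℝ} {P : Prof}, q ∈ Pair j (2 * hh) P → 0 < q.2.2.2 := by
    intro q j P h; have := abs_le.1 (pair_z h); linarith [this.1]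
  have zneg : ∀ {q : R4} {j : ℝ} {P : Prof}, q ∈ Pair j (-2 * hh) P → q.2.2.2 < 0 := by
    intro q j P h; have := abs_le.1 (pair_z h); linarith [this.2]
  have zmid : ∀ {q : R4} {j : ℝ} {P : Prof}, q ∈ Pair j 0 P →
      -2 * hh < q.2.2.2 ∧ q.2.2.2 < 2 * hh := by
    intro q j P h; have := abs_le.1 (pair_z h); constructor <;> linarith [this.2, this.1]
  have box : ∀ a b c d : ℝ,
      IsOpen {q : R4 | a < q.2.1 ∧ q.2.1 < b ∧ c < q.2.2.2 ∧ q.2.2.2 < d} := fun a b c d =>
    (isOpen_lt continuous_const xc).inter ((isOpen_lt xc continuous_const).inter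
      ((isOpen_lt continuous_const zc).inter (isOpen_lt zc continuous_const)))
  have zb := (abs_le.1 (L_yz hp).2)
  -- the middle slabs
  have mid : ∀ (j a b : ℝ) (P : Prof) (ff tt : R4 → ℝ), a < p.2.1 → p.2.1 < b →
      (∀ q : R4, a < q.2.1 → q.2.1 < b →
        (q ∈ L ↔ q ∈ Flat (3 * hh) ∪ (Pair j 0 P ∪ Flat (-3 * hh)))) →
      (∀ q : R4, a < q.2.1 → q.2.1 < b → q ∈ L → fL q =
        if -2 * hh < q.2.2.2 ∧ q.2.2.2 < 2 * hh then fP j 0 P q else 0) →
      (∀ q : R4, a < q.2.1 → q.2.1 < b → q ∈ L → theta q =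
        if 2 * hh < q.2.2.2 then ((1 : ℤ) : ℝ) * Real.pi else
        if q.2.2.2 < -2 * hh then ((4 : ℤ) : ℝ) * Real.pi else thP 2 j 0 P q) →
      Good L fL theta p := by
    intro j a b P ff tt ha hb hL hf ht
    rcases (hL p ha hb).1 hp with h | h | h
    · apply Good.congr (box a b (2 * hh) (5 * hh)) ⟨ha, hb, by linarith [h.2], by linarith [h.2]⟩ hp
        _ _ _ (good_flat h 1)
      · rintro q ⟨q1, q2, q3, q4⟩
        rw [hL q q1 q2]
        constructor
        · rintro (h | h | h)
          · exact h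
          · exfalso; linarith [zmid h]
          · exfalso; linarith [h.2]
        · exact fun h => Or.inl h
      · rintro q ⟨q1, q2, q3, q4⟩ hq
        rw [hf q q1 q2 hq, if_neg (by rintro ⟨_, h⟩; linarith)]
      · rintro q ⟨q1, q2, q3, q4⟩ hq
        rw [ht q q1 q2 hq, if_pos q3]
    · apply Good.congr (box a b (-2 * hh) (2 * hh)) ⟨ha, hb, (zmid h).1, (zmid h).2⟩ hp
        _ _ _ (good_pair h 2)
      · rintro q ⟨q1, q2, q3, q4⟩
        rw [hL q q1 q2]
        constructor
        · rintro (h | h | h)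
          · exfalso; linarith [h.2]
          · exact h
          · exfalso; linarith [h.2]
        · exact fun h => Or.inr (Or.inl h)
      · rintro q ⟨q1, q2, q3, q4⟩ hq
        rw [hf q q1 q2 hq, if_pos ⟨q3, q4⟩]
      · rintro q ⟨q1, q2, q3, q4⟩ hq
        rw [ht q q1 q2 hq, if_neg (by linarith), if_neg (by linarith)]
    · apply Good.congr (box a b (-5 * hh) (-2 * hh)) ⟨ha, hb, by linarith [h.2], by linarith [h.2]⟩ hp
        _ _ _ (good_flat h 4)
      · rintro q ⟨q1, q2, q3, q4⟩
        rw [hL q q1 q2]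
        constructor
        · rintro (h | h | h)
          · exfalso; linarith [h.2]
          · exfalso; linarith [zmid h]
          · exact h
        · exact fun h => Or.inr (Or.inr h)
      · rintro q ⟨q1, q2, q3, q4⟩ hq
        rw [hf q q1 q2 hq, if_neg (by rintro ⟨h, _⟩; linarith)]
      · rintro q ⟨q1, q2, q3, q4⟩ hq
        rw [ht q q1 q2 hq, if_neg (by linarith), if_pos q4]
  -- the end slabs
  have ends : ∀ (j a b : ℝ), a < p.2.1 → p.2.1 < b →
      (∀ q : R4, a < q.2.1 → q.2.1 < b →
        (q ∈ L ↔ q ∈ Pair j (2 * hh) Prof.one ∪ Pair j (-2 * hh) Prof.one)) →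
      (∀ q : R4, a < q.2.1 → q.2.1 < b → q ∈ L → fL q = 0) →
      (∀ q : R4, a < q.2.1 → q.2.1 < b → q ∈ L → theta q =
        if 0 < q.2.2.2 then thP 1 j (2 * hh) Prof.one q else thP 3 j (-2 * hh) Prof.one q) →
      Good L fL theta p := by
    intro j a b ha hb hL hf ht
    rcases (hL p ha hb).1 hp with h | h
    · apply Good.congr (box a b 0 (5 * hh)) ⟨ha, hb, zpos h, by linarith [zb.2]⟩ hp
        _ _ _ (good_pair h 1)
      · rintro q ⟨q1, q2, q3, q4⟩
        rw [hL q q1 q2]
        constructor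
        · rintro (h | h)
          · exact h
          · exfalso; linarith [zneg h]
        · exact fun h => Or.inl h
      · rintro q ⟨q1, q2, q3, q4⟩ hq
        rw [hf q q1 q2 hq, fP_one]
      · rintro q ⟨q1, q2, q3, q4⟩ hq
        rw [ht q q1 q2 hq, if_pos q3]
    · apply Good.congr (box a b (-5 * hh) 0) ⟨ha, hb, by linarith [zb.1], zneg h⟩ hp
        _ _ _ (good_pair h 3)
      · rintro q ⟨q1, q2, q3, q4⟩
        rw [hL q q1 q2]
        constructor
        · rintro (h | h)
          · exfalso; linarith [zpos h]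
          · exact h
        · exact fun h => Or.inr h
      · rintro q ⟨q1, q2, q3, q4⟩ hq
        rw [hf q q1 q2 hq, fP_one]
      · rintro q ⟨q1, q2, q3, q4⟩ hq
        rw [ht q q1 q2 hq, if_neg (by linarith)]
  rcases lt_or_ge p.2.1 (-8) with h1 | h1
  · have hx : -12 < p.2.1 := by
      have h3 : p ∈ A1 := (L_iff1 h1.le).1 hp
      have h4 : -12 ≤ p.2.1 := h3.1
      have h5 : 1 ≤ |p.2.1 - (-12)| := by
        rcases h3.2 with h | h
        · exact pair_one_x h
        · exact pair_one_x h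
      rcases le_abs.1 h5 with h6 | h6 <;> linarith
    apply ends (-12) (-12) (-8) hx h1
    · intro q q1 q2
      rw [L_iff1 q2.le]
      exact ⟨fun h => h.2, fun h => ⟨q1.le, h⟩⟩
    · intro q q1 q2 hq
      exact fL1 hq q2.le
    · intro q q1 q2 hq
      exact theta1 hq q2.le
  rcases lt_or_ge p.2.1 (-3) with h2 | h2
  · apply mid (-6) (-10) (-2) c1 fL theta (by linarith) (by linarith)
    · intro q q1 q2
      exact L_iff2 q1.le q2.le
    · intro q q1 q2 hq
      exact fL2 hq q1.le q2.le
    · intro q q1 q2 hq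
      exact theta2 hq q1.le q2.le
  rcases le_or_gt p.2.1 3 with h3 | h3
  · rcases (L_iff3 (by linarith) (by linarith)).1 hp with h | h | h
    · apply Good.congr (box (-4) 4 (2 * hh) (5 * hh)) ⟨by linarith, by linarith, by linarith [h.2],
        by linarith [h.2]⟩ hp _ _ _ (good_flat h 1)
      · rintro q ⟨q1, q2, q3, q4⟩
        rw [L_iff3 q1.le q2.le]
        constructor
        · rintro (h | h | h)
          · exact h
          · exfalso; linarith [h.2]
          · exfalso; linarith [zneg h]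
        · exact fun h => Or.inl h
      · rintro q ⟨q1, q2, q3, q4⟩ hq
        rw [fL3 hq q1.le q2.le, fA3, if_neg (by linarith)]
      · rintro q ⟨q1, q2, q3, q4⟩ hq
        rw [theta3 hq q1.le q2.le, thA3, if_pos q3]
    · apply Good.congr (box (-4) 4 0 (2 * hh)) ⟨by linarith, by linarith, by linarith [h.2],
        by linarith [h.2]⟩ hp _ _ _ (good_flat h 2)
      · rintro q ⟨q1, q2, q3, q4⟩
        rw [L_iff3 q1.le q2.le]
        constructor
        · rintro (h | h | h)
          · exfalso; linarith [h.2]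
          · exact h
          · exfalso; linarith [zneg h]
        · exact fun h => Or.inr (Or.inl h)
      · rintro q ⟨q1, q2, q3, q4⟩ hq
        rw [fL3 hq q1.le q2.le, fA3, if_neg (by linarith)]
      · rintro q ⟨q1, q2, q3, q4⟩ hq
        rw [theta3 hq q1.le q2.le, thA3, if_neg (by linarith), if_pos q3]
    · apply Good.congr (box (-4) 4 (-5 * hh) 0) ⟨by linarith, by linarith, by linarith [zb.1],
        zneg h⟩ hp _ _ _ (good_pair h 3)
      · rintro q ⟨q1, q2, q3, q4⟩
        rw [L_iff3 q1.le q2.le]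
        constructor
        · rintro (h | h | h)
          · exfalso; linarith [h.2]
          · exfalso; linarith [h.2]
          · exact h
        · exact fun h => Or.inr (Or.inr h)
      · rintro q ⟨q1, q2, q3, q4⟩ hq
        rw [fL3 hq q1.le q2.le, fA3, if_pos q4]
      · rintro q ⟨q1, q2, q3, q4⟩ hq
        rw [theta3 hq q1.le q2.le, thA3, if_neg (by linarith), if_neg (by linarith)]
  rcases le_or_gt p.2.1 8 with h4 | h4
  · apply mid 6 2 10 Prof.one fL theta (by linarith) (by linarith)
    · intro q q1 q2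
      exact L_iff4 q1.le q2.le
    · intro q q1 q2 hq
      rw [fL4 hq q1.le, fP_one]; simp
    · intro q q1 q2 hq
      exact theta4 hq q1.le q2.le
  · have hx : p.2.1 < 12 := by
      have h3 : p ∈ A5 := (L_iff5 h4.le).1 hp
      have h6 : p.2.1 ≤ 12 := h3.1
      have h5 : 1 ≤ |p.2.1 - 12| := by
        rcases h3.2 with h | h
        · exact pair_one_x h
        · exact pair_one_x h
      rcases le_abs.1 h5 with h6 | h6 <;> linarith
    apply ends 12 8 12 h4 hx
    · intro q q1 q2
      rw [L_iff5 q1.le]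
      exact ⟨fun h => h.2, fun h => ⟨q2.le, h⟩⟩
    · intro q q1 q2 hq
      exact fL4 hq (by linarith)
    · intro q q1 q2 hq
      exact theta5 hq q1.le

lemma L_surface : IsSmoothSurface L := fun _ hp => (good_all hp).surf

lemma L_lagrangian : ∀ p ∈ L, ∀ u ∈ tangentConeAt ℝ L p, ∀ v ∈ tangentConeAt ℝ L p,
    omega p u v = 0 := fun _ hp => (good_all hp).lag

lemma L_maslov : MaslovZero L :=
  ⟨theta, fun _ hp => (good_all hp).cont, fun _ hp => (good_all hp).phase⟩

/-- the half-length of the non-cylindrical part -/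
def T0 : ℝ := 4 / eps

lemma fL_end {p : R4} (hp : p ∈ L) (ht : 3 ≤ |eps * p.1|) : fL p = 0 := by
  have k1 : c1.k p.1 = 0 := by
    show - (eps * S1 (eps * p.1 + 2)) = 0
    rw [S1_zero]; · simp
    rcases le_abs.1 ht with h | h
    · exact le_abs.2 (Or.inl (by linarith))
    · exact le_abs.2 (Or.inr (by linarith))
  have k2 : c2.k p.1 = 0 := by
    show - (eps * S1 (eps * p.1 + -2)) = 0
    rw [S1_zero]; · simp
    rcases le_abs.1 ht with h | h
    · exact le_abs.2 (Or.inl (by linarith))
    · exact le_abs.2 (Or.inr (by linarith))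
  unfold fL fA2 fA3 fP
  rw [k1, k2]
  simp

lemma L_exact : IsExact T0 L := by
  have he := eps_pos
  refine ⟨fL, fun p hp => (good_all hp).exact', ⟨0, fun p hp ht => fL_end hp ?_⟩,
    ⟨0, fun p hp ht => fL_end hp ?_⟩⟩
  · apply le_abs.2 (Or.inr _)
    have : eps * p.1 < eps * -T0 := mul_lt_mul_of_pos_left ht he
    have h2 : eps * T0 = 4 := by unfold T0; field_simp
    linarith
  · apply le_abs.2 (Or.inl _)
    have : eps * T0 < eps * p.1 := mul_lt_mul_of_pos_left ht he
    have h2 : eps * T0 = 4 := by unfold T0; field_simp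
    linarith

end

end Pool.Agent.N565.LC
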