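import Pool.Agent.N565.LC.Annulus
import Pool.Agent.N565.LC.GoodAll

/-!
# The cylindrical ends
-/

set_option autoImplicit false

namespace Pool.Agent.N565.LC

open Set Filter
open scoped Topology ContDiff

noncomputable section

lemma abs_le_three {z : ℝ} (h : X z ≤ 3) : |z| ≤ 3 := by
  rw [← X_of_one_le (u := 3) (by norm_num)] at h
  have := abs_le_of_X_le h
  rwa [abs_of_pos (by norm_num : (0:ℝ) < 3)] at this

lemma X_le_three {z : ℝ} (h : -3 ≤ z) (h' : z ≤ 3) : X z ≤ 3 := by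
  rw [← X_of_one_le (u := 3) (by norm_num)]
  apply X_le_X
  rw [abs_of_pos (by norm_num : (0:ℝ) < 3)]
  exact abs_le.2 ⟨h, h'⟩

/-- pinched pairs of sheets -/
lemma pair_pinched {j c₀ : ℝ} {P : Prof} {p : R4} (hc : P.c p.1 = 1) (hk : P.k p.1 = 0) :
    p ∈ Pair j c₀ P ↔ ∃ ε z, (ε = 1 ∨ ε = -1) ∧ p.2.1 = j + ε * (1 + X z) ∧
      p.2.2.1 = ε * Y z ∧ p.2.2.2 = c₀ + G z := by
  constructor
  · rintro ⟨z, h1, h2, h3⟩
    unfold R1 at h1
    unfold R2 at h2
    unfold R3' at h3
    simp only [hc, hk] at h1 h2 h3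
    have hX := X_nonneg z
    have hx : 1 ≤ |p.2.1 - j| := by
      by_contra h
      have h4 := X_lt_one (not_le.1 h)
      linarith
    rw [X_of_one_le_abs hx] at h1
    rcases le_abs.1 hx with h4 | h4
    · rw [abs_of_nonneg (by linarith)] at h1
      rw [S_one h4] at h2
      exact ⟨1, z, Or.inl rfl, by linarith, by linarith, by linarith⟩
    · rw [abs_of_nonpos (by linarith)] at h1
      rw [S_neg_one (by linarith)] at h2
      exact ⟨-1, z, Or.inr rfl, by linarith, by linarith, by linarith⟩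
  · rintro ⟨ε, z, hε, h1, h2, h3⟩
    have hX := X_nonneg z
    refine ⟨z, ?_, ?_, ?_⟩
    · unfold R1; simp only [hc]
      rcases hε with rfl | rfl
      · have e : p.2.1 - j = 1 + X z := by linarith
        rw [e, X_of_one_le (by linarith)]; ring
      · have e : p.2.1 - j = -(1 + X z) := by linarith
        rw [e, X_even, X_of_one_le (by linarith)]; ring
    · unfold R2; simp only
      rcases hε with rfl | rfl
      · have e : p.2.1 - j = 1 + X z := by linarith
        rw [e, S_one (by linarith), h2]; ring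
      · have e : p.2.1 - j = -(1 + X z) := by linarith
        rw [e, S_neg_one (by linarith), h2]; ring
    · unfold R3'; simp only [hk, h3]; ring

/-- separated pairs of sheets -/
lemma pair_separated {j c₀ : ℝ} {P : Prof} {p : R4} (hc : P.c p.1 = -1) :
    p ∈ Pair j c₀ P ↔ p.2.2.1 = 0 ∧ (p.2.2.2 = c₀ + hh ∨ p.2.2.2 = c₀ - hh) := by
  have hX := X_nonneg (p.2.1 - j)
  constructor
  · rintro ⟨z, h1, h2, h3⟩
    unfold R1 at h1
    simp only [hc] at h1
    have hz : 1 ≤ |z| := by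
      by_contra h
      have h4 := X_lt_one (not_le.1 h)
      linarith
    unfold R2 at h2
    unfold R3' at h3
    simp only [Y_of_one_le_abs hz] at h2 h3
    refine ⟨by linarith, ?_⟩
    rcases le_abs.1 hz with h4 | h4
    · left; rw [G_of_one_le h4] at h3; linarith
    · right; rw [G_of_le_neg_one (by linarith)] at h3; linarith
  · rintro ⟨h1, h2⟩
    have e2 : (1:ℝ) ≤ X (p.2.1 - j) + 1 := by linarith
    rcases h2 with h2 | h2
    · refine ⟨X (p.2.1 - j) + 1, ?_, ?_, ?_⟩
      · unfold R1; simp only [hc]; rw [X_of_one_le e2]; ring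
      · unfold R2; simp only; rw [Y_of_one_le_abs (e2.trans (le_abs_self _)), h1]; ring
      · unfold R3'; simp only; rw [Y_of_one_le_abs (e2.trans (le_abs_self _)), G_of_one_le e2, h2]; ring
    · have e3 : (1:ℝ) ≤ |-(X (p.2.1 - j) + 1)| := by rw [abs_neg]; exact e2.trans (le_abs_self _)
      refine ⟨-(X (p.2.1 - j) + 1), ?_, ?_, ?_⟩
      · unfold R1; simp only [hc]; rw [X_even, X_of_one_le e2]; ring
      · unfold R2; simp only; rw [Y_of_one_le_abs e3, h1]; ring
      · unfold R3'; simp only; rw [Y_of_one_le_abs e3, G_of_le_neg_one (by linarith), h2]; ring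

lemma one_c (t : ℝ) : Prof.one.c t = 1 := rfl
lemma one_k (t : ℝ) : Prof.one.k t = 0 := rfl

lemma c1_pinched {t : ℝ} (h : eps * t ≤ -3) : c1.c t = 1 ∧ c1.k t = 0 := by
  constructor
  · show - S (eps * t + 2) = 1
    rw [S_neg_one (by linarith)]; ring
  · show - (eps * S1 (eps * t + 2)) = 0
    rw [S1_zero (le_abs.2 (Or.inr (by linarith)))]; ring

lemma c1_separated {t : ℝ} (h : -1 ≤ eps * t) : c1.c t = -1 := by
  show - S (eps * t + 2) = -1
  rw [S_one (by linarith)]

lemma c2_pinched {t : ℝ} (h : eps * t ≤ 1) : c2.c t = 1 ∧ c2.k t = 0 := by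
  constructor
  · show - S (eps * t + -2) = 1
    rw [S_neg_one (by linarith)]; ring
  · show - (eps * S1 (eps * t + -2)) = 0
    rw [S1_zero (le_abs.2 (Or.inr (by linarith)))]; ring

lemma c2_separated {t : ℝ} (h : 3 ≤ eps * t) : c2.c t = -1 := by
  show - S (eps * t + -2) = -1
  rw [S_one (by linarith)]

lemma Win.pt {x y : ℝ → ℝ} {z : ℝ → ℝ → ℝ} {x1 y1 : ℝ → ℝ} {z1 : ℝ → ℝ → ℝ}
    {a j ε c δ v θ : ℝ} (h : Win x y z x1 y1 z1 a j ε c δ θ) (hv : θ = a + δ * v)
    (hδ : δ = 1 ∨ δ = -1) :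
    x θ = j + ε * (1 + X v) ∧ y θ = ε * Y v ∧ z 0 θ = c + G v := by
  have e : θ - a = δ * v := by linarith
  rw [h.hx, h.hy, h.hz, e, Gl_zero]
  rcases hδ with rfl | rfl
  · simp
  · have e2 : (-1:ℝ) * v = -v := by ring
    rw [e2, X_even, Y_odd, G_odd]
    exact ⟨rfl, by ring, by ring⟩

lemma F0_eq (θ : ℝ) : F 0 0 θ = (xm θ, ym θ, zm 0 θ) := by unfold F; simp
lemma F1_eq (θ : ℝ) : F 1 0 θ = (xp θ, yp θ, zp 0 θ) := by unfold F; simp

lemma mem_range_m {q : R3} (θ : ℝ) (h1 : -10 ≤ θ) (h2 : θ ≤ 86) (hx : xm θ = q.1)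
    (hy : ym θ = q.2.1) (hz : zm 0 θ = q.2.2) : q ∈ range γm := by
  refine ⟨θ, ?_⟩
  unfold γm
  rw [Fp_eq0 h1 h2, F0_eq, hx, hy, hz]

lemma mem_range_p {q : R3} (θ : ℝ) (h1 : -10 ≤ θ) (h2 : θ ≤ 86) (hx : xp θ = q.1)
    (hy : yp θ = q.2.1) (hz : zp 0 θ = q.2.2) : q ∈ range γp := by
  refine ⟨θ, ?_⟩
  unfold γp
  rw [Fp_eq0 h1 h2, F1_eq, hx, hy, hz]

/-! ### The bottom -/

lemma bottom_sub {t θ : ℝ} (ht : eps * t ≤ -3) (h1 : -8 ≤ θ) (h2 : θ ≤ 76) :
    ((t, xm θ, ym θ, zm 0 θ) : R4) ∈ L := by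
  obtain ⟨d1, d2⟩ := c1_pinched ht
  obtain ⟨e1, e2⟩ := c2_pinched (t := t) (by linarith)
  have m1 : (1:ℝ) = 1 ∨ (1:ℝ) = -1 := Or.inl rfl
  have m2 : (-1:ℝ) = 1 ∨ (-1:ℝ) = -1 := Or.inr rfl
  have key : ∀ {j c₀ ε a δ : ℝ} {P : Prof}, Wm a j ε c₀ δ θ → (ε = 1 ∨ ε = -1) →
      (δ = 1 ∨ δ = -1) → P.c t = 1 → P.k t = 0 → -3 ≤ θ - a → θ - a ≤ 3 →
      ((t, xm θ, ym θ, zm 0 θ) : R4) ∈ Pair j c₀ P ∧ ∃ v, 0 ≤ X v ∧ X v ≤ 3 ∧
        xm θ = j + ε * (1 + X v) := by
    intro j c₀ ε a δ P w hε hδ hc hk b1 b2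
    obtain ⟨w1, w2, w3⟩ := w.pt (v := δ * (θ - a)) (by rcases hδ with rfl | rfl <;> ring) hδ
    refine ⟨(pair_pinched hc hk).2 ⟨ε, δ * (θ - a), hε, w1, w2, w3⟩, δ * (θ - a), X_nonneg _, ?_, w1⟩
    apply X_le_three
    · rcases hδ with rfl | rfl <;> linarith
    · rcases hδ with rfl | rfl <;> linarith
  rcases le_or_gt θ 8 with s0 | s0
  · rw [xm_top (by linarith), ym_top (by linarith), zm_top (by linarith)]
    rcases le_or_gt θ (-3) with r | r
    · exact (L_iff4 (by simp; linarith) (by simp; linarith)).2 (Or.inl ⟨rfl, rfl⟩)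
    rcases le_or_gt θ 3 with r' | r'
    · exact (L_iff3 (by simp; linarith) (by simp; linarith)).2 (Or.inl ⟨rfl, rfl⟩)
    · exact (L_iff2 (by simp; linarith) (by simp; linarith)).2 (Or.inl ⟨rfl, rfl⟩)
  rcases le_or_gt θ 14 with s1 | s1
  · obtain ⟨k1, v, k2, k3, k4⟩ := key (P := Prof.one) (wm1 s1) m1 m2 rfl rfl (by linarith) (by linarith)
    exact (L_iff1 (by simp only; linarith)).2 ⟨by show -12 ≤ xm θ; linarith, Or.inl k1⟩
  rcases le_or_gt θ 18 with s2 | s2
  · obtain ⟨k1, v, k2, k3, k4⟩ := key (P := c1) (wm2 (by linarith) s2) m2 m2 d1 d2 (by linarith) (by linarith)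
    exact (L_iff2 (by simp only; linarith) (by simp only; linarith)).2 (Or.inr (Or.inl k1))
  rcases le_or_gt θ 22 with s3 | s3
  · obtain ⟨k1, v, k2, k3, k4⟩ := key (P := Prof.one) (wm3 (by linarith) (by linarith)) m1 m2 rfl rfl (by linarith) (by linarith)
    exact (L_iff1 (by simp only; linarith)).2 ⟨by show -12 ≤ xm θ; linarith, Or.inr k1⟩
  rcases le_or_gt θ 26 with s4 | s4
  · have w := wm4 (θ := θ) (by linarith) (by linarith)
    have w1 := w.hx
    have w2 := w.hy
    have w3 := w.hz 0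
    rw [X_of_le_neg_one (by linarith)] at w1
    rw [Y_lo (by linarith)] at w2
    rw [Gl_lo (by linarith)] at w3
    exact (L_iff2 (by simp only; linarith) (by simp only; linarith)).2
      (Or.inr (Or.inr ⟨by simp only; linarith, by simp only; linarith⟩))
  rcases le_or_gt θ 32 with s5 | s5
  · obtain ⟨k1, v, k2, k3, k4⟩ := key (P := c2) (wm4 (by linarith) s5) m2 m1 e1 e2 (by linarith) (by linarith)
    exact (L_iff3 (by simp only; linarith) (by simp only; linarith)).2 (Or.inr (Or.inr k1))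
  rcases le_or_gt θ 36 with s6 | s6
  · obtain ⟨k1, v, k2, k3, k4⟩ := key (P := c1) (wm5 (by linarith) (by linarith)) m1 m1 d1 d2 (by linarith) (by linarith)
    exact (L_iff2 (by simp only; linarith) (by simp only; linarith)).2 (Or.inr (Or.inl k1))
  rcases le_or_gt θ 40 with s7 | s7
  · have w := wm6 (θ := θ) (by linarith) (by linarith)
    have w1 := w.hx
    have w2 := w.hy
    have w3 := w.hz 0
    rw [X_of_le_neg_one (by linarith)] at w1
    rw [Y_lo (by linarith)] at w2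
    rw [Gl_lo (by linarith)] at w3
    exact (L_iff3 (by simp only; linarith) (by simp only; linarith)).2
      (Or.inr (Or.inl ⟨by simp only; linarith, by simp only; linarith⟩))
  rcases le_or_gt θ 46 with s8 | s8
  · obtain ⟨k1, v, k2, k3, k4⟩ := key (P := Prof.one) (wm6 (by linarith) s8) m2 m2 rfl rfl (by linarith) (by linarith)
    exact (L_iff4 (by simp only; linarith) (by simp only; linarith)).2 (Or.inr (Or.inl k1))
  rcases le_or_gt θ 50 with s9 | s9
  · obtain ⟨k1, v, k2, k3, k4⟩ := key (P := c2) (wm7 (by linarith) (by linarith)) m1 m2 e1 e2 (by linarith) (by linarith)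
    exact (L_iff3 (by simp only; linarith) (by simp only; linarith)).2 (Or.inr (Or.inr k1))
  rcases le_or_gt θ 54 with s10 | s10
  · have w := wm8 (θ := θ) (by linarith) (by linarith)
    have w1 := w.hx
    have w2 := w.hy
    have w3 := w.hz 0
    rw [X_of_le_neg_one (by linarith)] at w1
    rw [Y_lo (by linarith)] at w2
    rw [Gl_lo (by linarith)] at w3
    exact (L_iff4 (by simp only; linarith) (by simp only; linarith)).2
      (Or.inr (Or.inr ⟨by simp only; linarith, by simp only; linarith⟩))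
  rcases le_or_gt θ 60 with s11 | s11
  · obtain ⟨k1, v, k2, k3, k4⟩ := key (P := Prof.one) (wm8 (by linarith) s11) m2 m1 rfl rfl (by linarith) (by linarith)
    exact (L_iff5 (by simp only; linarith)).2 ⟨by show xm θ ≤ 12; linarith, Or.inr k1⟩
  rcases le_or_gt θ 64 with s12 | s12
  · obtain ⟨k1, v, k2, k3, k4⟩ := key (P := Prof.one) (wm9 (by linarith) s12) m1 m1 rfl rfl (by linarith) (by linarith)
    exact (L_iff4 (by simp only; linarith) (by simp only; linarith)).2 (Or.inr (Or.inl k1))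
  rcases le_or_gt θ 68 with s13 | s13
  · obtain ⟨k1, v, k2, k3, k4⟩ := key (P := Prof.one) (wm10 (by linarith)) m2 m1 rfl rfl (by linarith) (by linarith)
    exact (L_iff5 (by simp only; linarith)).2 ⟨by show xm θ ≤ 12; linarith, Or.inl k1⟩
  · rw [xm_top' (by linarith), ym_top' (by linarith), zm_top' (by linarith)]
    rcases le_or_gt θ 73 with r | r
    · exact (L_iff4 (by simp; linarith) (by simp; linarith)).2 (Or.inl ⟨rfl, rfl⟩)
    · exact (L_iff3 (by simp; linarith) (by simp; linarith)).2 (Or.inl ⟨rfl, rfl⟩)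

lemma bottom_sup {p : R4} (ht : eps * p.1 ≤ -3) (hp : p ∈ L) : p.2 ∈ range γm := by
  have hX := X_nonneg
  obtain ⟨d1, d2⟩ := c1_pinched ht
  obtain ⟨e1, e2⟩ := c2_pinched (t := p.1) (by linarith)
  obtain ⟨x1, x2⟩ := L_x hp
  have m1 : (1:ℝ) = 1 ∨ (1:ℝ) = -1 := Or.inl rfl
  have m2 : (-1:ℝ) = 1 ∨ (-1:ℝ) = -1 := Or.inr rfl
  have fin : ∀ {a j c₀ ε δ v : ℝ}, p.2.1 = j + ε * (1 + X v) → p.2.2.1 = ε * Y v →
      p.2.2.2 = c₀ + G v → (δ = 1 ∨ δ = -1) → -10 ≤ a + δ * v → a + δ * v ≤ 86 →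
      Wm a j ε c₀ δ (a + δ * v) → p.2 ∈ range γm := by
    intro a j c₀ ε δ v h1 h2 h3 hδ b1 b2 w
    obtain ⟨w1, w2, w3⟩ := w.pt rfl hδ
    exact mem_range_m _ b1 b2 (by rw [w1, h1]) (by rw [w2, h2]) (by rw [w3, h3])
  have top : p.2.2.1 = 0 → p.2.2.2 = 3 * hh → -10 ≤ p.2.1 → p.2.1 ≤ 10 → p.2 ∈ range γm := by
    intro h1 h2 h3 h4
    refine mem_range_m (-p.2.1) (by linarith) (by linarith) ?_ ?_ ?_
    · rw [xm_top (by linarith)]; ring
    · rw [ym_top (by linarith), h1]
    · rw [zm_top (by linarith), h2]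
  rcases le_or_gt p.2.1 (-8) with s1 | s1
  · obtain ⟨-, h | h⟩ := (L_iff1 s1).1 hp
    · obtain ⟨ε, v, hε, h1, h2, h3⟩ := (pair_pinched rfl rfl).1 h
      have hv := hX v
      rcases hε with rfl | rfl
      · have hv3 := abs_le.1 (abs_le_three (z := v) (by linarith))
        exact fin h1 h2 h3 m2 (by linarith) (by linarith) (wm1 (by linarith))
      · exfalso; linarith
    · obtain ⟨ε, v, hε, h1, h2, h3⟩ := (pair_pinched rfl rfl).1 h
      have hv := hX v
      rcases hε with rfl | rfl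
      · have hv3 := abs_le.1 (abs_le_three (z := v) (by linarith))
        exact fin h1 h2 h3 m2 (by linarith) (by linarith) (wm3 (by linarith) (by linarith))
      · exfalso; linarith
  rcases le_or_gt p.2.1 (-4) with s2 | s2
  · rcases (L_iff2 (by linarith) (by linarith)).1 hp with h | h | h
    · exact top h.1 h.2 (by linarith) (by linarith)
    · obtain ⟨ε, v, hε, h1, h2, h3⟩ := (pair_pinched d1 d2).1 h
      have hv := hX v
      have hv3 : X v ≤ 3 := by rcases hε with rfl | rfl <;> linarith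
      have hv4 := abs_le.1 (abs_le_three hv3)
      rcases hε with rfl | rfl
      · exact fin h1 h2 h3 m1 (by linarith) (by linarith) (wm5 (by linarith) (by linarith))
      · exact fin h1 h2 h3 m2 (by linarith) (by linarith) (wm2 (by linarith) (by linarith))
    · have w := wm4 (θ := p.2.1 + 30) (by linarith) (by linarith)
      refine mem_range_m (p.2.1 + 30) (by linarith) (by linarith) ?_ ?_ ?_
      · rw [w.hx, X_of_le_neg_one (by linarith)]; ring
      · rw [w.hy, Y_lo (by linarith), h.1]; ring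
      · rw [w.hz, Gl_lo (by linarith)]; change _ = p.2.2.2; rw [h.2]; ring
  rcases le_or_gt p.2.1 4 with s3 | s3
  · rcases (L_iff3 (by linarith) (by linarith)).1 hp with h | h | h
    · exact top h.1 h.2 (by linarith) (by linarith)
    · have w := wm6 (θ := p.2.1 + 38)
      rcases le_or_gt p.2.1 0 with r | r
      · have w := wm5 (θ := p.2.1 + 38) (by linarith) (by linarith)
        refine mem_range_m (p.2.1 + 38) (by linarith) (by linarith) ?_ ?_ ?_
        · rw [w.hx, X_of_one_le (by linarith)]; ring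
        · rw [w.hy, Y_hi (by linarith), h.1]; ring
        · rw [w.hz, Gl_hi (by linarith)]; change _ = p.2.2.2; rw [h.2]; ring
      · have w := wm6 (θ := p.2.1 + 38) (by linarith) (by linarith)
        refine mem_range_m (p.2.1 + 38) (by linarith) (by linarith) ?_ ?_ ?_
        · rw [w.hx, X_of_le_neg_one (by linarith)]; ring
        · rw [w.hy, Y_lo (by linarith), h.1]; ring
        · rw [w.hz, Gl_lo (by linarith)]; change _ = p.2.2.2; rw [h.2]; ring
    · obtain ⟨ε, v, hε, h1, h2, h3⟩ := (pair_pinched e1 e2).1 h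
      have hv := hX v
      have hv3 : X v ≤ 3 := by rcases hε with rfl | rfl <;> linarith
      have hv4 := abs_le.1 (abs_le_three hv3)
      rcases hε with rfl | rfl
      · exact fin h1 h2 h3 m2 (by linarith) (by linarith) (wm7 (by linarith) (by linarith))
      · exact fin h1 h2 h3 m1 (by linarith) (by linarith) (wm4 (by linarith) (by linarith))
  rcases le_or_gt p.2.1 8 with s4 | s4
  · rcases (L_iff4 (by linarith) (by linarith)).1 hp with h | h | h
    · exact top h.1 h.2 (by linarith) (by linarith)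
    · obtain ⟨ε, v, hε, h1, h2, h3⟩ := (pair_pinched rfl rfl).1 h
      have hv := hX v
      have hv3 : X v ≤ 3 := by rcases hε with rfl | rfl <;> linarith
      have hv4 := abs_le.1 (abs_le_three hv3)
      rcases hε with rfl | rfl
      · exact fin h1 h2 h3 m1 (by linarith) (by linarith) (wm9 (by linarith) (by linarith))
      · exact fin h1 h2 h3 m2 (by linarith) (by linarith) (wm6 (by linarith) (by linarith))
    · have w := wm8 (θ := p.2.1 + 46) (by linarith) (by linarith)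
      refine mem_range_m (p.2.1 + 46) (by linarith) (by linarith) ?_ ?_ ?_
      · rw [w.hx, X_of_le_neg_one (by linarith)]; ring
      · rw [w.hy, Y_lo (by linarith), h.1]; ring
      · rw [w.hz, Gl_lo (by linarith)]; change _ = p.2.2.2; rw [h.2]; ring
  · obtain ⟨-, h | h⟩ := (L_iff5 s4.le).1 hp
    · obtain ⟨ε, v, hε, h1, h2, h3⟩ := (pair_pinched rfl rfl).1 h
      have hv := hX v
      rcases hε with rfl | rfl
      · exfalso; linarith
      · have hv3 := abs_le.1 (abs_le_three (z := v) (by linarith))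
        exact fin h1 h2 h3 m1 (by linarith) (by linarith) (wm10 (by linarith))
    · obtain ⟨ε, v, hε, h1, h2, h3⟩ := (pair_pinched rfl rfl).1 h
      have hv := hX v
      rcases hε with rfl | rfl
      · exfalso; linarith
      · have hv3 := abs_le.1 (abs_le_three (z := v) (by linarith))
        exact fin h1 h2 h3 m1 (by linarith) (by linarith) (wm8 (by linarith) (by linarith))

/-! ### The top -/

lemma level_top {t x : ℝ} (h1 : -10 ≤ x) (h2 : x ≤ 10) : ((t, x, 0, 3 * hh) : R4) ∈ L := by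
  rcases le_or_gt x (-3) with r | r
  · exact (L_iff2 h1 (by simp only; linarith)).2 (Or.inl ⟨rfl, rfl⟩)
  rcases le_or_gt x 3 with r' | r'
  · exact (L_iff3 (by simp only; linarith) (by simp only; linarith)).2 (Or.inl ⟨rfl, rfl⟩)
  · exact (L_iff4 (by simp only; linarith) h2).2 (Or.inl ⟨rfl, rfl⟩)

lemma level_p1 {t x : ℝ} (ht : 3 ≤ eps * t) (h1 : -10 ≤ x) (h2 : x ≤ 4) :
    ((t, x, 0, hh) : R4) ∈ L := by
  rcases le_or_gt x (-3) with r | r
  · exact (L_iff2 h1 (by simp only; linarith)).2 (Or.inr (Or.inl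
      ((pair_separated (c1_separated (t := t) (by linarith))).2 ⟨rfl, Or.inl (by simp only; ring)⟩)))
  · exact (L_iff3 (by simp only; linarith) h2).2 (Or.inr (Or.inl ⟨rfl, rfl⟩))

lemma level_p2 {t x : ℝ} (ht : 3 ≤ eps * t) (h1 : -10 ≤ x) (h2 : x ≤ 4) :
    ((t, x, 0, -hh) : R4) ∈ L := by
  rcases le_or_gt x (-3) with r | r
  · exact (L_iff2 h1 (by simp only; linarith)).2 (Or.inr (Or.inl
      ((pair_separated (c1_separated (t := t) (by linarith))).2 ⟨rfl, Or.inr (by simp only; ring)⟩)))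
  · exact (L_iff3 (by simp only; linarith) h2).2 (Or.inr (Or.inr
      ((pair_separated (c2_separated ht)).2 ⟨rfl, Or.inl (by simp only; ring)⟩)))

lemma level_p3 {t x : ℝ} (ht : 3 ≤ eps * t) (h1 : -10 ≤ x) (h2 : x ≤ 10) :
    ((t, x, 0, -3 * hh) : R4) ∈ L := by
  rcases le_or_gt x (-3) with r | r
  · exact (L_iff2 h1 (by simp only; linarith)).2 (Or.inr (Or.inr ⟨rfl, rfl⟩))
  rcases le_or_gt x 3 with r' | r'
  · exact (L_iff3 (by simp only; linarith) (by simp only; linarith)).2 (Or.inr (Or.inr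
      ((pair_separated (c2_separated ht)).2 ⟨rfl, Or.inr (by simp only; ring)⟩)))
  · exact (L_iff4 (by simp only; linarith) h2).2 (Or.inr (Or.inr ⟨rfl, rfl⟩))

lemma top_sub {t θ : ℝ} (ht : 3 ≤ eps * t) (h1 : -8 ≤ θ) (h2 : θ ≤ 76) :
    ((t, xp θ, yp θ, zp 0 θ) : R4) ∈ L := by
  have m1 : (1:ℝ) = 1 ∨ (1:ℝ) = -1 := Or.inl rfl
  have m2 : (-1:ℝ) = 1 ∨ (-1:ℝ) = -1 := Or.inr rfl
  have key : ∀ {j c₀ ε a δ : ℝ} {P : Prof}, Wp a j ε c₀ δ θ → (ε = 1 ∨ ε = -1) →
      (δ = 1 ∨ δ = -1) → P.c t = 1 → P.k t = 0 → -3 ≤ θ - a → θ - a ≤ 3 →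
      ((t, xp θ, yp θ, zp 0 θ) : R4) ∈ Pair j c₀ P ∧ ∃ v, 0 ≤ X v ∧ X v ≤ 3 ∧
        xp θ = j + ε * (1 + X v) := by
    intro j c₀ ε a δ P w hε hδ hc hk b1 b2
    obtain ⟨w1, w2, w3⟩ := w.pt (v := δ * (θ - a)) (by rcases hδ with rfl | rfl <;> ring) hδ
    refine ⟨(pair_pinched hc hk).2 ⟨ε, δ * (θ - a), hε, w1, w2, w3⟩, δ * (θ - a), X_nonneg _, ?_, w1⟩
    apply X_le_three
    · rcases hδ with rfl | rfl <;> linarith
    · rcases hδ with rfl | rfl <;> linarith
  rcases le_or_gt θ 8 with s0 | s0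
  · rw [xp_top (by linarith), yp_top (by linarith), zp_top (by linarith)]
    exact level_top (by linarith) (by linarith)
  rcases le_or_gt θ 14 with s1 | s1
  · obtain ⟨k1, v, k2, k3, k4⟩ := key (P := Prof.one) (wp1 (by linarith)) m1 m2 rfl rfl (by linarith) (by linarith)
    exact (L_iff1 (by simp only; linarith)).2 ⟨by show -12 ≤ xp θ; linarith, Or.inl k1⟩
  rcases le_or_gt θ 24 with s2 | s2
  · have w := wp2 (θ := θ) (by linarith) (by linarith)
    have w1 := w.hx
    have w2 := w.hy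
    have w3 := w.hz 0
    rw [X_of_le_neg_one (by linarith)] at w1
    rw [Y_lo (by linarith), mul_zero] at w2
    rw [Gl_lo (by linarith)] at w3
    have w3' : zp 0 θ = hh := by linarith
    rw [w2, w3']
    exact level_p1 ht (by linarith) (by linarith)
  rcases le_or_gt θ 30 with s3 | s3
  · obtain ⟨k1, v, k2, k3, k4⟩ := key (P := Prof.one) (wp2 (by linarith) (by linarith)) m2 m2 rfl rfl (by linarith) (by linarith)
    exact (L_iff4 (by simp only; linarith) (by simp only; linarith)).2 (Or.inr (Or.inl k1))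
  rcases le_or_gt θ 40 with s4 | s4
  · have w := wp2 (θ := θ) (by linarith) (by linarith)
    have w1 := w.hx
    have w2 := w.hy
    have w3 := w.hz 0
    rw [X_of_one_le (by linarith)] at w1
    rw [Y_hi (by linarith), mul_zero] at w2
    rw [Gl_hi (by linarith)] at w3
    have w3' : zp 0 θ = -hh := by linarith
    rw [w2, w3']
    exact level_p2 ht (by linarith) (by linarith)
  rcases le_or_gt θ 46 with s5 | s5
  · obtain ⟨k1, v, k2, k3, k4⟩ := key (P := Prof.one) (wp3 (by linarith) (by linarith)) m1 m2 rfl rfl (by linarith) (by linarith)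
    exact (L_iff1 (by simp only; linarith)).2 ⟨by show -12 ≤ xp θ; linarith, Or.inr k1⟩
  rcases le_or_gt θ 54 with s6 | s6
  · obtain ⟨w1, w2, w3, -⟩ := wp_mid (θ := θ) (by linarith) (by linarith)
    rw [w2, w3]
    have b1 := neg_one_le_S (θ - 50)
    have b2 := S_le_one (θ - 50)
    exact level_p3 ht (by linarith) (by linarith)
  rcases le_or_gt θ 60 with s7 | s7
  · obtain ⟨k1, v, k2, k3, k4⟩ := key (P := Prof.one) (wp4 (by linarith) s7) m2 m1 rfl rfl (by linarith) (by linarith)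
    exact (L_iff5 (by simp only; linarith)).2 ⟨by show xp θ ≤ 12; linarith, Or.inr k1⟩
  rcases le_or_gt θ 64 with s8 | s8
  · obtain ⟨k1, v, k2, k3, k4⟩ := key (P := Prof.one) (wp5 (by linarith) s8) m1 m1 rfl rfl (by linarith) (by linarith)
    exact (L_iff4 (by simp only; linarith) (by simp only; linarith)).2 (Or.inr (Or.inl k1))
  rcases le_or_gt θ 68 with s9 | s9
  · obtain ⟨k1, v, k2, k3, k4⟩ := key (P := Prof.one) (wp6 (by linarith)) m2 m1 rfl rfl (by linarith) (by linarith)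
    exact (L_iff5 (by simp only; linarith)).2 ⟨by show xp θ ≤ 12; linarith, Or.inl k1⟩
  · rw [xp_top' (by linarith), yp_top' (by linarith), zp_top' (by linarith)]
    exact level_top (by linarith) (by linarith)

lemma top_sup {p : R4} (ht : 3 ≤ eps * p.1) (hp : p ∈ L) : p.2 ∈ range γp := by
  have hX := X_nonneg
  have hc1 := c1_separated (t := p.1) (by linarith)
  have hc2 := c2_separated (t := p.1) ht
  obtain ⟨x1, x2⟩ := L_x hp
  have m1 : (1:ℝ) = 1 ∨ (1:ℝ) = -1 := Or.inl rfl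
  have m2 : (-1:ℝ) = 1 ∨ (-1:ℝ) = -1 := Or.inr rfl
  have fin : ∀ {a j c₀ ε δ v : ℝ}, p.2.1 = j + ε * (1 + X v) → p.2.2.1 = ε * Y v →
      p.2.2.2 = c₀ + G v → (δ = 1 ∨ δ = -1) → -10 ≤ a + δ * v → a + δ * v ≤ 86 →
      Wp a j ε c₀ δ (a + δ * v) → p.2 ∈ range γp := by
    intro a j c₀ ε δ v h1 h2 h3 hδ b1 b2 w
    obtain ⟨w1, w2, w3⟩ := w.pt rfl hδ
    exact mem_range_p _ b1 b2 (by rw [w1, h1]) (by rw [w2, h2]) (by rw [w3, h3])
  have top : p.2.2.1 = 0 → p.2.2.2 = 3 * hh → -10 ≤ p.2.1 → p.2.1 ≤ 10 → p.2 ∈ range γp := by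
    intro h1 h2 h3 h4
    refine mem_range_p (-p.2.1) (by linarith) (by linarith) ?_ ?_ ?_
    · rw [xp_top (by linarith)]; ring
    · rw [yp_top (by linarith), h1]
    · rw [zp_top (by linarith), h2]
  have lev1 : p.2.2.1 = 0 → p.2.2.2 = hh → -10 ≤ p.2.1 → p.2.1 ≤ 4 → p.2 ∈ range γp := by
    intro h1 h2 h3 h4
    have w := wp2 (θ := p.2.1 + 22) (by linarith) (by linarith)
    refine mem_range_p (p.2.1 + 22) (by linarith) (by linarith) ?_ ?_ ?_
    · rw [w.hx, X_of_le_neg_one (by linarith)]; ring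
    · rw [w.hy, Y_lo (by linarith), h1]; ring
    · rw [w.hz, Gl_lo (by linarith), h2]; ring
  have lev2 : p.2.2.1 = 0 → p.2.2.2 = -hh → -10 ≤ p.2.1 → p.2.1 ≤ 4 → p.2 ∈ range γp := by
    intro h1 h2 h3 h4
    have w := wp2 (θ := 32 - p.2.1) (by linarith) (by linarith)
    refine mem_range_p (32 - p.2.1) (by linarith) (by linarith) ?_ ?_ ?_
    · rw [w.hx, X_of_one_le (by linarith)]; ring
    · rw [w.hy, Y_hi (by linarith), h1]; ring
    · rw [w.hz, Gl_hi (by linarith), h2]; ring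
  have lev3 : p.2.2.1 = 0 → p.2.2.2 = -3 * hh → -10 ≤ p.2.1 → p.2.1 ≤ 10 → p.2 ∈ range γp := by
    intro h1 h2 h3 h4
    have e1 : xp 44 = -10 := by
      rw [(wp_mid (by norm_num) (by norm_num)).1, S_neg_one (by norm_num)]; norm_num
    have e2 : xp 56 = 10 := by
      rw [(wp_mid (by norm_num) (by norm_num)).1, S_one (by norm_num)]; norm_num
    have hiv := intermediate_value_Icc (show (44:ℝ) ≤ 56 by norm_num)
      xp_contDiff.continuous.continuousOn
    rw [e1, e2] at hiv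
    obtain ⟨θ, hθ, hθx⟩ := hiv ⟨h3, h4⟩
    obtain ⟨w1, w2, w3, -⟩ := wp_mid hθ.1 hθ.2
    refine mem_range_p θ (by linarith [hθ.1]) (by linarith [hθ.2]) hθx ?_ ?_
    · rw [w2, h1]
    · rw [w3, h2]
  rcases le_or_gt p.2.1 (-8) with s1 | s1
  · obtain ⟨-, h | h⟩ := (L_iff1 s1).1 hp
    · obtain ⟨ε, v, hε, h1, h2, h3⟩ := (pair_pinched rfl rfl).1 h
      have hv := hX v
      rcases hε with rfl | rfl
      · have hv3 := abs_le.1 (abs_le_three (z := v) (by linarith))
        exact fin h1 h2 h3 m2 (by linarith) (by linarith) (wp1 (by linarith))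
      · exfalso; linarith
    · obtain ⟨ε, v, hε, h1, h2, h3⟩ := (pair_pinched rfl rfl).1 h
      have hv := hX v
      rcases hε with rfl | rfl
      · have hv3 := abs_le.1 (abs_le_three (z := v) (by linarith))
        exact fin h1 h2 h3 m2 (by linarith) (by linarith) (wp3 (by linarith) (by linarith))
      · exfalso; linarith
  rcases le_or_gt p.2.1 (-4) with s2 | s2
  · rcases (L_iff2 (by linarith) (by linarith)).1 hp with h | h | h
    · exact top h.1 h.2 (by linarith) (by linarith)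
    · obtain ⟨h1, h2 | h2⟩ := (pair_separated hc1).1 h
      · exact lev1 h1 (by linarith) (by linarith) (by linarith)
      · exact lev2 h1 (by linarith) (by linarith) (by linarith)
    · exact lev3 h.1 h.2 (by linarith) (by linarith)
  rcases le_or_gt p.2.1 4 with s3 | s3
  · rcases (L_iff3 (by linarith) (by linarith)).1 hp with h | h | h
    · exact top h.1 h.2 (by linarith) (by linarith)
    · exact lev1 h.1 h.2 (by linarith) (by linarith)
    · obtain ⟨h1, h2 | h2⟩ := (pair_separated hc2).1 h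
      · exact lev2 h1 (by linarith) (by linarith) (by linarith)
      · exact lev3 h1 (by linarith) (by linarith) (by linarith)
  rcases le_or_gt p.2.1 8 with s4 | s4
  · rcases (L_iff4 (by linarith) (by linarith)).1 hp with h | h | h
    · exact top h.1 h.2 (by linarith) (by linarith)
    · obtain ⟨ε, v, hε, h1, h2, h3⟩ := (pair_pinched rfl rfl).1 h
      have hv := hX v
      have hv3 : X v ≤ 3 := by rcases hε with rfl | rfl <;> linarith
      have hv4 := abs_le.1 (abs_le_three hv3)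
      rcases hε with rfl | rfl
      · exact fin h1 h2 h3 m1 (by linarith) (by linarith) (wp5 (by linarith) (by linarith))
      · exact fin h1 h2 h3 m2 (by linarith) (by linarith) (wp2 (by linarith) (by linarith))
    · exact lev3 h.1 h.2 (by linarith) (by linarith)
  · obtain ⟨-, h | h⟩ := (L_iff5 s4.le).1 hp
    · obtain ⟨ε, v, hε, h1, h2, h3⟩ := (pair_pinched rfl rfl).1 h
      have hv := hX v
      rcases hε with rfl | rfl
      · exfalso; linarith
      · have hv3 := abs_le.1 (abs_le_three (z := v) (by linarith))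
        exact fin h1 h2 h3 m1 (by linarith) (by linarith) (wp6 (by linarith))
    · obtain ⟨ε, v, hε, h1, h2, h3⟩ := (pair_pinched rfl rfl).1 h
      have hv := hX v
      rcases hε with rfl | rfl
      · exfalso; linarith
      · have hv3 := abs_le.1 (abs_le_three (z := v) (by linarith))
        exact fin h1 h2 h3 m1 (by linarith) (by linarith) (wp4 (by linarith) (by linarith))

/-! ### The slices -/

lemma mem_L_bottom {t : ℝ} {q : R3} (ht : eps * t ≤ -3) : (t, q) ∈ L ↔ q ∈ range γm := by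
  constructor
  · intro h; exact bottom_sup (p := (t, q)) ht h
  · rintro ⟨s, rfl⟩
    obtain ⟨h1, h2⟩ := rd_bd s
    show (t, F 0 0 (rd s)) ∈ L
    rw [F0_eq]
    exact bottom_sub ht (by linarith) (by linarith)

lemma mem_L_top {t : ℝ} {q : R3} (ht : 3 ≤ eps * t) : (t, q) ∈ L ↔ q ∈ range γp := by
  constructor
  · intro h; exact top_sup (p := (t, q)) ht h
  · rintro ⟨s, rfl⟩
    obtain ⟨h1, h2⟩ := rd_bd s
    show (t, F 1 0 (rd s)) ∈ L
    rw [F1_eq]
    exact top_sub ht (by linarith) (by linarith)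

lemma T0_pos : 0 < T0 := by unfold T0; have := eps_pos; positivity
lemma eps_T0 : eps * T0 = 4 := by unfold T0; have := eps_pos; field_simp

lemma eps_lt {t : ℝ} (h : t ≤ -T0) : eps * t ≤ -3 := by
  have h1 : eps * t ≤ eps * -T0 := mul_le_mul_of_nonneg_left h eps_pos.le
  have h2 := eps_T0
  linarith

lemma lt_eps {t : ℝ} (h : T0 ≤ t) : 3 ≤ eps * t := by
  have h1 : eps * T0 ≤ eps * t := mul_le_mul_of_nonneg_left h eps_pos.le
  have h2 := eps_T0
  linarith

lemma L_bottom : L ∩ {p | p.1 < -T0} = {p | p.1 < -T0 ∧ p.2 ∈ range γm} := by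
  ext ⟨t, q⟩
  constructor
  · rintro ⟨h1, h2⟩
    exact ⟨h2, (mem_L_bottom (eps_lt (le_of_lt h2))).1 h1⟩
  · rintro ⟨h1, h2⟩
    exact ⟨(mem_L_bottom (eps_lt (le_of_lt h1))).2 h2, h1⟩

lemma L_top : L ∩ {p | T0 < p.1} = {p | T0 < p.1 ∧ p.2 ∈ range γp} := by
  ext ⟨t, q⟩
  constructor
  · rintro ⟨h1, h2⟩
    exact ⟨h2, (mem_L_top (lt_eps (le_of_lt h2))).1 h1⟩
  · rintro ⟨h1, h2⟩
    exact ⟨(mem_L_top (lt_eps (le_of_lt h1))).2 h2, h1⟩

end

end Pool.Agent.N565.LC
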