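import Mathlib

/-!
# Auxiliary functions

An odd smooth step function `S` (equal to `±1` outside `[-1,1]`), its primitive `X`
(with `X u = |u|` outside `[-1,1]`) and the inverse of `X`.
-/

set_option autoImplicit false

namespace Pool.Agent.N565.LC

open Set MeasureTheory intervalIntegral
open scoped Topology ContDiff

noncomputable section

/-- an even smooth bump function -/
def bmp (u : ℝ) : ℝ := expNegInvGlue (1 - u ^ 2)

lemma bmp_contDiff : ContDiff ℝ ∞ bmp := by
  unfold bmp
  exact (expNegInvGlue.contDiff (n := ⊤)).comp (contDiff_const.sub (contDiff_id.pow 2))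

lemma bmp_continuous : Continuous bmp := bmp_contDiff.continuous

lemma bmp_nonneg (u : ℝ) : 0 ≤ bmp u := expNegInvGlue.nonneg _

lemma bmp_pos {u : ℝ} (hu : |u| < 1) : 0 < bmp u := by
  apply expNegInvGlue.pos_of_pos
  have := (sq_lt_one_iff_abs_lt_one u).2 hu
  linarith

lemma bmp_zero {u : ℝ} (hu : 1 ≤ |u|) : bmp u = 0 := by
  apply expNegInvGlue.zero_of_nonpos
  have := (one_le_sq_iff_one_le_abs u).2 hu
  linarith

lemma bmp_even (u : ℝ) : bmp (-u) = bmp u := by simp [bmp]

/-- the total mass of half of the bump function -/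
def K0 : ℝ := ∫ v in (0:ℝ)..1, bmp v

lemma K0_pos : 0 < K0 := by
  unfold K0
  apply intervalIntegral.intervalIntegral_pos_of_pos_on
  · exact bmp_continuous.intervalIntegrable _ _
  · intro x hx
    exact bmp_pos (by rw [abs_of_pos hx.1]; exact hx.2)
  · norm_num

/-- the derivative of `S` -/
def S1 (u : ℝ) : ℝ := bmp u / K0

/-- the odd smooth step function -/
def S (u : ℝ) : ℝ := ∫ v in (0:ℝ)..u, S1 v

lemma S1_contDiff : ContDiff ℝ ∞ S1 := bmp_contDiff.div_const _

lemma S1_continuous : Continuous S1 := S1_contDiff.continuous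

lemma S1_nonneg (u : ℝ) : 0 ≤ S1 u := div_nonneg (bmp_nonneg u) K0_pos.le

lemma S1_pos {u : ℝ} (hu : |u| < 1) : 0 < S1 u := div_pos (bmp_pos hu) K0_pos

lemma S1_zero {u : ℝ} (hu : 1 ≤ |u|) : S1 u = 0 := by simp [S1, bmp_zero hu]

lemma S1_even (u : ℝ) : S1 (-u) = S1 u := by simp [S1, bmp_even]

lemma hasDerivAt_prim {f : ℝ → ℝ} (hf : Continuous f) (a u : ℝ) :
    HasDerivAt (fun u => ∫ v in a..u, f v) (f u) u :=
  intervalIntegral.integral_hasDerivAt_right (hf.intervalIntegrable _ _)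
    (hf.stronglyMeasurableAtFilter _ _) hf.continuousAt

lemma contDiff_prim {f : ℝ → ℝ} (hf : ContDiff ℝ ∞ f) (a : ℝ) :
    ContDiff ℝ ∞ (fun u => ∫ v in a..u, f v) := by
  rw [contDiff_infty_iff_deriv]
  refine ⟨fun u => (hasDerivAt_prim hf.continuous a u).differentiableAt, ?_⟩
  have : deriv (fun u => ∫ v in a..u, f v) = f := by
    ext u; exact (hasDerivAt_prim hf.continuous a u).deriv
  rw [this]; exact hf

lemma S_hasDerivAt (u : ℝ) : HasDerivAt S (S1 u) u := hasDerivAt_prim S1_continuous 0 u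

lemma S_contDiff : ContDiff ℝ ∞ S := contDiff_prim S1_contDiff 0

lemma S_continuous : Continuous S := S_contDiff.continuous

@[simp] lemma S_zero : S 0 = 0 := by simp [S]

lemma S_odd (u : ℝ) : S (-u) = - S u := by
  unfold S
  have h : (∫ v in (0:ℝ)..(-u), S1 v) = ∫ v in (0:ℝ)..(-u), S1 (-v) := by
    congr 1; ext v; rw [S1_even]
  rw [h, intervalIntegral.integral_comp_neg (f := S1)]
  simp only [neg_neg, neg_zero]
  rw [intervalIntegral.integral_symm]

lemma S_one' : S 1 = 1 := by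
  unfold S S1
  rw [intervalIntegral.integral_div]
  exact div_self K0_pos.ne'

lemma S_one {u : ℝ} (hu : 1 ≤ u) : S u = 1 := by
  have h : S u = S 1 + ∫ v in (1:ℝ)..u, S1 v := by
    unfold S
    rw [intervalIntegral.integral_add_adjacent_intervals] <;>
      exact S1_continuous.intervalIntegrable _ _
  rw [h, S_one']
  have : (∫ v in (1:ℝ)..u, S1 v) = ∫ v in (1:ℝ)..u, (0:ℝ) := by
    apply intervalIntegral.integral_congr
    intro v hv
    rw [uIcc_of_le hu] at hv
    exact S1_zero (hv.1.trans (le_abs_self v))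
  rw [this]; simp

lemma S_neg_one {u : ℝ} (hu : u ≤ -1) : S u = -1 := by
  have := S_odd (-u)
  rw [neg_neg] at this
  rw [this, S_one (by linarith)]

lemma S_monotone : Monotone S := by
  apply monotone_of_deriv_nonneg
  · exact fun u => (S_hasDerivAt u).differentiableAt
  · intro u; rw [(S_hasDerivAt u).deriv]; exact S1_nonneg u

lemma S_strictMonoOn : StrictMonoOn S (Icc (-1) 1) := by
  apply strictMonoOn_of_deriv_pos (convex_Icc _ _) S_continuous.continuousOn
  intro u hu
  rw [interior_Icc] at hu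
  rw [(S_hasDerivAt u).deriv]
  exact S1_pos (abs_lt.2 hu)

lemma S_lt_one {u : ℝ} (hu : u < 1) : S u < 1 := by
  rcases le_or_gt u (-1) with h | h
  · rw [S_neg_one h]; norm_num
  · rw [← S_one']
    exact S_strictMonoOn ⟨h.le, hu.le⟩ ⟨by norm_num, le_rfl⟩ hu

lemma S_pos {u : ℝ} (hu : 0 < u) : 0 < S u := by
  rcases le_or_gt 1 u with h | h
  · rw [S_one h]; norm_num
  · have := S_strictMonoOn (show (0:ℝ) ∈ Icc (-1:ℝ) 1 by constructor <;> norm_num)
      ⟨by linarith, h.le⟩ hu
    simpa using this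

lemma S_nonneg {u : ℝ} (hu : 0 ≤ u) : 0 ≤ S u := by
  rcases hu.eq_or_lt with h | h
  · simp [← h]
  · exact (S_pos h).le

lemma S_neg {u : ℝ} (hu : u < 0) : S u < 0 := by
  have := S_pos (neg_pos.2 hu)
  rw [S_odd] at this; linarith

lemma neg_one_lt_S {u : ℝ} (hu : -1 < u) : -1 < S u := by
  have := S_lt_one (u := -u) (by linarith)
  rw [S_odd] at this; linarith

lemma S_le_one (u : ℝ) : S u ≤ 1 := by
  rcases lt_or_ge u 1 with h | h
  · exact (S_lt_one h).le
  · exact (S_one h).le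

lemma neg_one_le_S (u : ℝ) : -1 ≤ S u := by
  have := S_le_one (-u); rw [S_odd] at this; linarith

lemma abs_S_le (u : ℝ) : |S u| ≤ 1 := abs_le.2 ⟨neg_one_le_S u, S_le_one u⟩

lemma S_eq_zero {u : ℝ} : S u = 0 ↔ u = 0 := by
  constructor
  · intro h
    rcases lt_trichotomy u 0 with h1 | h1 | h1
    · exact absurd h (S_neg h1).ne
    · exact h1
    · exact absurd h (S_pos h1).ne'
  · rintro rfl; simp

/-- the second derivative of `S` -/
def S2 (u : ℝ) : ℝ := deriv S1 u

lemma S1_hasDerivAt (u : ℝ) : HasDerivAt S1 (S2 u) u :=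
  ((S1_contDiff.differentiable (by simp)) u).hasDerivAt

lemma S2_contDiff : ContDiff ℝ ∞ S2 := (contDiff_infty_iff_deriv.1 S1_contDiff).2

lemma S2_zero {u : ℝ} (hu : 1 < |u|) : S2 u = 0 := by
  have h : S1 =ᶠ[𝓝 u] fun _ => (0:ℝ) := by
    filter_upwards [(isOpen_lt continuous_const continuous_abs).mem_nhds hu] with v hv
    exact S1_zero (le_of_lt hv)
  unfold S2
  rw [h.deriv_eq]; simp

lemma exists_bound : ∃ M : ℝ, 1 ≤ M ∧ (∀ u, |S1 u| ≤ M) ∧ ∀ u, |S2 u| ≤ M := by
  obtain ⟨A, hA⟩ := (isCompact_Icc (a := (-1:ℝ)) (b := 1)).exists_bound_of_continuousOn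
    S1_continuous.continuousOn
  obtain ⟨B, hB⟩ := (isCompact_Icc (a := (-1:ℝ)) (b := 1)).exists_bound_of_continuousOn
    S2_contDiff.continuous.continuousOn
  refine ⟨max 1 (max A B), le_max_left _ _, fun u => ?_, fun u => ?_⟩
  · rcases le_or_gt |u| 1 with h | h
    · exact (hA u (abs_le.1 h)).trans ((le_max_left _ _).trans (le_max_right _ _))
    · rw [S1_zero h.le, abs_zero]; exact zero_le_one.trans (le_max_left _ _)
  · rcases le_or_gt |u| 1 with h | h
    · exact (hB u (abs_le.1 h)).trans ((le_max_right _ _).trans (le_max_right _ _))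
    · rw [S2_zero h, abs_zero]; exact zero_le_one.trans (le_max_left _ _)

/-- the primitive of `S` with `X u = |u|` for `|u| ≥ 1` -/
def X (u : ℝ) : ℝ := 1 + ∫ v in (1:ℝ)..u, S v

lemma X_hasDerivAt (u : ℝ) : HasDerivAt X (S u) u :=
  (hasDerivAt_prim S_continuous 1 u).const_add 1

lemma X_contDiff : ContDiff ℝ ∞ X := contDiff_const.add (contDiff_prim S_contDiff 1)

lemma X_continuous : Continuous X := X_contDiff.continuous

lemma X_of_one_le {u : ℝ} (hu : 1 ≤ u) : X u = u := by
  unfold X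
  have : (∫ v in (1:ℝ)..u, S v) = ∫ v in (1:ℝ)..u, (1:ℝ) := by
    apply intervalIntegral.integral_congr
    intro v hv
    rw [uIcc_of_le hu] at hv
    exact S_one hv.1
  rw [this]; simp

lemma X_even (u : ℝ) : X (-u) = X u := by
  have h1 : ∀ v, HasDerivAt (fun u => X (-u) - X u) 0 v := by
    intro v
    have := ((X_hasDerivAt (-v)).comp v (hasDerivAt_neg v)).sub (X_hasDerivAt v)
    convert! this using 1
    rw [S_odd]; ring
  have h2 := is_const_of_deriv_eq_zero (fun v => (h1 v).differentiableAt) (fun v => (h1 v).deriv)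
  have := h2 u 0
  simp at this
  linarith

lemma X_of_le_neg_one {u : ℝ} (hu : u ≤ -1) : X u = -u := by
  rw [← X_even, X_of_one_le (by linarith)]

lemma X_of_one_le_abs {u : ℝ} (hu : 1 ≤ |u|) : X u = |u| := by
  rcases le_abs.1 hu with h | h
  · rw [X_of_one_le h, abs_of_nonneg (by linarith)]
  · rw [X_of_le_neg_one (by linarith), abs_of_nonpos (by linarith)]

lemma X_abs (u : ℝ) : X |u| = X u := by
  rcases abs_choice u with h | h <;> rw [h]
  exact X_even u

lemma X_strictMonoOn : StrictMonoOn X (Ici 0) := by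
  apply strictMonoOn_of_deriv_pos (convex_Ici _) X_continuous.continuousOn
  intro u hu
  rw [interior_Ici] at hu
  rw [(X_hasDerivAt u).deriv]
  exact S_pos hu

lemma X_inj {u v : ℝ} (h : X u = X v) : u = v ∨ u = -v := by
  rw [← X_abs u, ← X_abs v] at h
  have := X_strictMonoOn.injOn (abs_nonneg u) (abs_nonneg v) h
  exact abs_eq_abs.1 this

lemma X_lt_one {u : ℝ} (hu : |u| < 1) : X u < 1 := by
  rw [← X_abs, ← X_of_one_le le_rfl]
  exact X_strictMonoOn (abs_nonneg u) (by norm_num) hu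

lemma X_lt_X {u v : ℝ} (h : |u| < |v|) : X u < X v := by
  rw [← X_abs u, ← X_abs v]
  exact X_strictMonoOn (abs_nonneg u) (abs_nonneg v) h

lemma X_le_X {u v : ℝ} (h : |u| ≤ |v|) : X u ≤ X v := by
  rw [← X_abs u, ← X_abs v]
  exact X_strictMonoOn.monotoneOn (abs_nonneg u) (abs_nonneg v) h

lemma abs_lt_of_X_lt {u v : ℝ} (h : X u < X v) : |u| < |v| := by
  by_contra h'
  exact absurd (X_le_X (not_lt.1 h')) (not_le.2 h)

lemma abs_le_of_X_le {u v : ℝ} (h : X u ≤ X v) : |u| ≤ |v| := by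
  by_contra h'
  exact absurd (X_lt_X (not_le.1 h')) (not_lt.2 h)

lemma X_zero_le (u : ℝ) : X 0 ≤ X u := X_le_X (by simp)

lemma X_zero_nonneg : 0 ≤ X 0 := by
  have h : MonotoneOn (fun u => u - X u) (Ici 0) := by
    apply monotoneOn_of_deriv_nonneg (convex_Ici _)
    · exact (continuous_id.sub X_continuous).continuousOn
    · intro v _
      exact ((hasDerivAt_id v).sub (X_hasDerivAt v)).differentiableAt.differentiableWithinAt
    · intro v _
      have h3 : HasDerivAt (fun u => u - X u) (1 - S v) v := (hasDerivAt_id v).sub (X_hasDerivAt v)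
      rw [h3.deriv]
      linarith [S_le_one v]
  have h4 := h (show (0:ℝ) ∈ Ici (0:ℝ) by simp) (show (1:ℝ) ∈ Ici (0:ℝ) by simp) (by norm_num)
  simp only at h4
  rw [X_of_one_le le_rfl] at h4
  linarith

lemma X_nonneg (u : ℝ) : 0 ≤ X u := X_zero_nonneg.trans (X_zero_le u)

/-- an increasing extension of the restriction of `X` to `[0,∞)` -/
def Xt (u : ℝ) : ℝ := X (max u 0) + min u 0

lemma Xt_continuous : Continuous Xt := by
  unfold Xt
  exact (X_continuous.comp (continuous_id.max continuous_const)).add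
    (continuous_id.min continuous_const)

lemma Xt_of_nonneg {u : ℝ} (hu : 0 ≤ u) : Xt u = X u := by simp [Xt, hu]

lemma Xt_of_nonpos {u : ℝ} (hu : u ≤ 0) : Xt u = X 0 + u := by simp [Xt, hu]

lemma Xt_strictMono : StrictMono Xt := by
  intro u v huv
  rcases le_or_gt 0 u with h | h
  · rw [Xt_of_nonneg h, Xt_of_nonneg (h.trans huv.le)]
    exact X_strictMonoOn h (h.trans huv.le) huv
  · rcases le_or_gt v 0 with h2 | h2
    · rw [Xt_of_nonpos h.le, Xt_of_nonpos h2]; linarith
    · rw [Xt_of_nonpos h.le, Xt_of_nonneg h2.le]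
      linarith [X_zero_le v]

lemma Xt_surjective : Function.Surjective Xt := by
  apply Xt_continuous.surjective
  · apply Filter.tendsto_atTop_mono' Filter.atTop (f₁ := fun u : ℝ => u) _ Filter.tendsto_id
    filter_upwards [Filter.eventually_ge_atTop 1] with u hu
    rw [Xt_of_nonneg (by linarith), X_of_one_le hu]
  · have h : Filter.Tendsto (fun u : ℝ => X 0 + u) Filter.atBot Filter.atBot :=
      Filter.tendsto_atBot_add_const_left _ _ Filter.tendsto_id
    apply h.congr'
    filter_upwards [Filter.eventually_le_atBot 0] with u hu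
    rw [Xt_of_nonpos hu]

/-- the inverse of `X` on `[0, ∞)` -/
def Xinv : ℝ → ℝ := (Xt_strictMono.orderIsoOfSurjective Xt Xt_surjective).symm

lemma Xinv_continuous : Continuous Xinv :=
  (Xt_strictMono.orderIsoOfSurjective Xt Xt_surjective).symm.continuous

lemma Xinv_X {u : ℝ} (hu : 0 ≤ u) : Xinv (X u) = u := by
  rw [← Xt_of_nonneg hu]
  exact (Xt_strictMono.orderIsoOfSurjective Xt Xt_surjective).symm_apply_apply u

lemma Xinv_X' (u : ℝ) : Xinv (X u) = |u| := by
  rw [← X_abs, Xinv_X (abs_nonneg u)]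

lemma Xt_Xinv (y : ℝ) : Xt (Xinv y) = y :=
  (Xt_strictMono.orderIsoOfSurjective Xt Xt_surjective).apply_symm_apply y

lemma Xinv_nonneg {y : ℝ} (hy : X 0 ≤ y) : 0 ≤ Xinv y := by
  by_contra h
  push Not at h
  have := Xt_Xinv y
  rw [Xt_of_nonpos h.le] at this
  linarith

lemma X_Xinv {y : ℝ} (hy : X 0 ≤ y) : X (Xinv y) = y := by
  rw [← Xt_of_nonneg (Xinv_nonneg hy), Xt_Xinv]

end

end Pool.Agent.N565.LC
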