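import Pool.Agent.N565.LC.Good

/-!
# The surface: definition and local properties at all points
-/

set_option autoImplicit false

namespace Pool.Agent.N565.LC

open Set Filter
open scoped Topology ContDiff

noncomputable section

lemma S2_zero' {u : ℝ} (hu : 1 ≤ |u|) : S2 u = 0 := by
  have hcl : IsClosed {v : ℝ | S2 v = 0} := isClosed_eq S2_contDiff.continuous continuous_const
  rcases le_abs.1 hu with h | h
  · have h1 : Ioi (1:ℝ) ⊆ {v : ℝ | S2 v = 0} := fun v hv =>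
      S2_zero (lt_of_lt_of_le hv (le_abs_self v))
    have h2 := hcl.closure_subset_iff.2 h1
    rw [closure_Ioi] at h2
    exact h2 h
  · have h1 : Iio (-1:ℝ) ⊆ {v : ℝ | S2 v = 0} := fun v hv =>
      S2_zero (lt_of_lt_of_le (by linarith [show v < -1 from hv]) (neg_le_abs v))
    have h2 := hcl.closure_subset_iff.2 h1
    rw [closure_Iio] at h2
    exact h2 (by simp; linarith)

lemma Y1_of_one_le_abs {z : ℝ} (hz : 1 ≤ |z|) : Y1 z = 0 := by simp [Y1, S1_zero hz, S2_zero' hz]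

lemma neutral_abs {j c₀ : ℝ} {P : Prof} {p : R4} (h : 2 ≤ |p.2.1 - j|) {z : ℝ}
    (h1 : R1 j P (p, z) = 0) : 1 ≤ |z| := by
  unfold R1 at h1
  simp only at h1
  rw [X_of_one_le_abs (by linarith)] at h1
  have h2 := abs_le.1 (P.c_bd p.1)
  by_contra h3
  have h4 := X_lt_one (not_le.1 h3)
  linarith [h2.2]

lemma neutral {j c₀ : ℝ} {P : Prof} {p : R4} (h : 2 ≤ |p.2.1 - j|) :
    p ∈ Pair j c₀ P ↔ p.2.2.1 = 0 ∧ (p.2.2.2 = c₀ + hh ∨ p.2.2.2 = c₀ - hh) := by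
  constructor
  · rintro ⟨z, h1, h2, h3⟩
    have hz := neutral_abs (c₀ := c₀) h h1
    unfold R2 at h2
    unfold R3' at h3
    simp only [Y_of_one_le_abs hz] at h2 h3
    refine ⟨by linarith, ?_⟩
    rcases le_abs.1 hz with h4 | h4
    · left; rw [G_of_one_le h4] at h3; linarith
    · right; rw [G_of_le_neg_one (by linarith)] at h3; linarith
  · rintro ⟨h1, h2⟩
    have hc := abs_le.1 (P.c_bd p.1)
    have e1 : X (p.2.1 - j) = |p.2.1 - j| := X_of_one_le_abs (by linarith)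
    have e2 : (1:ℝ) ≤ |p.2.1 - j| - P.c p.1 := by linarith [hc.2]
    rcases h2 with h2 | h2
    · refine ⟨|p.2.1 - j| - P.c p.1, ?_, ?_, ?_⟩
      · unfold R1; simp only [e1]; rw [X_of_one_le e2]; ring
      · unfold R2; simp only; rw [Y_of_one_le_abs (e2.trans (le_abs_self _)), h1]; ring
      · unfold R3'; simp only; rw [Y_of_one_le_abs (e2.trans (le_abs_self _)), G_of_one_le e2, h2]; ring
    · have e3 : (1:ℝ) ≤ |-(|p.2.1 - j| - P.c p.1)| := by rw [abs_neg]; exact e2.trans (le_abs_self _)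
      refine ⟨-(|p.2.1 - j| - P.c p.1), ?_, ?_, ?_⟩
      · unfold R1; simp only [e1]; rw [X_even, X_of_one_le e2]; ring
      · unfold R2; simp only; rw [Y_of_one_le_abs e3, h1]; ring
      · unfold R3'; simp only; rw [Y_of_one_le_abs e3, G_of_le_neg_one (by linarith), h2]; ring

lemma neutral_zt {j c₀ : ℝ} {P : Prof} {p : R4} (h : 2 ≤ |p.2.1 - j|) (hp : p ∈ Pair j c₀ P) :
    (p.2.2.2 = c₀ + hh → 1 ≤ zt j c₀ P p) ∧ (p.2.2.2 = c₀ - hh → zt j c₀ P p ≤ -1) := by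
  obtain ⟨h1, h2, h3⟩ := mem_pair_iff.1 hp
  have hz := neutral_abs (c₀ := c₀) h h1
  unfold R3' at h3
  simp only [Y_of_one_le_abs hz] at h3
  have := hh_pos
  rcases le_abs.1 hz with h4 | h4
  · refine ⟨fun _ => h4, fun h5 => ?_⟩
    rw [G_of_one_le h4] at h3; linarith
  · refine ⟨fun h5 => ?_, fun _ => by linarith⟩
    rw [G_of_le_neg_one (by linarith)] at h3; linarith

lemma fP_neutral {j c₀ : ℝ} {P : Prof} {p : R4} (h : 2 ≤ |p.2.1 - j|) (hp : p ∈ Pair j c₀ P) :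
    fP j c₀ P p = 0 := by
  obtain ⟨h1, h2, h3⟩ := mem_pair_iff.1 hp
  have hz := neutral_abs (c₀ := c₀) h h1
  simp [fP, Y_of_one_le_abs hz]

lemma fP_one (j c₀ : ℝ) (p : R4) : fP j c₀ Prof.one p = 0 := by simp [fP, Prof.one]

lemma thP_up {n : ℤ} {j c₀ : ℝ} {P : Prof} {p : R4} (hz : 1 ≤ zt j c₀ P p) :
    thP n j c₀ P p = n * Real.pi := by
  have hz' : 1 ≤ |zt j c₀ P p| := hz.trans (le_abs_self _)
  have h1 : Complex.I * Delta j P p (zt j c₀ P p) = (Real.exp p.1 : ℝ) * (-Complex.I) := by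
    unfold Delta
    rw [S_one hz, Y_of_one_le_abs hz', Y1_of_one_le_abs hz']
    push_cast; ring
  unfold thP
  rw [h1, Complex.arg_real_mul _ (Real.exp_pos _), Complex.arg_neg_I]; ring

lemma thP_down {n : ℤ} {j c₀ : ℝ} {P : Prof} {p : R4} (hz : zt j c₀ P p ≤ -1) :
    thP n j c₀ P p = (n + 1) * Real.pi := by
  have hz' : 1 ≤ |zt j c₀ P p| := le_abs.2 (Or.inr (by linarith))
  have h1 : Complex.I * Delta j P p (zt j c₀ P p) = (Real.exp p.1 : ℝ) * Complex.I := by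
    unfold Delta
    rw [S_neg_one hz, Y_of_one_le_abs hz', Y1_of_one_le_abs hz']
    push_cast; ring
  unfold thP
  rw [h1, Complex.arg_real_mul _ (Real.exp_pos _), Complex.arg_I]; ring

lemma pair_z {j c₀ : ℝ} {P : Prof} {p : R4} (hp : p ∈ Pair j c₀ P) :
    |p.2.2.2 - c₀| ≤ 3 / 2 * hh := by
  obtain ⟨z, h1, h2, h3⟩ := hp
  unfold R3' at h3; simp only at h3
  have e1 : p.2.2.2 - c₀ = G z - Y z * P.k p.1 := by linarith
  rw [e1]
  refine (abs_sub _ _).trans ?_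
  have e2 : |Y z * P.k p.1| ≤ (eta * M) * (eps * M) := by
    rw [abs_mul]
    exact mul_le_mul (abs_Y_le z) (P.k_bd _) (abs_nonneg _) (mul_nonneg eta_pos.le M_pos.le)
  have e3 : (eta * M) * (eps * M) = hh / 2 := by
    have := epsM.1
    unfold hh
    calc (eta * M) * (eps * M) = eta * (eps * M ^ 2) := by ring
      _ = eta / 3 / 2 := by rw [this]; ring
  have e4 := abs_G_le z
  linarith

lemma pair_y {j c₀ : ℝ} {P : Prof} {p : R4} (hp : p ∈ Pair j c₀ P) : |p.2.2.1| ≤ 1 := by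
  obtain ⟨z, h1, h2, h3⟩ := hp
  unfold R2 at h2; simp only at h2
  have e1 : p.2.2.1 = Y z * S (p.2.1 - j) := by linarith
  rw [e1, abs_mul]
  have e2 := abs_Y_le z
  have e3 := abs_S_le (p.2.1 - j)
  have e4 := etaM.1
  calc |Y z| * |S (p.2.1 - j)| ≤ (1/4) * 1 :=
        mul_le_mul (e2.trans e4) e3 (abs_nonneg _) (by norm_num)
    _ ≤ 1 := by norm_num

lemma pair_one_x {j c₀ : ℝ} {p : R4} (hp : p ∈ Pair j c₀ Prof.one) : 1 ≤ |p.2.1 - j| := by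
  obtain ⟨z, h1, h2, h3⟩ := hp
  unfold R1 Prof.one at h1; simp only at h1
  by_contra h
  have h4 := X_lt_one (not_le.1 h)
  have h5 := X_nonneg z
  linarith

lemma pair_closed (j c₀ : ℝ) (P : Prof) : IsClosed (Pair j c₀ P) := by
  set w : R4 → ℝ := fun p => Xinv (X (p.2.1 - j) - P.c p.1) with hw
  have a1 : Continuous (fun p : R4 => X (p.2.1 - j) - P.c p.1) :=
    (X_continuous.comp (by fun_prop)).sub (P.cc.continuous.comp continuous_fst)
  have hwc : Continuous w := Xinv_continuous.comp a1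
  have e : Pair j c₀ P = {p | X 0 ≤ X (p.2.1 - j) - P.c p.1} ∩
      (({p | R2 j (p, w p) = 0} ∩ {p | R3' c₀ P (p, w p) = 0}) ∪
       ({p | R2 j (p, - w p) = 0} ∩ {p | R3' c₀ P (p, - w p) = 0})) := by
    ext p
    constructor
    · rintro ⟨z, h1, h2, h3⟩
      have h4 : X (p.2.1 - j) - P.c p.1 = X z := by unfold R1 at h1; simp only at h1; linarith
      refine ⟨by simp only [mem_ofPred_eq]; rw [h4]; exact X_zero_le z, ?_⟩
      have h5 : w p = |z| := by simp only [hw]; rw [h4, Xinv_X']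
      rcases abs_choice z with h6 | h6
      · left
        simp only [mem_inter_iff, mem_ofPred_eq, h5, h6]
        exact ⟨h2, h3⟩
      · right
        simp only [mem_inter_iff, mem_ofPred_eq, h5, h6, neg_neg]
        exact ⟨h2, h3⟩
    · rintro ⟨h1, h2⟩
      simp only [mem_ofPred_eq] at h1
      have h3 : X (w p) = X (p.2.1 - j) - P.c p.1 := X_Xinv h1
      rcases h2 with ⟨h4, h5⟩ | ⟨h4, h5⟩
      · exact ⟨w p, by unfold R1; simp only; rw [h3]; ring, h4, h5⟩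
      · exact ⟨- w p, by unfold R1; simp only; rw [X_even, h3]; ring, h4, h5⟩
  rw [e]
  have r2 := (R2_contDiff j).continuous
  have r3 := (R3_contDiff c₀ P).continuous
  refine (isClosed_le continuous_const a1).inter (((?_ : IsClosed _).inter ?_).union
    ((?_ : IsClosed _).inter ?_))
  · exact isClosed_eq (r2.comp (continuous_id.prodMk hwc)) continuous_const
  · exact isClosed_eq (r3.comp (continuous_id.prodMk hwc)) continuous_const
  · exact isClosed_eq (r2.comp (continuous_id.prodMk hwc.neg)) continuous_const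
  · exact isClosed_eq (r3.comp (continuous_id.prodMk hwc.neg)) continuous_const

/-! ### The surface -/

/-- the time profiles of the two saddles -/
def c1 : Prof := Prof.dec 2
/-- the time profiles of the two saddles -/
def c2 : Prof := Prof.dec (-2)

/-- the surface over the five slabs -/
def A1 : Set R4 := {p | -12 ≤ p.2.1} ∩ (Pair (-12) (2 * hh) Prof.one ∪ Pair (-12) (-2 * hh) Prof.one)
/-- the surface over the five slabs -/
def A2 : Set R4 := Flat (3 * hh) ∪ (Pair (-6) 0 c1 ∪ Flat (-3 * hh))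
/-- the surface over the five slabs -/
def A3 : Set R4 := Flat (3 * hh) ∪ (Flat hh ∪ Pair 0 (-2 * hh) c2)
/-- the surface over the five slabs -/
def A4 : Set R4 := Flat (3 * hh) ∪ (Pair 6 0 Prof.one ∪ Flat (-3 * hh))
/-- the surface over the five slabs -/
def A5 : Set R4 := {p | p.2.1 ≤ 12} ∩ (Pair 12 (2 * hh) Prof.one ∪ Pair 12 (-2 * hh) Prof.one)

/-- the surface -/
def L : Set R4 := ({p | p.2.1 ≤ -9} ∩ A1) ∪ (({p | -9 ≤ p.2.1} ∩ {p | p.2.1 ≤ -3} ∩ A2) ∪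
  (({p | -3 ≤ p.2.1} ∩ {p | p.2.1 ≤ 3} ∩ A3) ∪ (({p | 3 ≤ p.2.1} ∩ {p | p.2.1 ≤ 9} ∩ A4) ∪
  ({p | 9 ≤ p.2.1} ∩ A5))))

/-- the four sheets over the neutral zones -/
def N4 (p : R4) : Prop :=
  p.2.2.1 = 0 ∧ (p.2.2.2 = 3 * hh ∨ p.2.2.2 = hh ∨ p.2.2.2 = - hh ∨ p.2.2.2 = -3 * hh)

lemma A1_iff {p : R4} (h : -10 ≤ p.2.1) : p ∈ A1 ↔ N4 p := by
  have hn : 2 ≤ |p.2.1 - (-12)| := le_abs.2 (Or.inl (by linarith))
  simp only [A1, mem_inter_iff, mem_ofPred_eq, mem_union, neutral hn, N4]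
  constructor
  · rintro ⟨-, ⟨h1, h2 | h2⟩ | ⟨h1, h2 | h2⟩⟩
    · exact ⟨h1, Or.inl (by linarith)⟩
    · exact ⟨h1, Or.inr (Or.inl (by linarith))⟩
    · exact ⟨h1, Or.inr (Or.inr (Or.inl (by linarith)))⟩
    · exact ⟨h1, Or.inr (Or.inr (Or.inr (by linarith)))⟩
  · rintro ⟨h1, h2 | h2 | h2 | h2⟩
    · exact ⟨by linarith, Or.inl ⟨h1, Or.inl (by linarith)⟩⟩
    · exact ⟨by linarith, Or.inl ⟨h1, Or.inr (by linarith)⟩⟩
    · exact ⟨by linarith, Or.inr ⟨h1, Or.inl (by linarith)⟩⟩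
    · exact ⟨by linarith, Or.inr ⟨h1, Or.inr (by linarith)⟩⟩

lemma A5_iff {p : R4} (h : p.2.1 ≤ 10) : p ∈ A5 ↔ N4 p := by
  have hn : 2 ≤ |p.2.1 - 12| := le_abs.2 (Or.inr (by linarith))
  simp only [A5, mem_inter_iff, mem_ofPred_eq, mem_union, neutral hn, N4]
  constructor
  · rintro ⟨-, ⟨h1, h2 | h2⟩ | ⟨h1, h2 | h2⟩⟩
    · exact ⟨h1, Or.inl (by linarith)⟩
    · exact ⟨h1, Or.inr (Or.inl (by linarith))⟩
    · exact ⟨h1, Or.inr (Or.inr (Or.inl (by linarith)))⟩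
    · exact ⟨h1, Or.inr (Or.inr (Or.inr (by linarith)))⟩
  · rintro ⟨h1, h2 | h2 | h2 | h2⟩
    · exact ⟨by linarith, Or.inl ⟨h1, Or.inl (by linarith)⟩⟩
    · exact ⟨by linarith, Or.inl ⟨h1, Or.inr (by linarith)⟩⟩
    · exact ⟨by linarith, Or.inr ⟨h1, Or.inl (by linarith)⟩⟩
    · exact ⟨by linarith, Or.inr ⟨h1, Or.inr (by linarith)⟩⟩

lemma mid_iff {P : Prof} {j : ℝ} {p : R4} (hn : 2 ≤ |p.2.1 - j|) :
    p ∈ Flat (3 * hh) ∪ (Pair j 0 P ∪ Flat (-3 * hh)) ↔ N4 p := by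
  simp only [mem_union, neutral hn, N4, Flat, mem_ofPred_eq]
  constructor
  · rintro (⟨h1, h2⟩ | ⟨h1, h2 | h2⟩ | ⟨h1, h2⟩)
    · exact ⟨h1, Or.inl (by linarith)⟩
    · exact ⟨h1, Or.inr (Or.inl (by linarith))⟩
    · exact ⟨h1, Or.inr (Or.inr (Or.inl (by linarith)))⟩
    · exact ⟨h1, Or.inr (Or.inr (Or.inr (by linarith)))⟩
  · rintro ⟨h1, h2 | h2 | h2 | h2⟩
    · exact Or.inl ⟨h1, h2⟩
    · exact Or.inr (Or.inl ⟨h1, Or.inl (by linarith)⟩)
    · exact Or.inr (Or.inl ⟨h1, Or.inr (by linarith)⟩)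
    · exact Or.inr (Or.inr ⟨h1, h2⟩)

lemma A3_iff {p : R4} (hn : 2 ≤ |p.2.1|) : p ∈ A3 ↔ N4 p := by
  have hn' : 2 ≤ |p.2.1 - 0| := by simpa using hn
  simp only [A3, mem_union, neutral hn', N4, Flat, mem_ofPred_eq]
  constructor
  · rintro (⟨h1, h2⟩ | ⟨h1, h2⟩ | ⟨h1, h2 | h2⟩)
    · exact ⟨h1, Or.inl (by linarith)⟩
    · exact ⟨h1, Or.inr (Or.inl (by linarith))⟩
    · exact ⟨h1, Or.inr (Or.inr (Or.inl (by linarith)))⟩
    · exact ⟨h1, Or.inr (Or.inr (Or.inr (by linarith)))⟩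
  · rintro ⟨h1, h2 | h2 | h2 | h2⟩
    · exact Or.inl ⟨h1, h2⟩
    · exact Or.inr (Or.inl ⟨h1, h2⟩)
    · exact Or.inr (Or.inr ⟨h1, Or.inl (by linarith)⟩)
    · exact Or.inr (Or.inr ⟨h1, Or.inr (by linarith)⟩)

lemma A2_iff {p : R4} (hn : 2 ≤ |p.2.1 + 6|) : p ∈ A2 ↔ N4 p :=
  mid_iff (j := -6) (by rwa [sub_neg_eq_add])

lemma A4_iff {p : R4} (hn : 2 ≤ |p.2.1 - 6|) : p ∈ A4 ↔ N4 p := mid_iff hn

lemma L_iff1 {p : R4} (h : p.2.1 ≤ -8) : p ∈ L ↔ p ∈ A1 := by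
  simp only [L, mem_union, mem_inter_iff, mem_ofPred_eq]
  constructor
  · rintro (⟨_, h1⟩ | ⟨⟨h2, _⟩, h1⟩ | ⟨⟨h2, _⟩, _⟩ | ⟨⟨h2, _⟩, _⟩ | ⟨h2, _⟩)
    · exact h1
    · rw [A2_iff (le_abs.2 (Or.inr (by linarith)))] at h1
      rwa [A1_iff (by linarith)]
    all_goals exfalso; linarith
  · intro h1
    rcases le_total p.2.1 (-9) with h3 | h3
    · exact Or.inl ⟨h3, h1⟩
    · rw [A1_iff (by linarith)] at h1
      exact Or.inr (Or.inl ⟨⟨h3, by linarith⟩, (A2_iff (le_abs.2 (Or.inr (by linarith)))).2 h1⟩)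

lemma L_iff2 {p : R4} (h : -10 ≤ p.2.1) (h' : p.2.1 ≤ -2) : p ∈ L ↔ p ∈ A2 := by
  simp only [L, mem_union, mem_inter_iff, mem_ofPred_eq]
  constructor
  · rintro (⟨h2, h1⟩ | ⟨⟨h2, _⟩, h1⟩ | ⟨⟨h2, _⟩, h1⟩ | ⟨⟨h2, _⟩, _⟩ | ⟨h2, _⟩)
    · rw [A1_iff (by linarith)] at h1
      rwa [A2_iff (le_abs.2 (Or.inr (by linarith)))]
    · exact h1
    · rw [A3_iff (le_abs.2 (Or.inr (by linarith)))] at h1
      rwa [A2_iff (le_abs.2 (Or.inl (by linarith)))]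
    all_goals exfalso; linarith
  · intro h1
    rcases le_total p.2.1 (-9) with h3 | h3
    · rw [A2_iff (le_abs.2 (Or.inr (by linarith)))] at h1
      exact Or.inl ⟨h3, (A1_iff (by linarith)).2 h1⟩
    · rcases le_total p.2.1 (-3) with h4 | h4
      · exact Or.inr (Or.inl ⟨⟨h3, h4⟩, h1⟩)
      · rw [A2_iff (le_abs.2 (Or.inl (by linarith)))] at h1
        exact Or.inr (Or.inr (Or.inl ⟨⟨h4, by linarith⟩, (A3_iff (le_abs.2 (Or.inr (by linarith)))).2 h1⟩))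

lemma L_iff3 {p : R4} (h : -4 ≤ p.2.1) (h' : p.2.1 ≤ 4) : p ∈ L ↔ p ∈ A3 := by
  simp only [L, mem_union, mem_inter_iff, mem_ofPred_eq]
  constructor
  · rintro (⟨h2, h1⟩ | ⟨⟨h2, h3⟩, h1⟩ | ⟨⟨h2, _⟩, h1⟩ | ⟨⟨h2, _⟩, h1⟩ | ⟨h2, _⟩)
    · exfalso; linarith
    · rw [A2_iff (le_abs.2 (Or.inl (by linarith)))] at h1
      rwa [A3_iff (le_abs.2 (Or.inr (by linarith)))]
    · exact h1
    · rw [A4_iff (le_abs.2 (Or.inr (by linarith)))] at h1
      rwa [A3_iff (le_abs.2 (Or.inl (by linarith)))]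
    · exfalso; linarith
  · intro h1
    rcases le_total p.2.1 (-3) with h3 | h3
    · rw [A3_iff (le_abs.2 (Or.inr (by linarith)))] at h1
      exact Or.inr (Or.inl ⟨⟨by linarith, h3⟩, (A2_iff (le_abs.2 (Or.inl (by linarith)))).2 h1⟩)
    · rcases le_total p.2.1 3 with h4 | h4
      · exact Or.inr (Or.inr (Or.inl ⟨⟨h3, h4⟩, h1⟩))
      · rw [A3_iff (le_abs.2 (Or.inl (by linarith)))] at h1
        exact Or.inr (Or.inr (Or.inr (Or.inl
          ⟨⟨h4, by linarith⟩, (A4_iff (le_abs.2 (Or.inr (by linarith)))).2 h1⟩)))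

lemma L_iff4 {p : R4} (h : 2 ≤ p.2.1) (h' : p.2.1 ≤ 10) : p ∈ L ↔ p ∈ A4 := by
  simp only [L, mem_union, mem_inter_iff, mem_ofPred_eq]
  constructor
  · rintro (⟨h2, h1⟩ | ⟨⟨h2, h3⟩, h1⟩ | ⟨⟨h2, h3⟩, h1⟩ | ⟨⟨h2, _⟩, h1⟩ | ⟨h2, h1⟩)
    · exfalso; linarith
    · exfalso; linarith
    · rw [A3_iff (le_abs.2 (Or.inl (by linarith)))] at h1
      rwa [A4_iff (le_abs.2 (Or.inr (by linarith)))]
    · exact h1
    · rw [A5_iff (by linarith)] at h1
      rwa [A4_iff (le_abs.2 (Or.inl (by linarith)))]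
  · intro h1
    rcases le_total p.2.1 3 with h3 | h3
    · rw [A4_iff (le_abs.2 (Or.inr (by linarith)))] at h1
      exact Or.inr (Or.inr (Or.inl ⟨⟨by linarith, h3⟩, (A3_iff (le_abs.2 (Or.inl (by linarith)))).2 h1⟩))
    · rcases le_total p.2.1 9 with h4 | h4
      · exact Or.inr (Or.inr (Or.inr (Or.inl ⟨⟨h3, h4⟩, h1⟩)))
      · rw [A4_iff (le_abs.2 (Or.inl (by linarith)))] at h1
        exact Or.inr (Or.inr (Or.inr (Or.inr ⟨h4, (A5_iff (by linarith)).2 h1⟩)))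

lemma L_iff5 {p : R4} (h : 8 ≤ p.2.1) : p ∈ L ↔ p ∈ A5 := by
  simp only [L, mem_union, mem_inter_iff, mem_ofPred_eq]
  constructor
  · rintro (⟨h2, h1⟩ | ⟨⟨h2, h3⟩, h1⟩ | ⟨⟨h2, h3⟩, h1⟩ | ⟨⟨h2, _⟩, h1⟩ | ⟨h2, h1⟩)
    · exfalso; linarith
    · exfalso; linarith
    · exfalso; linarith
    · rw [A4_iff (le_abs.2 (Or.inl (by linarith)))] at h1
      rwa [A5_iff (by linarith)]
    · exact h1
  · intro h1
    rcases le_total p.2.1 9 with h4 | h4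
    · rw [A5_iff (by linarith)] at h1
      exact Or.inr (Or.inr (Or.inr (Or.inl
        ⟨⟨by linarith, h4⟩, (A4_iff (le_abs.2 (Or.inl (by linarith)))).2 h1⟩)))
    · exact Or.inr (Or.inr (Or.inr (Or.inr ⟨h4, h1⟩)))

lemma L_closed : IsClosed L := by
  have x1 : Continuous (fun p : R4 => p.2.1) := by fun_prop
  have hle : ∀ a : ℝ, IsClosed {p : R4 | p.2.1 ≤ a} := fun a => isClosed_le x1 continuous_const
  have hge : ∀ a : ℝ, IsClosed {p : R4 | a ≤ p.2.1} := fun a => isClosed_le continuous_const x1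
  have p1 := pair_closed
  have f1 := flat_closed
  unfold L A1 A2 A3 A4 A5
  refine ((hle _).inter ((hge _).inter ((p1 _ _ _).union (p1 _ _ _)))).union
    ((((hge _).inter (hle _)).inter ((f1 _).union ((p1 _ _ _).union (f1 _)))).union
    ((((hge _).inter (hle _)).inter ((f1 _).union ((f1 _).union (p1 _ _ _)))).union
    ((((hge _).inter (hle _)).inter ((f1 _).union ((p1 _ _ _).union (f1 _)))).union
    ((hge _).inter ((hle _).inter ((p1 _ _ _).union (p1 _ _ _)))))))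

lemma L_x {p : R4} (hp : p ∈ L) : -12 ≤ p.2.1 ∧ p.2.1 ≤ 12 := by
  rcases le_total p.2.1 (-8) with h | h
  · rw [L_iff1 h] at hp
    exact ⟨hp.1, by linarith⟩
  · rcases le_total 8 p.2.1 with h' | h'
    · rw [L_iff5 h'] at hp
      exact ⟨by linarith, hp.1⟩
    · constructor <;> linarith

lemma L_yz {p : R4} (hp : p ∈ L) : |p.2.2.1| ≤ 1 ∧ |p.2.2.2| ≤ 4 * hh := by
  have h0 := hh_pos
  have key : ∀ (j c₀ : ℝ) (P : Prof), |c₀| ≤ 2 * hh → p ∈ Pair j c₀ P →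
      |p.2.2.1| ≤ 1 ∧ |p.2.2.2| ≤ 4 * hh := by
    intro j c₀ P hc h
    refine ⟨pair_y h, ?_⟩
    have h1 := pair_z h
    have h2 : p.2.2.2 = (p.2.2.2 - c₀) + c₀ := by ring
    rw [h2]
    refine (abs_add_le _ _).trans ?_
    linarith
  have key2 : ∀ c, |c| ≤ 3 * hh → p ∈ Flat c → |p.2.2.1| ≤ 1 ∧ |p.2.2.2| ≤ 4 * hh := by
    intro c hc h
    rw [h.1, h.2]
    simp; linarith
  have a0 : |(0:ℝ)| ≤ 2 * hh := by simp; linarith
  have a1 : |2 * hh| ≤ 2 * hh := by rw [abs_of_pos (by linarith)]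
  have a2 : |-2 * hh| ≤ 2 * hh := by rw [abs_of_neg (by linarith)]; linarith
  have a3 : |3 * hh| ≤ 3 * hh := by rw [abs_of_pos (by linarith)]
  have a4 : |-3 * hh| ≤ 3 * hh := by rw [abs_of_neg (by linarith)]; linarith
  have a5 : |hh| ≤ 3 * hh := by rw [abs_of_pos (by linarith)]; linarith
  rcases hp with ⟨_, _, h | h⟩ | ⟨_, h | h | h⟩ | ⟨_, h | h | h⟩ | ⟨_, h | h | h⟩ | ⟨_, _, h | h⟩
  · exact key _ _ _ a1 h
  · exact key _ _ _ a2 h
  · exact key2 _ a3 h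
  · exact key _ _ _ a0 h
  · exact key2 _ a4 h
  · exact key2 _ a3 h
  · exact key2 _ a5 h
  · exact key _ _ _ a2 h
  · exact key2 _ a3 h
  · exact key _ _ _ a0 h
  · exact key2 _ a4 h
  · exact key _ _ _ a1 h
  · exact key _ _ _ a2 h

lemma L_compact (T : ℝ) : IsCompact (L ∩ {p | -T ≤ p.1 ∧ p.1 ≤ T}) := by
  have hK : IsCompact ((Icc (-T) T) ×ˢ ((Icc (-12:ℝ) 12) ×ˢ ((Icc (-1:ℝ) 1) ×ˢ
      (Icc (-(4 * hh)) (4 * hh)))) : Set R4) :=
    isCompact_Icc.prod (isCompact_Icc.prod (isCompact_Icc.prod isCompact_Icc))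
  apply hK.of_isClosed_subset
  · apply L_closed.inter
    exact (isClosed_le continuous_const continuous_fst).inter
      (isClosed_le continuous_fst continuous_const)
  · rintro p ⟨hp, ht⟩
    obtain ⟨h1, h2⟩ := L_x hp
    obtain ⟨h3, h4⟩ := L_yz hp
    exact ⟨ht, ⟨h1, h2⟩, abs_le.1 h3, abs_le.1 h4⟩

end

end Pool.Agent.N565.LC
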