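import Pool.Agent.N565.LC.Chart

/-!
# Local properties: Lagrangian, exact, graded
-/

set_option autoImplicit false

namespace Pool.Agent.N565.LC

open Set Filter
open scoped Topology ContDiff

noncomputable section

/-- the local properties at the point `p` -/
structure Good (L : Set R4) (f θ : R4 → ℝ) (p : R4) : Prop where
  surf : ∃ (U : Set R4) (g : R4 → ℝ × ℝ), IsOpen U ∧ p ∈ U ∧ ContDiffOn ℝ ∞ g U ∧
    Function.Surjective (fderiv ℝ g p) ∧ ∀ q ∈ U, q ∈ L ↔ g q = 0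
  lag : ∀ u ∈ tangentConeAt ℝ L p, ∀ v ∈ tangentConeAt ℝ L p, omega p u v = 0
  exact' : HasFDerivWithinAt f (liouville p) L p
  cont : ContinuousWithinAt θ L p
  phase : ∀ u ∈ tangentConeAt ℝ L p, ∀ v ∈ tangentConeAt ℝ L p,
    ∃ r : ℝ, cdet p u v = r * Complex.exp (θ p * Complex.I)

lemma Good.congr {L L' O : Set R4} {f f' θ θ' : R4 → ℝ} {p : R4} (hO : IsOpen O) (hpO : p ∈ O)
    (hpL : p ∈ L) (hL : ∀ q ∈ O, q ∈ L ↔ q ∈ L') (hf : ∀ q ∈ O, q ∈ L → f q = f' q)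
    (hθ : ∀ q ∈ O, q ∈ L → θ q = θ' q) (h : Good L' f' θ' p) : Good L f θ p := by
  have hev : L =ᶠ[𝓝 p] L' := by
    filter_upwards [hO.mem_nhds hpO] with q hq
    exact propext (hL q hq)
  have hn : 𝓝[L] p = 𝓝[L'] p := nhdsWithin_eq_iff_eventuallyEq.2 hev
  have hT : tangentConeAt ℝ L p = tangentConeAt ℝ L' p := tangentConeAt_congr hn
  have hev2 : ∀ᶠ q in 𝓝[L] p, q ∈ O ∧ q ∈ L := by
    filter_upwards [mem_nhdsWithin_of_mem_nhds (hO.mem_nhds hpO), self_mem_nhdsWithin]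
      with q h1 h2 using ⟨h1, h2⟩
  refine ⟨?_, ?_, ?_, ?_, ?_⟩
  · obtain ⟨U, g, h1, h2, h3, h4, h5⟩ := h.surf
    refine ⟨U ∩ O, g, h1.inter hO, ⟨h2, hpO⟩, h3.mono inter_subset_left, h4, ?_⟩
    intro q hq
    rw [hL q hq.2, h5 q hq.1]
  · rw [hT]; exact h.lag
  · have h1 := h.exact'
    rw [← hasFDerivWithinAt_congr_set hev] at h1
    apply h1.congr_of_eventuallyEq _ (hf p hpO hpL)
    filter_upwards [hev2] with q hq using hf q hq.1 hq.2
  · have h1 := h.cont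
    unfold ContinuousWithinAt at h1 ⊢
    rw [hn, hθ p hpO hpL]
    apply h1.congr'
    rw [← hn]
    filter_upwards [hev2] with q hq using (hθ q hq.1 hq.2).symm
  · rw [hT, hθ p hpO hpL]; exact h.phase

/-! ### Flat sheets -/

/-- a flat sheet -/
def Flat (c : ℝ) : Set R4 := {p | p.2.2.1 = 0 ∧ p.2.2.2 = c}

lemma flat_closed (c : ℝ) : IsClosed (Flat c) :=
  (isClosed_eq (by fun_prop) continuous_const).inter (isClosed_eq (by fun_prop) continuous_const)

lemma tangent_flat {c : ℝ} {p : R4} (hp : p ∈ Flat c) {v : R4}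
    (hv : v ∈ tangentConeAt ℝ (Flat c) p) : v.2.2.1 = 0 ∧ v.2.2.2 = 0 := by
  have gen : ∀ (r : R4 →L[ℝ] ℝ) (a : ℝ), (∀ q ∈ Flat c, r q = a) → r v = 0 := by
    intro r a h0
    have a1 : HasFDerivWithinAt r r (Flat c) p := r.hasFDerivWithinAt
    have a2 : HasFDerivWithinAt r (0 : R4 →L[ℝ] ℝ) (Flat c) p :=
      (hasFDerivWithinAt_const a p (Flat c)).congr (fun q hq => h0 q hq) (h0 p hp)
    exact a1.unique_on a2 hv
  exact ⟨gen dy 0 (fun q hq => hq.1), gen dz c (fun q hq => hq.2)⟩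

lemma real_phase (a : ℝ) (n : ℤ) : ∃ r : ℝ, (a : ℂ) = r * Complex.exp ((n * Real.pi : ℝ) * Complex.I) := by
  have h : Complex.exp ((n * Real.pi : ℝ) * Complex.I) = ((-1 : ℝ) ^ n : ℝ) := by
    have : ((n * Real.pi : ℝ) : ℂ) * Complex.I = n * (Real.pi * Complex.I) := by push_cast; ring
    rw [this, Complex.exp_int_mul, Complex.exp_pi_mul_I]
    push_cast; ring
  rw [h]
  refine ⟨a * (-1 : ℝ) ^ n, ?_⟩
  have h2 : ((-1 : ℝ) ^ n) * ((-1 : ℝ) ^ n) = 1 := by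
    rw [← zpow_add₀ (by norm_num : (-1 : ℝ) ≠ 0), Even.neg_one_zpow ⟨n, rfl⟩]
  rw [← Complex.ofReal_mul, mul_assoc, h2, mul_one]

lemma good_flat {c : ℝ} {p : R4} (hp : p ∈ Flat c) (n : ℤ) :
    Good (Flat c) (fun _ => 0) (fun _ => n * Real.pi) p := by
  refine ⟨?_, ?_, ?_, continuousWithinAt_const, ?_⟩
  · refine ⟨univ, fun q => (q.2.2.1, q.2.2.2 - c), isOpen_univ, mem_univ _, ?_, ?_, ?_⟩
    · apply ContDiff.contDiffOn; fun_prop
    · have h : HasFDerivAt (fun q : R4 => (q.2.2.1, q.2.2.2 - c)) (dy.prod dz) p :=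
        (dy.hasFDerivAt).prodMk ((dz.hasFDerivAt).sub_const c)
      rw [h.fderiv]
      rintro ⟨a, b⟩
      exact ⟨(0, 0, a, b), rfl⟩
    · intro q _
      simp [Flat, sub_eq_zero]
  · intro u hu v hv
    obtain ⟨u1, u2⟩ := tangent_flat hp hu
    obtain ⟨v1, v2⟩ := tangent_flat hp hv
    simp [omega, contactForm, u1, u2, v1, v2, hp.1]
  · have h1 : HasFDerivAt (fun q : R4 => Real.exp p.1 * (q.2.2.2 - c)) (liouville p) p := by
      have h2 : HasFDerivAt (fun q : R4 => Real.exp p.1 * (q.2.2.2 - c)) (Real.exp p.1 • dz) p :=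
        ((dz.hasFDerivAt).sub_const c).const_mul _
      have h3 : liouville p = Real.exp p.1 • dz := by
        ext <;> simp [liouville_apply, hp.1]
      rw [h3]; exact h2
    apply h1.hasFDerivWithinAt.congr
    · intro q hq
      simp [hq.2]
    · simp [hp.2]
  · intro u hu v hv
    obtain ⟨u1, u2⟩ := tangent_flat hp hu
    obtain ⟨v1, v2⟩ := tangent_flat hp hv
    obtain ⟨r, hr⟩ := real_phase (Real.exp p.1 * (u.1 * v.2.1 - v.1 * u.2.1)) n
    refine ⟨r, ?_⟩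
    rw [← hr]
    simp only [cdet, u1, u2, v1, v2, hp.1]
    push_cast; ring

/-! ### Pairs of sheets -/

/-- the primitive on a pair of sheets -/
def fP (j c₀ : ℝ) (P : Prof) (p : R4) : ℝ := - (Real.exp p.1 * (Y (zt j c₀ P p) * P.k p.1))

lemma omega_pair {E s σ σ' y y1 k l a b e a' b' e' : ℝ}
    (h : σ * b - s * e - k * a = 0) (h' : σ * b' - s * e' - k * a' = 0) :
    E * (a * (((s * y - y1 * k) * e' - y * l * a') - y * σ * b')
      - a' * (((s * y - y1 * k) * e - y * l * a) - y * σ * b)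
      + (b * (y1 * σ * e' + y * σ' * b') - (y1 * σ * e + y * σ' * b) * b')) = 0 := by
  linear_combination E * (a' * y * h - a * y * h' + y1 * e' * h - y1 * e * h')

lemma lag_pair (j c₀ : ℝ) (P : Prof) {p : R4} (hp : p ∈ Pair j c₀ P) :
    ∀ u ∈ tangentConeAt ℝ (Pair j c₀ P) p, ∀ v ∈ tangentConeAt ℝ (Pair j c₀ P) p,
      omega p u v = 0 := by
  intro u hu v hv
  obtain ⟨e, u1, u2, u3⟩ := tangent_pair j c₀ P hp hu
  obtain ⟨e', v1, v2, v3⟩ := tangent_pair j c₀ P hp hv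
  obtain ⟨-, hy, -⟩ := mem_pair_iff.1 hp
  have hy' : p.2.2.1 = Y (zt j c₀ P p) * S (p.2.1 - j) := by unfold R2 at hy; simp at hy; linarith
  unfold omega contactForm
  rw [u2, u3, v2, v3, hy']
  exact omega_pair u1 v1

lemma exact_pair (j c₀ : ℝ) (P : Prof) {p : R4} (hp : p ∈ Pair j c₀ P) :
    HasFDerivWithinAt (fP j c₀ P) (liouville p) (Pair j c₀ P) p := by
  obtain ⟨U, hU, hpU, ψ, hψ, hψP, -⟩ := chart j c₀ P hp
  have hd : HasFDerivAt ψ (fderiv ℝ ψ p) p :=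
    ((hψ.contDiffAt (hU.mem_nhds hpU)).differentiableAt (by simp)).hasFDerivAt
  obtain ⟨hz, h1, h2, h3⟩ := hψP p hpU hp
  have e1 := hasFDerivAt_R1 j P hd
  have e3 := hasFDerivAt_R3 c₀ P hd
  have e4 : HasFDerivAt (fun q : R4 => Real.exp q.1) (Real.exp p.1 • dt) p :=
    (Real.hasDerivAt_exp _).comp_hasFDerivAt p dt.hasFDerivAt
  have e5 : HasFDerivAt (fun q : R4 => Y (ψ q)) (Y1 (ψ p) • fderiv ℝ ψ p) p :=
    (Y_hasDerivAt _).comp_hasFDerivAt p hd
  have e6 : HasFDerivAt (fun q : R4 => P.k q.1) (P.l p.1 • dt) p :=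
    (P.hk _).comp_hasFDerivAt p dt.hasFDerivAt
  have e7 := (((e4.mul (e5.mul e6)).neg).sub (e3.const_mul (Real.exp p.1))).sub
    (e1.const_mul (Real.exp p.1 * Y (ψ p)))
  have hy' : p.2.2.1 = Y (ψ p) * S (p.2.1 - j) := by unfold R2 at h2; simp at h2; linarith
  have e8 : HasFDerivAt (fun q : R4 => - (Real.exp q.1 * (Y (ψ q) * P.k q.1))
      - Real.exp p.1 * R3' c₀ P (q, ψ q) - Real.exp p.1 * Y (ψ p) * R1 j P (q, ψ q))
      (liouville p) p := by
    convert! e7 using 1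
    ext <;>
    · simp [liouville_apply, hy']
      try ring
  apply e8.hasFDerivWithinAt.congr_of_eventuallyEq
  · filter_upwards [mem_nhdsWithin_of_mem_nhds (hU.mem_nhds hpU), self_mem_nhdsWithin]
      with q hq hqP
    obtain ⟨k0, k1, k2, k3⟩ := hψP q hq hqP
    unfold fP
    rw [← k0, k1, k3]; ring
  · unfold fP
    rw [← hz, h1, h3]; ring

/-- the complex number whose argument is the phase of the tangent plane -/
def Delta (j : ℝ) (P : Prof) (p : R4) (z : ℝ) : ℂ :=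
  -(P.k p.1 : ℂ) * (-Complex.I * (S z * Y z - Y1 z * P.k p.1 : ℝ) *
      (1 + Complex.I * (Real.exp p.1 * (Y z * S1 (p.2.1 - j)) : ℝ)))
  + (S (p.2.1 - j) : ℂ) * (Complex.I * (S z * Y z - Y1 z * P.k p.1 : ℝ) *
      (Complex.I * (Real.exp p.1 * (Y z * S (p.2.1 - j)) : ℝ))
      - ((Real.exp p.1 : ℝ) - Complex.I * (Y z * P.l p.1 : ℝ)) *
        (Complex.I * (Real.exp p.1 * (Y1 z * S (p.2.1 - j)) : ℝ)))
  - (S z : ℂ) * (((Real.exp p.1 : ℝ) - Complex.I * (Y z * P.l p.1 : ℝ)) *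
      (1 + Complex.I * (Real.exp p.1 * (Y z * S1 (p.2.1 - j)) : ℝ)))

lemma cross_aux {k σ s a b e a' b' e' : ℝ} (hn : k ≠ 0 ∨ σ ≠ 0 ∨ s ≠ 0)
    (h : σ * b - s * e - k * a = 0) (h' : σ * b' - s * e' - k * a' = 0) :
    ∃ m : ℝ, b * e' - e * b' = - k * m ∧ e * a' - a * e' = σ * m ∧ a * b' - b * a' = - s * m := by
  have hN : k ^ 2 + σ ^ 2 + s ^ 2 ≠ 0 := by
    rcases hn with h | h | h <;> positivity
  refine ⟨(-k * (b * e' - e * b') + σ * (e * a' - a * e') - s * (a * b' - b * a')) /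
    (k ^ 2 + σ ^ 2 + s ^ 2), ?_, ?_, ?_⟩
  · field_simp
    linear_combination (s * b' + σ * e') * h - (s * b + σ * e) * h'
  · field_simp
    linear_combination (k * e' - s * a') * h - (k * e - s * a) * h'
  · field_simp
    linear_combination (-k * b' - σ * a') * h + (k * b + σ * a) * h'

lemma Delta_re (j : ℝ) (P : Prof) (p : R4) (z : ℝ) : (Delta j P p z).re =
    - Real.exp p.1 * (S z * (1 + Y z ^ 2 * P.l p.1 * S1 (p.2.1 - j)
      + (S z * Y z - Y1 z * P.k p.1) * (eta * S1 z) *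
        (P.k p.1 * S1 (p.2.1 - j) + S (p.2.1 - j) ^ 2)
      + S (p.2.1 - j) ^ 2 * (eta * S1 z) * Y1 z * P.l p.1)) := by
  have hY : Y z = eta * S1 z * S z := by unfold Y; ring
  unfold Delta
  simp [Complex.exp_ofReal_re, Complex.exp_ofReal_im]
  rw [hY]
  ring

lemma Delta_im_zero (j : ℝ) (P : Prof) (p : R4) : (Delta j P p 0).im =
    - (Y1 0 * (P.k p.1 ^ 2 + Real.exp p.1 ^ 2 * S (p.2.1 - j) ^ 2)) := by
  unfold Delta
  simp [Complex.exp_ofReal_re, Complex.exp_ofReal_im]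
  ring

lemma etaM : eta * M ≤ 1 / 4 ∧ 0 < eta * M ∧ eta * M ^ 3 = 1 / 4 := by
  have h1 := one_le_M
  have h2 := M_pos
  have h3 : eta * M ^ 3 = 1 / 4 := by unfold eta; field_simp
  refine ⟨?_, mul_pos eta_pos h2, h3⟩
  rw [← h3]
  apply mul_le_mul_of_nonneg_left _ eta_pos.le
  nlinarith [mul_nonneg h2.le (sub_nonneg.2 h1), mul_nonneg (mul_nonneg h2.le h2.le) (sub_nonneg.2 h1)]

lemma epsM : eps * M ^ 2 = 1 / 6 ∧ 0 < eps * M ∧ eps * M ≤ 1 / 6 := by
  have h1 := one_le_M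
  have h2 := M_pos
  have h3 : eps * M ^ 2 = 1 / 6 := by unfold eps; field_simp
  refine ⟨h3, mul_pos eps_pos h2, ?_⟩
  rw [← h3]
  apply mul_le_mul_of_nonneg_left _ eps_pos.le
  nlinarith

lemma bracket_pos (j : ℝ) (P : Prof) (p : R4) (z : ℝ) :
    0 < 1 + Y z ^ 2 * P.l p.1 * S1 (p.2.1 - j)
      + (S z * Y z - Y1 z * P.k p.1) * (eta * S1 z) *
        (P.k p.1 * S1 (p.2.1 - j) + S (p.2.1 - j) ^ 2)
      + S (p.2.1 - j) ^ 2 * (eta * S1 z) * Y1 z * P.l p.1 := by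
  obtain ⟨a1, a2, a3⟩ := etaM
  obtain ⟨b1, b2, b3⟩ := epsM
  have hM := one_le_M
  have hM0 := M_pos
  have he := eta_pos
  have hs := abs_S_le (p.2.1 - j)
  have hs1 := abs_S1_le (p.2.1 - j)
  have hS1 := abs_S1_le z
  have hY := abs_Y_le z
  have hY1 := abs_Y1_le z
  have hSz := abs_S_le z
  have hk := P.k_bd p.1
  have hl := P.l_bd p.1
  set A := Y z
  set B := Y1 z
  set s := S z
  set σ := S (p.2.1 - j)
  set σ' := S1 (p.2.1 - j)
  set b := S1 z
  set k := P.k p.1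
  set l := P.l p.1
  -- the bounds of the terms
  have c1 : |A ^ 2 * l * σ'| ≤ 1 / 16 := by
    rw [abs_mul, abs_mul, abs_pow]
    have h1 : |A| ≤ 1 / 4 := hY.trans a1
    have h2 : |l| * |σ'| ≤ 1 / 6 := by
      calc |l| * |σ'| ≤ (eps * M) * M := mul_le_mul hl hs1 (abs_nonneg _) b2.le
        _ = 1 / 6 := by rw [← b1]; ring
    have h3 : |A| ^ 2 ≤ (1 / 4) ^ 2 := pow_le_pow_left₀ (abs_nonneg _) h1 2
    calc |A| ^ 2 * |l| * |σ'| = |A| ^ 2 * (|l| * |σ'|) := by ring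
      _ ≤ (1 / 4) ^ 2 * (1 / 6) := mul_le_mul h3 h2 (by positivity) (by norm_num)
      _ ≤ 1 / 16 := by norm_num
  have c2 : |eta * b| ≤ 1 / 4 := by
    rw [abs_mul, abs_of_pos he]
    exact (mul_le_mul_of_nonneg_left hS1 he.le).trans a1
  have hB : |B| * M ≤ 1 / 2 := by
    calc |B| * M ≤ (2 * eta * M ^ 2) * M := mul_le_mul_of_nonneg_right hY1 hM0.le
      _ = 2 * (eta * M ^ 3) := by ring
      _ = 1 / 2 := by rw [a3]; norm_num
  have hB' : |B| ≤ 1 / 2 := by nlinarith [abs_nonneg B]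
  have hk' : |k| ≤ 1 / 6 := hk.trans b3
  have hl' : |l| ≤ 1 / 6 := hl.trans b3
  have c3 : |s * A - B * k| ≤ 1 / 3 := by
    refine (abs_sub _ _).trans ?_
    rw [abs_mul, abs_mul]
    have h1 : |s| * |A| ≤ 1 * (1 / 4) :=
      mul_le_mul hSz (hY.trans a1) (abs_nonneg _) (by norm_num)
    have h2 : |B| * |k| ≤ (1 / 2) * (1 / 6) := mul_le_mul hB' hk' (abs_nonneg _) (by norm_num)
    linarith
  have c4 : |k * σ' + σ ^ 2| ≤ 7 / 6 := by
    refine (abs_add_le _ _).trans ?_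
    rw [abs_mul, abs_pow]
    have h1 : |k| * |σ'| ≤ 1 / 6 := by
      calc |k| * |σ'| ≤ (eps * M) * M := mul_le_mul hk hs1 (abs_nonneg _) b2.le
        _ = 1 / 6 := by rw [← b1]; ring
    have h2 : |σ| ^ 2 ≤ 1 := pow_le_one₀ (abs_nonneg _) hs
    linarith
  have c5 : |(s * A - B * k) * (eta * b) * (k * σ' + σ ^ 2)| ≤ (1 / 3) * (1 / 4) * (7 / 6) := by
    rw [abs_mul, abs_mul]
    exact mul_le_mul (mul_le_mul c3 c2 (abs_nonneg _) (by norm_num)) c4 (abs_nonneg _) (by norm_num)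
  have c6 : |σ ^ 2 * (eta * b) * B * l| ≤ 1 * (1 / 4) * (1 / 2) * (1 / 6) := by
    rw [abs_mul, abs_mul, abs_mul, abs_pow]
    have h2 : |σ| ^ 2 ≤ 1 := pow_le_one₀ (abs_nonneg _) hs
    exact mul_le_mul (mul_le_mul (mul_le_mul h2 c2 (abs_nonneg _) (by norm_num)) hB'
      (abs_nonneg _) (by norm_num)) hl' (abs_nonneg _) (by norm_num)
  have d1 := (abs_le.1 c1).1
  have d2 := (abs_le.1 c5).1
  have d3 := (abs_le.1 c6).1
  linarith

lemma Delta_slit {j c₀ : ℝ} {P : Prof} {p : R4} (hp : p ∈ Pair j c₀ P) :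
    Complex.I * Delta j P p (zt j c₀ P p) ∈ Complex.slitPlane := by
  rw [Complex.mem_slitPlane_iff]
  by_cases hz : zt j c₀ P p = 0
  · left
    obtain ⟨h1, -, -⟩ := mem_pair_iff.1 hp
    rw [hz] at h1 ⊢
    have : (Complex.I * Delta j P p 0).re = - (Delta j P p 0).im := by simp
    rw [this, Delta_im_zero, neg_neg]
    apply mul_pos Y1_zero_pos
    by_cases hx : p.2.1 - j = 0
    · have hk : P.k p.1 ≠ 0 := by
        apply P.nz
        unfold R1 at h1; simp [hx] at h1; exact h1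
      positivity
    · have hS : S (p.2.1 - j) ≠ 0 := fun h => hx (S_eq_zero.1 h)
      positivity
  · right
    have : (Complex.I * Delta j P p (zt j c₀ P p)).im = (Delta j P p (zt j c₀ P p)).re := by simp
    rw [this, Delta_re]
    have h1 := bracket_pos j P p (zt j c₀ P p)
    have h2 : S (zt j c₀ P p) ≠ 0 := fun h => hz (S_eq_zero.1 h)
    have h3 := (Real.exp_pos p.1).ne'
    exact mul_ne_zero (neg_ne_zero.2 h3) (mul_ne_zero h2 h1.ne')

/-- the phase on a pair of sheets -/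
def thP (n : ℤ) (j c₀ : ℝ) (P : Prof) (p : R4) : ℝ :=
  Complex.arg (Complex.I * Delta j P p (zt j c₀ P p)) + Real.pi / 2 + n * Real.pi

lemma Delta_continuous (j : ℝ) (P : Prof) : Continuous (fun q : R4 × ℝ => Delta j P q.1 q.2) := by
  have a1 := Y_contDiff.continuous
  have a2 := Y1_contDiff.continuous
  have a3 := S_continuous
  have a4 := S1_continuous
  have a5 := P.kc.continuous
  have a6 := P.lc.continuous
  unfold Delta
  fun_prop

lemma zt_continuousWithinAt {j c₀ : ℝ} {P : Prof} {p : R4} (hp : p ∈ Pair j c₀ P) :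
    ContinuousWithinAt (zt j c₀ P) (Pair j c₀ P) p := by
  obtain ⟨U, hU, hpU, ψ, hψ, hψP, -⟩ := chart j c₀ P hp
  have hc : ContinuousAt ψ p := (hψ.contDiffAt (hU.mem_nhds hpU)).continuousAt
  apply hc.continuousWithinAt.congr_of_eventuallyEq
  · filter_upwards [mem_nhdsWithin_of_mem_nhds (hU.mem_nhds hpU), self_mem_nhdsWithin]
      with q hq hqP using (hψP q hq hqP).1.symm
  · exact (hψP p hpU hp).1.symm

lemma cont_pair {j c₀ : ℝ} {P : Prof} {p : R4} (hp : p ∈ Pair j c₀ P) (n : ℤ) :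
    ContinuousWithinAt (thP n j c₀ P) (Pair j c₀ P) p := by
  have h1 : ContinuousWithinAt (fun q => (q, zt j c₀ P q)) (Pair j c₀ P) p :=
    continuousWithinAt_id.prodMk (zt_continuousWithinAt hp)
  have h2' : ContinuousWithinAt (fun q => Delta j P q (zt j c₀ P q)) (Pair j c₀ P) p :=
    (Delta_continuous j P).continuousAt.comp_continuousWithinAt h1
  have h2 : ContinuousWithinAt (fun q => Complex.I * Delta j P q (zt j c₀ P q)) (Pair j c₀ P) p :=
    continuousWithinAt_const.mul h2'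
  have h3 : ContinuousWithinAt (fun q => Complex.arg (Complex.I * Delta j P q (zt j c₀ P q)))
      (Pair j c₀ P) p :=
    ContinuousAt.comp_continuousWithinAt (g := Complex.arg)
      (f := fun q => Complex.I * Delta j P q (zt j c₀ P q)) (Complex.continuousAt_arg (Delta_slit hp)) h2
  unfold thP
  exact (h3.add continuousWithinAt_const).add continuousWithinAt_const

lemma Delta_phase (n : ℤ) (j c₀ : ℝ) (P : Prof) (p : R4) :
    Delta j P p (zt j c₀ P p) =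
      (-‖Delta j P p (zt j c₀ P p)‖ * (-1 : ℝ) ^ n : ℝ) *
        Complex.exp (thP n j c₀ P p * Complex.I) := by
  set D := Delta j P p (zt j c₀ P p) with hD
  have h1 : Complex.exp (thP n j c₀ P p * Complex.I) =
      Complex.exp (Complex.arg (Complex.I * D) * Complex.I) * (Complex.I * ((-1 : ℝ) ^ n : ℝ)) := by
    unfold thP
    rw [← hD]
    have e1 : ((Complex.arg (Complex.I * D) + Real.pi / 2 + n * Real.pi : ℝ) : ℂ) * Complex.I =
        Complex.arg (Complex.I * D) * Complex.I + (Real.pi / 2 * Complex.I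
          + n * (Real.pi * Complex.I)) := by push_cast; ring
    rw [e1, Complex.exp_add, Complex.exp_add, Complex.exp_pi_div_two_mul_I, Complex.exp_int_mul,
      Complex.exp_pi_mul_I]
    push_cast; ring
  have h2 : (‖Complex.I * D‖ : ℂ) * Complex.exp (Complex.arg (Complex.I * D) * Complex.I)
      = Complex.I * D := Complex.norm_mul_exp_arg_mul_I _
  have h3 : ((-1 : ℝ) ^ n) * ((-1 : ℝ) ^ n) = 1 := by
    rw [← zpow_add₀ (by norm_num : (-1 : ℝ) ≠ 0), Even.neg_one_zpow ⟨n, rfl⟩]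
  have h4 : (((-1 : ℝ) ^ n : ℝ) : ℂ) * (((-1 : ℝ) ^ n : ℝ) : ℂ) = 1 := by
    rw [← Complex.ofReal_mul, h3, Complex.ofReal_one]
  rw [norm_mul, Complex.norm_I, one_mul] at h2
  rw [h1]
  calc D = - (Complex.I * (Complex.I * D)) := by rw [← mul_assoc, Complex.I_mul_I]; ring
    _ = - (Complex.I * ((‖D‖ : ℂ) * Complex.exp (Complex.arg (Complex.I * D) * Complex.I))) := by
        rw [h2]
    _ = - (Complex.I * ((‖D‖ : ℂ) * Complex.exp (Complex.arg (Complex.I * D) * Complex.I))) *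
        ((((-1 : ℝ) ^ n : ℝ) : ℂ) * (((-1 : ℝ) ^ n : ℝ) : ℂ)) := by rw [h4, mul_one]
    _ = _ := by push_cast; ring

lemma cdet_pair_aux {j : ℝ} {P : Prof} {p u v : R4} {z e e' m : ℝ}
    (hy : p.2.2.1 = Y z * S (p.2.1 - j))
    (u2 : u.2.2.1 = Y1 z * S (p.2.1 - j) * e + Y z * S1 (p.2.1 - j) * u.2.1)
    (u3 : u.2.2.2 = (S z * Y z - Y1 z * P.k p.1) * e - Y z * P.l p.1 * u.1)
    (v2 : v.2.2.1 = Y1 z * S (p.2.1 - j) * e' + Y z * S1 (p.2.1 - j) * v.2.1)
    (v3 : v.2.2.2 = (S z * Y z - Y1 z * P.k p.1) * e' - Y z * P.l p.1 * v.1)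
    (m1 : u.2.1 * e' - e * v.2.1 = - P.k p.1 * m)
    (m2 : e * v.1 - u.1 * e' = S (p.2.1 - j) * m)
    (m3 : u.1 * v.2.1 - u.2.1 * v.1 = - S z * m) :
    cdet p u v = m * Delta j P p z := by
  have m1' : (u.2.1 : ℂ) * e' - e * v.2.1 = - P.k p.1 * m := by exact_mod_cast m1
  have m2' : (e : ℂ) * v.1 - u.1 * e' = S (p.2.1 - j) * m := by exact_mod_cast m2
  have m3' : (u.1 : ℂ) * v.2.1 - u.2.1 * v.1 = - S z * m := by exact_mod_cast m3
  have hI : Complex.I * Complex.I = -1 := Complex.I_mul_I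
  unfold cdet Delta
  rw [u2, u3, v2, v3, hy]
  push_cast
  linear_combination
    (-Complex.I * (S z * Y z - Y1 z * P.k p.1) *
      (1 + Complex.I * (Complex.exp p.1 * (Y z * S1 (p.2.1 - j))))) * m1'
    + (Complex.I * (S z * Y z - Y1 z * P.k p.1) *
        (Complex.I * (Complex.exp p.1 * (Y z * S (p.2.1 - j))))
      - (Complex.exp p.1 - Complex.I * (Y z * P.l p.1)) *
        (Complex.I * (Complex.exp p.1 * (Y1 z * S (p.2.1 - j))))) * m2'
    + ((Complex.exp p.1 - Complex.I * (Y z * P.l p.1)) *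
      (1 + Complex.I * (Complex.exp p.1 * (Y z * S1 (p.2.1 - j))))) * m3'

lemma normal_ne_zero {j c₀ : ℝ} {P : Prof} {p : R4} (hp : p ∈ Pair j c₀ P) :
    P.k p.1 ≠ 0 ∨ S (p.2.1 - j) ≠ 0 ∨ S (zt j c₀ P p) ≠ 0 := by
  obtain ⟨h1, -, -⟩ := mem_pair_iff.1 hp
  by_cases hz : S (zt j c₀ P p) = 0
  · by_cases hx : S (p.2.1 - j) = 0
    · left
      apply P.nz
      rw [S_eq_zero] at hz hx
      unfold R1 at h1; simp [hx, hz] at h1; exact h1
    · exact Or.inr (Or.inl hx)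
  · exact Or.inr (Or.inr hz)

lemma good_pair {j c₀ : ℝ} {P : Prof} {p : R4} (hp : p ∈ Pair j c₀ P) (n : ℤ) :
    Good (Pair j c₀ P) (fP j c₀ P) (thP n j c₀ P) p := by
  refine ⟨?_, lag_pair j c₀ P hp, exact_pair j c₀ P hp, cont_pair hp n, ?_⟩
  · obtain ⟨U, hU, hpU, ψ, hψ, hψP, g, hg, hgs, hgU⟩ := chart j c₀ P hp
    exact ⟨U, g, hU, hpU, hg, hgs, hgU⟩
  · intro u hu v hv
    obtain ⟨e, u1, u2, u3⟩ := tangent_pair j c₀ P hp hu
    obtain ⟨e', v1, v2, v3⟩ := tangent_pair j c₀ P hp hv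
    obtain ⟨-, hy, -⟩ := mem_pair_iff.1 hp
    have hy' : p.2.2.1 = Y (zt j c₀ P p) * S (p.2.1 - j) := by
      unfold R2 at hy; simp at hy; linarith
    obtain ⟨m, m1, m2, m3⟩ := cross_aux (normal_ne_zero hp) u1 v1
    refine ⟨m * (-‖Delta j P p (zt j c₀ P p)‖ * (-1 : ℝ) ^ n), ?_⟩
    rw [cdet_pair_aux hy' u2 u3 v2 v3 m1 m2 m3]
    conv_lhs => rw [Delta_phase n j c₀ P p]
    push_cast; ring

end

end Pool.Agent.N565.LC
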