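import Mathlib

/-!
# The implicit function theorem for one scalar equation, in a convenient form
-/

set_option autoImplicit false

namespace Pool.Agent.N565.LC

open Set Filter
open scoped Topology ContDiff

variable {E : Type*} [NormedAddCommGroup E] [NormedSpace ℝ E] [CompleteSpace E]

omit [CompleteSpace E] in
lemma isInvertible_aux {F : E × ℝ → ℝ} (hF : ContDiff ℝ ∞ F) {p : E} {z d : ℝ}
    (hd : HasDerivAt (fun w => F (p, w)) d z) (hd0 : d ≠ 0) :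
    (fderiv ℝ F (p, z) ∘L .inr ℝ E ℝ).IsInvertible := by
  refine ⟨ContinuousLinearEquiv.unitsEquivAut ℝ (Units.mk0 d hd0), ?_⟩
  have h1 : HasFDerivAt (fun w : ℝ => F (p, w)) (fderiv ℝ F (p, z) ∘L .inr ℝ E ℝ) z := by
    have h2 : HasFDerivAt F (fderiv ℝ F (p, z)) (p, z) :=
      ((hF.differentiable (by simp)) (p, z)).hasFDerivAt
    have h3 : HasFDerivAt (fun w : ℝ => (p, w)) (.inr ℝ E ℝ) z := hasFDerivAt_prodMk_right p z
    exact h2.comp z h3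
  have h4 := h1.hasDerivAt.unique hd
  ext
  simp at h4 ⊢
  exact h4.symm

theorem ift (F : E × ℝ → ℝ) (hF : ContDiff ℝ ∞ F) (p₀ : E) (z₀ : ℝ) (h0 : F (p₀, z₀) = 0)
    (D : E → ℝ → ℝ) (hD : ∀ p z, HasDerivAt (fun w => F (p, w)) (D p z) z)
    (hDc : Continuous (fun q : E × ℝ => D q.1 q.2)) (hd0 : D p₀ z₀ ≠ 0) :
    ∃ U : Set E, IsOpen U ∧ p₀ ∈ U ∧ ∃ δ > 0, ∃ ψ : E → ℝ, ContDiffOn ℝ ∞ ψ U ∧ ψ p₀ = z₀ ∧
      (∀ p ∈ U, F (p, ψ p) = 0) ∧ ∀ p ∈ U, ∀ z, |z - z₀| < δ → F (p, z) = 0 → z = ψ p := by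
  have cdf : ContDiffAt ℝ ∞ F (p₀, z₀) := hF.contDiffAt
  have cdf1 : ContDiffAt ℝ 1 F (p₀, z₀) := cdf.of_le (by simp)
  have inv := isInvertible_aux hF (hD p₀ z₀) hd0
  set ψ : E → ℝ := cdf1.implicitFunction one_ne_zero inv with hψ
  have e0 : ψ p₀ = z₀ := cdf1.implicitFunction_apply_self one_ne_zero inv
  have e1 : ∀ᶠ x in 𝓝 p₀, F (x, ψ x) = 0 := by
    have := cdf1.eventually_apply_implicitFunction one_ne_zero inv
    rw [h0] at this; exact this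
  have e2 : ∀ᶠ v in 𝓝 (p₀, z₀), F v = 0 ↔ ψ v.1 = v.2 := by
    have := cdf1.eventually_apply_eq_iff_implicitFunction one_ne_zero inv
    rw [h0] at this; exact this
  have e3 : ContDiffAt ℝ 1 ψ p₀ := cdf1.contDiffAt_implicitFunction one_ne_zero inv
  have e4 : ∀ᶠ x in 𝓝 p₀, ContDiffAt ℝ 1 ψ x := e3.eventually (by simp)
  have e5 : ∀ᶠ x in 𝓝 p₀, D x (ψ x) ≠ 0 := by
    have hc : ContinuousAt (fun x => D x (ψ x)) p₀ := by
      have h1 : ContinuousAt (fun x => (x, ψ x)) p₀ := continuousAt_id.prodMk e3.continuousAt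
      exact (hDc.continuousAt (x := (p₀, ψ p₀))).comp_of_eq h1 rfl
    exact hc.eventually_ne (by rw [e0]; exact hd0)
  -- a product neighbourhood
  rw [eventually_nhds_iff] at e2
  obtain ⟨W, hW, hWo, hWm⟩ := e2
  obtain ⟨A, B, hAo, hBo, hpA, hzB, hAB⟩ := isOpen_prod_iff.1 hWo p₀ z₀ hWm
  obtain ⟨δ, hδ, hB⟩ := Metric.isOpen_iff.1 hBo z₀ hzB
  have e6 : ∀ᶠ x in 𝓝 p₀, x ∈ A := hAo.mem_nhds hpA
  have e7 : ∀ᶠ x in 𝓝 p₀, F (x, ψ x) = 0 ∧ ContDiffAt ℝ 1 ψ x ∧ D x (ψ x) ≠ 0 ∧ x ∈ A := by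
    filter_upwards [e1, e4, e5, e6] with x a b c d using ⟨a, b, c, d⟩
  obtain ⟨U, hU, hUo, hUm⟩ := eventually_nhds_iff.1 e7
  refine ⟨U, hUo, hUm, δ, hδ, ψ, ?_, e0, fun p hp => (hU p hp).1, ?_⟩
  · intro p hp
    obtain ⟨a1, a2, a3, a4⟩ := hU p hp
    apply ContDiffAt.contDiffWithinAt
    have c1 : ContDiffAt ℝ ∞ F (p, ψ p) := hF.contDiffAt
    have inv' := isInvertible_aux hF (hD p (ψ p)) a3
    have hne : (∞ : WithTop ℕ∞) ≠ 0 := by simp
    have c2 := c1.contDiffAt_implicitFunction hne inv'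
    have c3 : ∀ᶠ v in 𝓝 (p, ψ p), F v = 0 ↔ c1.implicitFunction hne inv' v.1 = v.2 := by
      have := c1.eventually_apply_eq_iff_implicitFunction hne inv'
      rw [a1] at this; exact this
    have c4 : Tendsto (fun x => (x, ψ x)) (𝓝 p) (𝓝 (p, ψ p)) :=
      (continuousAt_id.prodMk a2.continuousAt : ContinuousAt (fun x => (x, ψ x)) p)
    have c5 := c4.eventually c3
    apply c2.congr_of_eventuallyEq
    filter_upwards [c5, hUo.mem_nhds hp] with x hx hxU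
    exact (hx.1 (hU x hxU).1).symm
  · intro p hp z hz hFz
    have : (p, z) ∈ W := hAB ⟨(hU p hp).2.2.2, hB (by rwa [Metric.mem_ball, Real.dist_eq])⟩
    exact ((hW _ this).1 hFz).symm

end Pool.Agent.N565.LC
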