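import Pool.Agent.N565.LC.Knot

/-!
# The curves are embedded
-/

set_option autoImplicit false

namespace Pool.Agent.N565.LC

open Set Filter
open scoped Topology ContDiff

noncomputable section

/-- a left inverse of the front of the first knot -/
def Pm (l x z : ℝ) : ℝ :=
  if 3 * hh ≤ z then -x else
  if hh < z then (if x < 0 then 11 - Gi l (z - 2 * hh) else 65 + Gi l (z - 2 * hh)) else
  if hh ≤ z then (if x < -6 then x + 22 else if x < 6 then x + 38 else x + 54) else
  if -hh < z then (if x < -6 then 15 - Gi l z else if x < 0 then 33 + Gi l z else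
    if x < 6 then 43 - Gi l z else 61 + Gi l z) else
  if -hh ≤ z then (if x < -6 then 8 - x else if x < 0 then 28 - x else if x < 6 then 48 - x
    else 68 - x) else
  if -3 * hh < z then (if x < -6 then 19 - Gi l (z + 2 * hh) else
    if x < 0 then 29 + Gi l (z + 2 * hh) else if x < 6 then 47 - Gi l (z + 2 * hh) else
    57 + Gi l (z + 2 * hh)) else
  (if x < 0 then x + 30 else x + 46)

lemma Pm_eq {l θ : ℝ} (h0 : 0 ≤ l) (h1 : l ≤ 1) (hθ' : θ < 66) :
    Pm l (xm θ) (zm l θ) = θ := by
  have hp := hh_pos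
  rcases le_or_gt θ 10 with t0 | t0
  · have w := wm1 (θ := θ) (by linarith)
    have hx := w.hx
    have hz := w.hz l
    rw [X_of_le_neg_one (by linarith)] at hx
    rw [Gl_lo (by linarith)] at hz
    unfold Pm; rw [hz, hx, if_pos (by linarith)]
    linarith
  rcases lt_or_ge θ 12 with t1 | t1
  · have w := wm1 (θ := θ) (by linarith)
    have hx := w.hx
    have hz := w.hz l
    have g := Gl_lt h0 h1 (u := θ - 11) (by linarith) (by linarith)
    have b := X_lt_one (u := θ - 11) (abs_lt.2 ⟨by linarith, by linarith⟩)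
    have b' := X_nonneg (θ - 11)
    unfold Pm; rw [hz, hx, if_neg (by linarith), if_pos (by linarith), if_pos (by linarith)]
    have e : 2 * hh + -1 * Gl l (θ - 11) - 2 * hh = -Gl l (θ - 11) := by ring
    rw [e, Gi_neg_Gl h0 h1 (by linarith) (by linarith)]; ring
  rcases le_or_gt θ 14 with t2 | t2
  · have w := wm2 (θ := θ) (by linarith) (by linarith)
    have hx := w.hx
    have hz := w.hz l
    rw [X_of_le_neg_one (by linarith)] at hx
    rw [Gl_lo (by linarith)] at hz
    unfold Pm; rw [hz, hx, if_neg (by linarith), if_neg (by linarith), if_pos (by linarith), if_pos (by linarith)]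
    linarith
  rcases lt_or_ge θ 16 with t3 | t3
  · have w := wm2 (θ := θ) (by linarith) (by linarith)
    have hx := w.hx
    have hz := w.hz l
    have g := Gl_lt h0 h1 (u := θ - 15) (by linarith) (by linarith)
    have b := X_lt_one (u := θ - 15) (abs_lt.2 ⟨by linarith, by linarith⟩)
    have b' := X_nonneg (θ - 15)
    unfold Pm; rw [hz, hx, if_neg (by linarith), if_neg (by linarith), if_neg (by linarith), if_pos (by linarith), if_pos (by linarith)]
    have e : 0 + -1 * Gl l (θ - 15) = -Gl l (θ - 15) := by ring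
    rw [e, Gi_neg_Gl h0 h1 (by linarith) (by linarith)]; ring
  rcases le_or_gt θ 18 with t4 | t4
  · have w := wm3 (θ := θ) (by linarith) (by linarith)
    have hx := w.hx
    have hz := w.hz l
    rw [X_of_le_neg_one (by linarith)] at hx
    rw [Gl_lo (by linarith)] at hz
    unfold Pm; rw [hz, hx, if_neg (by linarith), if_neg (by linarith), if_neg (by linarith), if_neg (by linarith), if_pos (by linarith), if_pos (by linarith)]
    linarith
  rcases lt_or_ge θ 20 with t5 | t5
  · have w := wm3 (θ := θ) (by linarith) (by linarith)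
    have hx := w.hx
    have hz := w.hz l
    have g := Gl_lt h0 h1 (u := θ - 19) (by linarith) (by linarith)
    have b := X_lt_one (u := θ - 19) (abs_lt.2 ⟨by linarith, by linarith⟩)
    have b' := X_nonneg (θ - 19)
    unfold Pm; rw [hz, hx, if_neg (by linarith), if_neg (by linarith), if_neg (by linarith), if_neg (by linarith), if_neg (by linarith), if_pos (by linarith), if_pos (by linarith)]
    have e : -2 * hh + -1 * Gl l (θ - 19) + 2 * hh = -Gl l (θ - 19) := by ring
    rw [e, Gi_neg_Gl h0 h1 (by linarith) (by linarith)]; ring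
  rcases le_or_gt θ 28 with t6 | t6
  · have w := wm4 (θ := θ) (by linarith) (by linarith)
    have hx := w.hx
    have hz := w.hz l
    rw [X_of_le_neg_one (by linarith)] at hx
    rw [Gl_lo (by linarith)] at hz
    unfold Pm; rw [hz, hx, if_neg (by linarith), if_neg (by linarith), if_neg (by linarith), if_neg (by linarith), if_neg (by linarith), if_neg (by linarith), if_pos (by linarith)]
    linarith
  rcases lt_or_ge θ 30 with t7 | t7
  · have w := wm4 (θ := θ) (by linarith) (by linarith)
    have hx := w.hx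
    have hz := w.hz l
    have g := Gl_lt h0 h1 (u := θ - 29) (by linarith) (by linarith)
    have b := X_lt_one (u := θ - 29) (abs_lt.2 ⟨by linarith, by linarith⟩)
    have b' := X_nonneg (θ - 29)
    unfold Pm; rw [hz, hx, if_neg (by linarith), if_neg (by linarith), if_neg (by linarith), if_neg (by linarith), if_neg (by linarith), if_pos (by linarith), if_neg (by linarith), if_pos (by linarith)]
    have e : -2 * hh + 1 * Gl l (θ - 29) + 2 * hh = Gl l (θ - 29) := by ring
    rw [e, Gi_Gl h0 h1 (by linarith) (by linarith)]; ring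
  rcases le_or_gt θ 32 with t8 | t8
  · have w := wm5 (θ := θ) (by linarith) (by linarith)
    have hx := w.hx
    have hz := w.hz l
    rw [X_of_le_neg_one (by linarith)] at hx
    rw [Gl_lo (by linarith)] at hz
    unfold Pm; rw [hz, hx, if_neg (by linarith), if_neg (by linarith), if_neg (by linarith), if_neg (by linarith), if_pos (by linarith), if_neg (by linarith), if_pos (by linarith)]
    linarith
  rcases lt_or_ge θ 34 with t9 | t9
  · have w := wm5 (θ := θ) (by linarith) (by linarith)
    have hx := w.hx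
    have hz := w.hz l
    have g := Gl_lt h0 h1 (u := θ - 33) (by linarith) (by linarith)
    have b := X_lt_one (u := θ - 33) (abs_lt.2 ⟨by linarith, by linarith⟩)
    have b' := X_nonneg (θ - 33)
    unfold Pm; rw [hz, hx, if_neg (by linarith), if_neg (by linarith), if_neg (by linarith), if_pos (by linarith), if_neg (by linarith), if_pos (by linarith)]
    have e : 0 + 1 * Gl l (θ - 33) = Gl l (θ - 33) := by ring
    rw [e, Gi_Gl h0 h1 (by linarith) (by linarith)]; ring
  rcases le_or_gt θ 42 with t10 | t10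
  · have w := wm6 (θ := θ) (by linarith) (by linarith)
    have hx := w.hx
    have hz := w.hz l
    rw [X_of_le_neg_one (by linarith)] at hx
    rw [Gl_lo (by linarith)] at hz
    unfold Pm; rw [hz, hx, if_neg (by linarith), if_neg (by linarith), if_pos (by linarith), if_neg (by linarith), if_pos (by linarith)]
    linarith
  rcases lt_or_ge θ 44 with t11 | t11
  · have w := wm6 (θ := θ) (by linarith) (by linarith)
    have hx := w.hx
    have hz := w.hz l
    have g := Gl_lt h0 h1 (u := θ - 43) (by linarith) (by linarith)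
    have b := X_lt_one (u := θ - 43) (abs_lt.2 ⟨by linarith, by linarith⟩)
    have b' := X_nonneg (θ - 43)
    unfold Pm; rw [hz, hx, if_neg (by linarith), if_neg (by linarith), if_neg (by linarith), if_pos (by linarith), if_neg (by linarith), if_neg (by linarith), if_pos (by linarith)]
    have e : 0 + -1 * Gl l (θ - 43) = -Gl l (θ - 43) := by ring
    rw [e, Gi_neg_Gl h0 h1 (by linarith) (by linarith)]; ring
  rcases le_or_gt θ 46 with t12 | t12
  · have w := wm7 (θ := θ) (by linarith) (by linarith)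
    have hx := w.hx
    have hz := w.hz l
    rw [X_of_le_neg_one (by linarith)] at hx
    rw [Gl_lo (by linarith)] at hz
    unfold Pm; rw [hz, hx, if_neg (by linarith), if_neg (by linarith), if_neg (by linarith), if_neg (by linarith), if_pos (by linarith), if_neg (by linarith), if_neg (by linarith), if_pos (by linarith)]
    linarith
  rcases lt_or_ge θ 48 with t13 | t13
  · have w := wm7 (θ := θ) (by linarith) (by linarith)
    have hx := w.hx
    have hz := w.hz l
    have g := Gl_lt h0 h1 (u := θ - 47) (by linarith) (by linarith)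
    have b := X_lt_one (u := θ - 47) (abs_lt.2 ⟨by linarith, by linarith⟩)
    have b' := X_nonneg (θ - 47)
    unfold Pm; rw [hz, hx, if_neg (by linarith), if_neg (by linarith), if_neg (by linarith), if_neg (by linarith), if_neg (by linarith), if_pos (by linarith), if_neg (by linarith), if_neg (by linarith), if_pos (by linarith)]
    have e : -2 * hh + -1 * Gl l (θ - 47) + 2 * hh = -Gl l (θ - 47) := by ring
    rw [e, Gi_neg_Gl h0 h1 (by linarith) (by linarith)]; ring
  rcases le_or_gt θ 56 with t14 | t14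
  · have w := wm8 (θ := θ) (by linarith) (by linarith)
    have hx := w.hx
    have hz := w.hz l
    rw [X_of_le_neg_one (by linarith)] at hx
    rw [Gl_lo (by linarith)] at hz
    unfold Pm; rw [hz, hx, if_neg (by linarith), if_neg (by linarith), if_neg (by linarith), if_neg (by linarith), if_neg (by linarith), if_neg (by linarith), if_neg (by linarith)]
    linarith
  rcases lt_or_ge θ 58 with t15 | t15
  · have w := wm8 (θ := θ) (by linarith) (by linarith)
    have hx := w.hx
    have hz := w.hz l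
    have g := Gl_lt h0 h1 (u := θ - 57) (by linarith) (by linarith)
    have b := X_lt_one (u := θ - 57) (abs_lt.2 ⟨by linarith, by linarith⟩)
    have b' := X_nonneg (θ - 57)
    unfold Pm; rw [hz, hx, if_neg (by linarith), if_neg (by linarith), if_neg (by linarith), if_neg (by linarith), if_neg (by linarith), if_pos (by linarith), if_neg (by linarith), if_neg (by linarith), if_neg (by linarith)]
    have e : -2 * hh + 1 * Gl l (θ - 57) + 2 * hh = Gl l (θ - 57) := by ring
    rw [e, Gi_Gl h0 h1 (by linarith) (by linarith)]; ring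
  rcases le_or_gt θ 60 with t16 | t16
  · have w := wm9 (θ := θ) (by linarith) (by linarith)
    have hx := w.hx
    have hz := w.hz l
    rw [X_of_le_neg_one (by linarith)] at hx
    rw [Gl_lo (by linarith)] at hz
    unfold Pm; rw [hz, hx, if_neg (by linarith), if_neg (by linarith), if_neg (by linarith), if_neg (by linarith), if_pos (by linarith), if_neg (by linarith), if_neg (by linarith), if_neg (by linarith)]
    linarith
  rcases lt_or_ge θ 62 with t17 | t17
  · have w := wm9 (θ := θ) (by linarith) (by linarith)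
    have hx := w.hx
    have hz := w.hz l
    have g := Gl_lt h0 h1 (u := θ - 61) (by linarith) (by linarith)
    have b := X_lt_one (u := θ - 61) (abs_lt.2 ⟨by linarith, by linarith⟩)
    have b' := X_nonneg (θ - 61)
    unfold Pm; rw [hz, hx, if_neg (by linarith), if_neg (by linarith), if_neg (by linarith), if_pos (by linarith), if_neg (by linarith), if_neg (by linarith), if_neg (by linarith)]
    have e : 0 + 1 * Gl l (θ - 61) = Gl l (θ - 61) := by ring
    rw [e, Gi_Gl h0 h1 (by linarith) (by linarith)]; ring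
  rcases le_or_gt θ 64 with t18 | t18
  · have w := wm10 (θ := θ) (by linarith)
    have hx := w.hx
    have hz := w.hz l
    rw [X_of_le_neg_one (by linarith)] at hx
    rw [Gl_lo (by linarith)] at hz
    unfold Pm; rw [hz, hx, if_neg (by linarith), if_neg (by linarith), if_pos (by linarith), if_neg (by linarith), if_neg (by linarith)]
    linarith
  have w := wm10 (θ := θ) (by linarith)
  have hx := w.hx
  have hz := w.hz l
  have g := Gl_lt h0 h1 (u := θ - 65) (by linarith) (by linarith)
  have b := X_lt_one (u := θ - 65) (abs_lt.2 ⟨by linarith, by linarith⟩)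
  have b' := X_nonneg (θ - 65)
  unfold Pm; rw [hz, hx, if_neg (by linarith), if_pos (by linarith), if_neg (by linarith)]
  have e : 2 * hh + 1 * Gl l (θ - 65) - 2 * hh = Gl l (θ - 65) := by ring
  rw [e, Gi_Gl h0 h1 (by linarith) (by linarith)]; ring

lemma xp_strictMonoOn : StrictMonoOn xp (Icc 44 56) := by
  intro a ha b hb hab
  rw [(wp_mid ha.1 ha.2).1, (wp_mid hb.1 hb.2).1]
  have := S_monotone (show a - 50 ≤ b - 50 by linarith)
  linarith

/-- a left inverse of the front of the second knot -/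
def Pp (l x z : ℝ) : ℝ :=
  if 3 * hh ≤ z then -x else
  if hh < z then (if x < 0 then 11 - Gi l (z - 2 * hh) else 65 + Gi l (z - 2 * hh)) else
  if hh ≤ z then (if x < 6 then x + 22 else x + 54) else
  if -hh < z then (if x < 6 then 27 - Gi l z else 61 + Gi l z) else
  if -hh ≤ z then (if x < 6 then 32 - x else 68 - x) else
  if -3 * hh < z then (if x < 0 then 43 - Gi l (z + 2 * hh) else 57 + Gi l (z + 2 * hh)) else
  Function.invFunOn xp (Icc 44 56) x

lemma Pp_eq {l θ : ℝ} (h0 : 0 ≤ l) (h1 : l ≤ 1) (hθ' : θ < 66) :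
    Pp l (xp θ) (zp l θ) = θ := by
  have hp := hh_pos
  rcases le_or_gt θ 10 with t0 | t0
  · have w := wp1 (θ := θ) (by linarith)
    have hx := w.hx
    have hz := w.hz l
    rw [X_of_le_neg_one (by linarith)] at hx
    rw [Gl_lo (by linarith)] at hz
    unfold Pp; rw [hz, hx, if_pos (by linarith)]
    linarith
  rcases lt_or_ge θ 12 with t1 | t1
  · have w := wp1 (θ := θ) (by linarith)
    have hx := w.hx
    have hz := w.hz l
    have g := Gl_lt h0 h1 (u := θ - 11) (by linarith) (by linarith)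
    have b := X_lt_one (u := θ - 11) (abs_lt.2 ⟨by linarith, by linarith⟩)
    have b' := X_nonneg (θ - 11)
    unfold Pp; rw [hz, hx, if_neg (by linarith), if_pos (by linarith), if_pos (by linarith)]
    have e : 2 * hh + -1 * Gl l (θ - 11) - 2 * hh = -Gl l (θ - 11) := by ring
    rw [e, Gi_neg_Gl h0 h1 (by linarith) (by linarith)]; ring
  rcases le_or_gt θ 26 with t2 | t2
  · have w := wp2 (θ := θ) (by linarith) (by linarith)
    have hx := w.hx
    have hz := w.hz l
    rw [X_of_le_neg_one (by linarith)] at hx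
    rw [Gl_lo (by linarith)] at hz
    unfold Pp; rw [hz, hx, if_neg (by linarith), if_neg (by linarith), if_pos (by linarith), if_pos (by linarith)]
    linarith
  rcases lt_or_ge θ 28 with t3 | t3
  · have w := wp2 (θ := θ) (by linarith) (by linarith)
    have hx := w.hx
    have hz := w.hz l
    have g := Gl_lt h0 h1 (u := θ - 27) (by linarith) (by linarith)
    have b := X_lt_one (u := θ - 27) (abs_lt.2 ⟨by linarith, by linarith⟩)
    have b' := X_nonneg (θ - 27)
    unfold Pp; rw [hz, hx, if_neg (by linarith), if_neg (by linarith), if_neg (by linarith), if_pos (by linarith), if_pos (by linarith)]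
    have e : 0 + -1 * Gl l (θ - 27) = -Gl l (θ - 27) := by ring
    rw [e, Gi_neg_Gl h0 h1 (by linarith) (by linarith)]; ring
  rcases le_or_gt θ 42 with t4 | t4
  · have w := wp3 (θ := θ) (by linarith) (by linarith)
    have hx := w.hx
    have hz := w.hz l
    rw [X_of_le_neg_one (by linarith)] at hx
    rw [Gl_lo (by linarith)] at hz
    unfold Pp; rw [hz, hx, if_neg (by linarith), if_neg (by linarith), if_neg (by linarith), if_neg (by linarith), if_pos (by linarith), if_pos (by linarith)]
    linarith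
  rcases lt_or_ge θ 44 with t5 | t5
  · have w := wp3 (θ := θ) (by linarith) (by linarith)
    have hx := w.hx
    have hz := w.hz l
    have g := Gl_lt h0 h1 (u := θ - 43) (by linarith) (by linarith)
    have b := X_lt_one (u := θ - 43) (abs_lt.2 ⟨by linarith, by linarith⟩)
    have b' := X_nonneg (θ - 43)
    unfold Pp; rw [hz, hx, if_neg (by linarith), if_neg (by linarith), if_neg (by linarith), if_neg (by linarith), if_neg (by linarith), if_pos (by linarith), if_pos (by linarith)]
    have e : -2 * hh + -1 * Gl l (θ - 43) + 2 * hh = -Gl l (θ - 43) := by ring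
    rw [e, Gi_neg_Gl h0 h1 (by linarith) (by linarith)]; ring
  rcases le_or_gt θ 56 with t6 | t6
  · have hz := (wp_mid (θ := θ) (by linarith) (by linarith)).2.2.1 l
    unfold Pp; rw [hz, if_neg (by linarith), if_neg (by linarith), if_neg (by linarith), if_neg (by linarith), if_neg (by linarith), if_neg (by linarith)]
    exact xp_strictMonoOn.injOn.leftInvOn_invFunOn ⟨by linarith, by linarith⟩
  rcases lt_or_ge θ 58 with t7 | t7
  · have w := wp4 (θ := θ) (by linarith) (by linarith)
    have hx := w.hx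
    have hz := w.hz l
    have g := Gl_lt h0 h1 (u := θ - 57) (by linarith) (by linarith)
    have b := X_lt_one (u := θ - 57) (abs_lt.2 ⟨by linarith, by linarith⟩)
    have b' := X_nonneg (θ - 57)
    unfold Pp; rw [hz, hx, if_neg (by linarith), if_neg (by linarith), if_neg (by linarith), if_neg (by linarith), if_neg (by linarith), if_pos (by linarith), if_neg (by linarith)]
    have e : -2 * hh + 1 * Gl l (θ - 57) + 2 * hh = Gl l (θ - 57) := by ring
    rw [e, Gi_Gl h0 h1 (by linarith) (by linarith)]; ring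
  rcases le_or_gt θ 60 with t8 | t8
  · have w := wp5 (θ := θ) (by linarith) (by linarith)
    have hx := w.hx
    have hz := w.hz l
    rw [X_of_le_neg_one (by linarith)] at hx
    rw [Gl_lo (by linarith)] at hz
    unfold Pp; rw [hz, hx, if_neg (by linarith), if_neg (by linarith), if_neg (by linarith), if_neg (by linarith), if_pos (by linarith), if_neg (by linarith)]
    linarith
  rcases lt_or_ge θ 62 with t9 | t9
  · have w := wp5 (θ := θ) (by linarith) (by linarith)
    have hx := w.hx
    have hz := w.hz l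
    have g := Gl_lt h0 h1 (u := θ - 61) (by linarith) (by linarith)
    have b := X_lt_one (u := θ - 61) (abs_lt.2 ⟨by linarith, by linarith⟩)
    have b' := X_nonneg (θ - 61)
    unfold Pp; rw [hz, hx, if_neg (by linarith), if_neg (by linarith), if_neg (by linarith), if_pos (by linarith), if_neg (by linarith)]
    have e : 0 + 1 * Gl l (θ - 61) = Gl l (θ - 61) := by ring
    rw [e, Gi_Gl h0 h1 (by linarith) (by linarith)]; ring
  rcases le_or_gt θ 64 with t10 | t10
  · have w := wp6 (θ := θ) (by linarith)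
    have hx := w.hx
    have hz := w.hz l
    rw [X_of_le_neg_one (by linarith)] at hx
    rw [Gl_lo (by linarith)] at hz
    unfold Pp; rw [hz, hx, if_neg (by linarith), if_neg (by linarith), if_pos (by linarith), if_neg (by linarith)]
    linarith
  have w := wp6 (θ := θ) (by linarith)
  have hx := w.hx
  have hz := w.hz l
  have g := Gl_lt h0 h1 (u := θ - 65) (by linarith) (by linarith)
  have b := X_lt_one (u := θ - 65) (abs_lt.2 ⟨by linarith, by linarith⟩)
  have b' := X_nonneg (θ - 65)
  unfold Pp; rw [hz, hx, if_neg (by linarith), if_pos (by linarith), if_neg (by linarith)]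
  have e : 2 * hh + 1 * Gl l (θ - 65) - 2 * hh = Gl l (θ - 65) := by ring
  rw [e, Gi_Gl h0 h1 (by linarith) (by linarith)]; ring

/-! ### Coverings by windows -/

lemma wm_cover (θ : ℝ) : ∃ a j ε c δ, (ε = 1 ∨ ε = -1) ∧ (δ = 1 ∨ δ = -1) ∧
    Wm a j ε c δ θ := by
  rcases le_or_gt θ 14 with t1 | t1
  · exact ⟨_, _, _, _, _, by norm_num, by norm_num, wm1 t1⟩
  rcases le_or_gt θ 18 with t2 | t2
  · exact ⟨_, _, _, _, _, by norm_num, by norm_num, wm2 (by linarith) t2⟩
  rcases le_or_gt θ 28 with t3 | t3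
  · exact ⟨_, _, _, _, _, by norm_num, by norm_num, wm3 (by linarith) t3⟩
  rcases le_or_gt θ 32 with t4 | t4
  · exact ⟨_, _, _, _, _, by norm_num, by norm_num, wm4 (by linarith) t4⟩
  rcases le_or_gt θ 42 with t5 | t5
  · exact ⟨_, _, _, _, _, by norm_num, by norm_num, wm5 (by linarith) t5⟩
  rcases le_or_gt θ 46 with t6 | t6
  · exact ⟨_, _, _, _, _, by norm_num, by norm_num, wm6 (by linarith) t6⟩
  rcases le_or_gt θ 56 with t7 | t7
  · exact ⟨_, _, _, _, _, by norm_num, by norm_num, wm7 (by linarith) t7⟩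
  rcases le_or_gt θ 60 with t8 | t8
  · exact ⟨_, _, _, _, _, by norm_num, by norm_num, wm8 (by linarith) t8⟩
  rcases le_or_gt θ 64 with t9 | t9
  · exact ⟨_, _, _, _, _, by norm_num, by norm_num, wm9 (by linarith) t9⟩
  · exact ⟨_, _, _, _, _, by norm_num, by norm_num, wm10 (by linarith)⟩

lemma wp_cover (θ : ℝ) : (∃ a j ε c δ, (ε = 1 ∨ ε = -1) ∧ (δ = 1 ∨ δ = -1) ∧
    Wp a j ε c δ θ) ∨ (44 ≤ θ ∧ θ ≤ 56) := by
  rcases le_or_gt θ 26 with t1 | t1
  · exact Or.inl ⟨_, _, _, _, _, by norm_num, by norm_num, wp1 t1⟩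
  rcases le_or_gt θ 42 with t2 | t2
  · exact Or.inl ⟨_, _, _, _, _, by norm_num, by norm_num, wp2 (by linarith) t2⟩
  rcases le_or_gt θ 49 with t3 | t3
  · exact Or.inl ⟨_, _, _, _, _, by norm_num, by norm_num, wp3 (by linarith) t3⟩
  rcases le_or_gt θ 56 with t4 | t4
  · exact Or.inr ⟨by linarith, t4⟩
  rcases le_or_gt θ 60 with t5 | t5
  · exact Or.inl ⟨_, _, _, _, _, by norm_num, by norm_num, wp4 (by linarith) t5⟩
  rcases le_or_gt θ 64 with t6 | t6
  · exact Or.inl ⟨_, _, _, _, _, by norm_num, by norm_num, wp5 (by linarith) t6⟩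
  · exact Or.inl ⟨_, _, _, _, _, by norm_num, by norm_num, wp6 (by linarith)⟩

lemma Win.leg {x y : ℝ → ℝ} {z : ℝ → ℝ → ℝ} {x1 y1 : ℝ → ℝ} {z1 : ℝ → ℝ → ℝ}
    {a j ε c δ θ : ℝ} (h : Win x y z x1 y1 z1 a j ε c δ θ) (hε : ε = 1 ∨ ε = -1) :
    z1 0 θ = y θ * x1 θ := by
  rw [h.hz1, h.hy, h.hx1, Gd_zero]
  rcases hε with rfl | rfl <;> ring

lemma Win.imm {x y : ℝ → ℝ} {z : ℝ → ℝ → ℝ} {x1 y1 : ℝ → ℝ} {z1 : ℝ → ℝ → ℝ}
    {a j ε c δ θ l : ℝ} (h : Win x y z x1 y1 z1 a j ε c δ θ) (hε : ε = 1 ∨ ε = -1)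
    (hδ : δ = 1 ∨ δ = -1) (hx : x1 θ = 0) (hy : l = 0 → y1 θ = 0) (hz : z1 l θ = 0) : False := by
  have e0 : ε ≠ 0 := by rcases hε with rfl | rfl <;> norm_num
  have d0 : δ ≠ 0 := by rcases hδ with rfl | rfl <;> norm_num
  rw [h.hx1] at hx
  have hS : S (θ - a) = 0 := (mul_eq_zero.1 hx).resolve_left e0
  have hu : θ - a = 0 := S_eq_zero.1 hS
  rw [h.hz1, hu] at hz
  have hz2 := (mul_eq_zero.1 hz).resolve_left d0
  unfold Gd at hz2
  rw [S_zero, zero_mul, mul_zero, zero_add] at hz2
  have p1 := S1_pos (u := 0) (by simp)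
  have p2 := hh_pos
  have hl : l = 0 := (mul_eq_zero.1 hz2).resolve_right (mul_pos p2 p1).ne'
  have hy2 := hy hl
  rw [h.hy1, hu] at hy2
  exact mul_ne_zero (mul_ne_zero e0 d0) Y1_zero_pos.ne' hy2

lemma F_imm01 {s l θ : ℝ} (hs : s = 0 ∨ s = 1) : F1 s l θ ≠ 0 := by
  intro h
  have hx := congrArg Prod.fst h
  have hy := congrArg (fun q : ℝ × ℝ × ℝ => q.2.1) h
  have hz := congrArg (fun q : ℝ × ℝ × ℝ => q.2.2) h
  rcases hs with rfl | rfl
  · simp [F1] at hx hy hz
    obtain ⟨a, j, ε, c, δ, hε, hδ, w⟩ := wm_cover θ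
    exact w.imm hε hδ hx (fun hl => by rw [hl] at hy; simpa using hy) hz
  · simp [F1] at hx hy hz
    rcases wp_cover θ with ⟨a, j, ε, c, δ, hε, hδ, w⟩ | ⟨t1, t2⟩
    · exact w.imm hε hδ hx (fun hl => by rw [hl] at hy; simpa using hy) hz
    · rw [(wp_mid t1 t2).2.2.2.1] at hx
      linarith [S1_nonneg (θ - 50)]

lemma xm1_top {θ : ℝ} (h : θ ≤ 10) : xm1 θ = -1 := by
  rw [(wm1 (by linarith)).hx1, S_neg_one (by linarith)]; ring
lemma xp1_top {θ : ℝ} (h : θ ≤ 10) : xp1 θ = -1 := by
  rw [(wp1 (by linarith)).hx1, S_neg_one (by linarith)]; ring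
lemma xm1_top' {θ : ℝ} (h : 66 ≤ θ) : xm1 θ = -1 := by
  rw [(wm10 (by linarith)).hx1, S_one (by linarith)]; ring
lemma xp1_top' {θ : ℝ} (h : 66 ≤ θ) : xp1 θ = -1 := by
  rw [(wp6 (by linarith)).hx1, S_one (by linarith)]; ring

lemma F_imm1 {s θ : ℝ} : F1 s 1 θ ≠ 0 := by
  intro h
  have hx := congrArg Prod.fst h
  have hy := congrArg (fun q : ℝ × ℝ × ℝ => q.2.1) h
  simp [F1] at hx hy
  rcases le_or_gt θ 10 with t | t
  · rw [xm1_top t, xp1_top t] at hx; linarith
  rcases le_or_gt 66 θ with t2 | t2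
  · rw [xm1_top' t2, xp1_top' t2] at hx; linarith
  · unfold ys1 at hy
    have p1 := S1_pos (u := (θ - 38) / 28) (abs_lt.2 ⟨by linarith, by linarith⟩)
    rw [S1_zero (u := θ / 10) (le_abs.2 (Or.inl (by linarith))),
      S1_zero (u := (θ - 76) / 10) (le_abs.2 (Or.inr (by linarith)))] at hy
    linarith

lemma zm_lt {θ : ℝ} (h : 10 < θ) (h' : θ < 66) : zm 1 θ < 3 * hh := by
  have hp := hh_pos
  have key : ∀ {a u : ℝ}, -1 < u → - hh < Gl 1 u := by
    intro a u hu
    rcases lt_or_ge u 1 with t | t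
    · exact (Gl_lt zero_le_one le_rfl hu t).1
    · rw [Gl_hi t]; linarith
  have key2 : ∀ {a u : ℝ}, u < 1 → Gl 1 u < hh := by
    intro a u hu
    rcases le_or_gt u (-1) with t | t
    · rw [Gl_lo t]; linarith
    · exact (Gl_lt zero_le_one le_rfl t hu).2
  have key3 : ∀ u : ℝ, -hh ≤ Gl 1 u ∧ Gl 1 u ≤ hh := by
    intro u
    rcases le_or_gt u (-1) with t | t
    · rw [Gl_lo t]; constructor <;> linarith
    · rcases lt_or_ge u 1 with t' | t'
      · have := Gl_lt zero_le_one le_rfl t t'; exact ⟨this.1.le, this.2.le⟩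
      · rw [Gl_hi t']; constructor <;> linarith
  rcases le_or_gt θ 14 with t1 | t1
  · rw [(wm1 t1).hz]
    have := key (a := 0) (u := θ - 11) (by linarith)
    linarith
  rcases le_or_gt 62 θ with t2 | t2
  · rw [(wm10 t2).hz]
    have := key2 (a := 0) (u := θ - 65) (by linarith)
    linarith
  have k3 := key3
  rcases le_or_gt θ 18 with t | t
  · rw [(wm2 (by linarith) t).hz]; linarith [(k3 (θ - 15)).1]
  rcases le_or_gt θ 28 with t | t
  · rw [(wm3 (by linarith) t).hz]; linarith [(k3 (θ - 19)).1]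
  rcases le_or_gt θ 32 with t | t
  · rw [(wm4 (by linarith) t).hz]; linarith [(k3 (θ - 29)).2]
  rcases le_or_gt θ 42 with t | t
  · rw [(wm5 (by linarith) t).hz]; linarith [(k3 (θ - 33)).2]
  rcases le_or_gt θ 46 with t | t
  · rw [(wm6 (by linarith) t).hz]; linarith [(k3 (θ - 43)).1]
  rcases le_or_gt θ 56 with t | t
  · rw [(wm7 (by linarith) t).hz]; linarith [(k3 (θ - 47)).1]
  rcases le_or_gt θ 60 with t | t
  · rw [(wm8 (by linarith) t).hz]; linarith [(k3 (θ - 57)).2]
  · rw [(wm9 (by linarith) (by linarith)).hz]; linarith [(k3 (θ - 61)).2]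

lemma zp_lt {θ : ℝ} (h : 10 < θ) (h' : θ < 66) : zp 1 θ < 3 * hh := by
  have hp := hh_pos
  have key : ∀ {a u : ℝ}, -1 < u → - hh < Gl 1 u := by
    intro a u hu
    rcases lt_or_ge u 1 with t | t
    · exact (Gl_lt zero_le_one le_rfl hu t).1
    · rw [Gl_hi t]; linarith
  have key2 : ∀ {a u : ℝ}, u < 1 → Gl 1 u < hh := by
    intro a u hu
    rcases le_or_gt u (-1) with t | t
    · rw [Gl_lo t]; linarith
    · exact (Gl_lt zero_le_one le_rfl t hu).2
  have key3 : ∀ u : ℝ, -hh ≤ Gl 1 u ∧ Gl 1 u ≤ hh := by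
    intro u
    rcases le_or_gt u (-1) with t | t
    · rw [Gl_lo t]; constructor <;> linarith
    · rcases lt_or_ge u 1 with t' | t'
      · have := Gl_lt zero_le_one le_rfl t t'; exact ⟨this.1.le, this.2.le⟩
      · rw [Gl_hi t']; constructor <;> linarith
  rcases le_or_gt θ 26 with t1 | t1
  · rw [(wp1 t1).hz]
    have := key (a := 0) (u := θ - 11) (by linarith)
    linarith
  rcases le_or_gt 62 θ with t2 | t2
  · rw [(wp6 t2).hz]
    have := key2 (a := 0) (u := θ - 65) (by linarith)
    linarith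
  have k3 := key3
  rcases le_or_gt θ 42 with t | t
  · rw [(wp2 (by linarith) t).hz]; linarith [(k3 (θ - 27)).1]
  rcases le_or_gt θ 49 with t | t
  · rw [(wp3 (by linarith) t).hz]; linarith [(k3 (θ - 43)).1]
  rcases le_or_gt θ 56 with t | t
  · rw [(wp_mid (by linarith) t).2.2.1]; linarith
  rcases le_or_gt θ 60 with t | t
  · rw [(wp4 (by linarith) t).hz]; linarith [(k3 (θ - 57)).2]
  · rw [(wp5 (by linarith) (by linarith)).hz]; linarith [(k3 (θ - 61)).2]

lemma F_inj01 {s l θ θ' : ℝ} (hs : s = 0 ∨ s = 1) (h0 : 0 ≤ l) (h1 : l ≤ 1) (hθ : θ < 66)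
    (hθ' : θ' < 66) (h : F s l θ = F s l θ') : θ = θ' := by
  have hx := congrArg Prod.fst h
  have hz := congrArg (fun q : ℝ × ℝ × ℝ => q.2.2) h
  rcases hs with rfl | rfl
  · simp [F] at hx hz
    rw [← Pm_eq h0 h1 hθ, ← Pm_eq h0 h1 hθ', hx, hz]
  · simp [F] at hx hz
    rw [← Pp_eq h0 h1 hθ, ← Pp_eq h0 h1 hθ', hx, hz]

lemma F_inj1 {s θ θ' : ℝ} (s0 : 0 ≤ s) (s1 : s ≤ 1) (h1 : -10 ≤ θ) (h2 : θ < 66)
    (h1' : -10 ≤ θ') (h2' : θ' < 66) (h : F s 1 θ = F s 1 θ') : θ = θ' := by
  have hy := congrArg (fun q : ℝ × ℝ × ℝ => q.2.1) h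
  have hz := congrArg (fun q : ℝ × ℝ × ℝ => q.2.2) h
  simp only [F, sub_self, zero_mul, zero_add, one_mul] at hy hz
  have zlt : ∀ t : ℝ, 10 < t → t < 66 → (1 - s) * zm 1 t + s * zp 1 t < 3 * hh := by
    intro t t1 t2
    have a1 := zm_lt t1 t2
    have a2 := zp_lt t1 t2
    rcases s0.eq_or_lt with hs | hs
    · rw [← hs]; linarith
    · have b1 : (1 - s) * zm 1 t ≤ (1 - s) * (3 * hh) :=
        mul_le_mul_of_nonneg_left a1.le (by linarith)
      have b2 : s * zp 1 t < s * (3 * hh) := mul_lt_mul_of_pos_left a2 hs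
      linarith
  have ztop : ∀ t : ℝ, t ≤ 10 → (1 - s) * zm 1 t + s * zp 1 t = 3 * hh := by
    intro t t1
    rw [zm_top t1, zp_top t1]; ring
  rcases le_or_gt θ 10 with t | t <;> rcases le_or_gt θ' 10 with t' | t'
  · rw [ys_A t, ys_A t'] at hy
    have := S_strictMonoOn.injOn (show θ / 10 ∈ Icc (-1:ℝ) 1 from ⟨by linarith, by linarith⟩)
      (show θ' / 10 ∈ Icc (-1:ℝ) 1 from ⟨by linarith, by linarith⟩) hy
    linarith
  · have a1 := ztop θ t
    have a2 := zlt θ' t' h2'
    exfalso; linarith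
  · have a1 := ztop θ' t'
    have a2 := zlt θ t h2
    exfalso; linarith
  · rw [ys_B t.le h2.le, ys_B t'.le h2'.le] at hy
    have := S_strictMonoOn.injOn
      (show (θ - 38) / 28 ∈ Icc (-1:ℝ) 1 from ⟨by linarith, by linarith⟩)
      (show (θ' - 38) / 28 ∈ Icc (-1:ℝ) 1 from ⟨by linarith, by linarith⟩) (by linarith)
    linarith

/-- the admissible parameters -/
def Adm (s l : ℝ) : Prop := 0 ≤ s ∧ s ≤ 1 ∧ 0 ≤ l ∧ l ≤ 1 ∧ (s = 0 ∨ s = 1 ∨ l = 1)

lemma F_inj {s l θ θ' : ℝ} (ha : Adm s l) (h1 : -10 ≤ θ) (h2 : θ < 66)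
    (h1' : -10 ≤ θ') (h2' : θ' < 66) (h : F s l θ = F s l θ') : θ = θ' := by
  obtain ⟨s0, s1, l0, l1, h3 | h3 | h3⟩ := ha
  · exact F_inj01 (Or.inl h3) l0 l1 h2 h2' h
  · exact F_inj01 (Or.inr h3) l0 l1 h2 h2' h
  · subst h3; exact F_inj1 s0 s1 h1 h2 h1' h2' h

lemma F_imm {s l θ : ℝ} (ha : Adm s l) : F1 s l θ ≠ 0 := by
  obtain ⟨s0, s1, l0, l1, h3 | h3 | h3⟩ := ha
  · exact F_imm01 (Or.inl h3)
  · exact F_imm01 (Or.inr h3)
  · subst h3; exact F_imm1

lemma Fp_inj {s l θ θ' : ℝ} (ha : Adm s l) (h : Fp s l θ = Fp s l θ') :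
    ∃ n : ℤ, θ' = θ + n * 76 := by
  -- move to the fundamental domain `[-10, 66)`
  have red : ∀ t : ℝ, ∃ k : ℤ, -10 ≤ t - 76 * k ∧ t - 76 * k < 66 := by
    intro t
    refine ⟨⌊(t + 10) / 76⌋, ?_, ?_⟩
    · have h1 := Int.floor_le ((t + 10) / 76); linarith
    · have h2 := Int.lt_floor_add_one ((t + 10) / 76); linarith
  obtain ⟨k, k1, k2⟩ := red θ
  obtain ⟨k', k1', k2'⟩ := red θ'
  rw [Fp_eq k k1 (by linarith), Fp_eq k' k1' (by linarith)] at h
  have := F_inj ha k1 k2 k1' k2' h
  exact ⟨k' - k, by push_cast; linarith⟩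

lemma Fp_isKnot {s l : ℝ} (ha : Adm s l) : IsKnot 76 (Fp s l) where
  period_pos := by norm_num
  smooth := by
    have : ContDiff ℝ ∞ (fun θ : ℝ => (s, l, θ)) := by fun_prop
    exact Fp_contDiff.comp this
  periodic := Fp_periodic s l
  injective := fun _ _ h => Fp_inj ha h
  immersed := fun θ => by
    rw [(Fp_hasDerivAt s l θ).deriv]
    exact F_imm ha

/-- the Legendrian knot at the negative end -/
def γm : ℝ → R3 := Fp 0 0
/-- the Legendrian knot at the positive end -/
def γp : ℝ → R3 := Fp 1 0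

lemma F_leg {s θ : ℝ} (hs : s = 0 ∨ s = 1) : contactForm (F s 0 θ) (F1 s 0 θ) = 0 := by
  rcases hs with rfl | rfl
  · obtain ⟨a, j, ε, c, δ, hε, hδ, w⟩ := wm_cover θ
    simp [contactForm, F, F1, w.leg hε]
  · rcases wp_cover θ with ⟨a, j, ε, c, δ, hε, hδ, w⟩ | ⟨t1, t2⟩
    · simp [contactForm, F, F1, w.leg hε]
    · obtain ⟨_, e2, _, _, _, e6⟩ := wp_mid t1 t2
      simp [contactForm, F, F1, e2, e6]

lemma γm_leg : IsLegendrianKnot 76 γm where
  knot := Fp_isKnot ⟨le_rfl, zero_le_one, le_rfl, zero_le_one, Or.inl rfl⟩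
  legendrian := fun s => by
    unfold γm
    rw [(Fp_hasDerivAt 0 0 s).deriv]
    exact F_leg (Or.inl rfl)

lemma γp_leg : IsLegendrianKnot 76 γp where
  knot := Fp_isKnot ⟨zero_le_one, le_rfl, le_rfl, zero_le_one, Or.inr (Or.inl rfl)⟩
  legendrian := fun s => by
    unfold γp
    rw [(Fp_hasDerivAt 1 0 s).deriv]
    exact F_leg (Or.inr rfl)

end

end Pool.Agent.N565.LC
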