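import Pool.Agent.N565.LC.Curve

/-!
# A family of closed curves
-/

set_option autoImplicit false

namespace Pool.Agent.N565.LC

open Set Filter
open scoped Topology ContDiff

noncomputable section

/-- the height function used in the isotopy -/
def ys (θ : ℝ) : ℝ := S (θ / 10) - S ((θ - 38) / 28) + S ((θ - 76) / 10)
/-- its derivative -/
def ys1 (θ : ℝ) : ℝ := S1 (θ / 10) / 10 - S1 ((θ - 38) / 28) / 28 + S1 ((θ - 76) / 10) / 10

/-- the family of curves -/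
def F (s l θ : ℝ) : ℝ × ℝ × ℝ := ((1 - s) * xm θ + s * xp θ,
  (1 - l) * ((1 - s) * ym θ + s * yp θ) + l * ys θ, (1 - s) * zm l θ + s * zp l θ)
/-- its derivative with respect to `θ` -/
def F1 (s l θ : ℝ) : ℝ × ℝ × ℝ := ((1 - s) * xm1 θ + s * xp1 θ,
  (1 - l) * ((1 - s) * ym1 θ + s * yp1 θ) + l * ys1 θ, (1 - s) * zm1 l θ + s * zp1 l θ)

lemma shift {f f' : ℝ → ℝ} (h : ∀ u, HasDerivAt f (f' u) u) (a θ : ℝ) :
    HasDerivAt (fun θ => f (θ - a)) (f' (θ - a)) θ := by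
  have := (h (θ - a)).comp θ ((hasDerivAt_id θ).sub_const a)
  rw [mul_one] at this
  exact this

lemma scale {f f' : ℝ → ℝ} (h : ∀ u, HasDerivAt f (f' u) u) (a b θ : ℝ) :
    HasDerivAt (fun θ => f ((θ - a) / b)) (f' ((θ - a) / b) / b) θ := by
  have := (h ((θ - a) / b)).comp θ (((hasDerivAt_id θ).sub_const a).div_const b)
  convert! this using 1
  ring

lemma xm_hasDerivAt (θ : ℝ) : HasDerivAt xm (xm1 θ) θ := by
  have h := fun a => shift R_hasDerivAt a θ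
  exact (hasDerivAt_neg θ).add ((((((((((h 11).sub (h 15)).add (h 19)).sub (h 29)).add (h 33)).sub
    (h 43)).add (h 47)).sub (h 57)).add (h 61)).sub (h 65))

lemma ym_hasDerivAt (θ : ℝ) : HasDerivAt ym (ym1 θ) θ := by
  have h := fun a => shift Y_hasDerivAt a θ
  exact (((((((((h 11).neg.add (h 15)).sub (h 19)).sub (h 29)).add (h 33)).add
    (h 43)).sub (h 47)).sub (h 57)).add (h 61)).sub (h 65)

lemma zm_hasDerivAt (l θ : ℝ) : HasDerivAt (zm l) (zm1 l θ) θ := by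
  have h := fun a => shift (Gp_hasDerivAt l) a θ
  have := (((((((((((hasDerivAt_const θ (3 * hh)).sub (h 11)).sub (h 15)).sub (h 19)).add (h 29)).add
    (h 33)).sub (h 43)).sub (h 47)).add (h 57)).add (h 61)).add (h 65))
  convert! this using 1
  unfold zm1; ring

lemma xp_hasDerivAt (θ : ℝ) : HasDerivAt xp (xp1 θ) θ := by
  have h := fun a => shift R_hasDerivAt a θ
  have h2 := ((shift S_hasDerivAt 50 θ).const_add 1).const_mul 4
  exact ((hasDerivAt_neg θ).add ((((((h 11).sub (h 27)).add (h 43)).sub (h 57)).add (h 61)).sub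
    (h 65))).add h2

lemma yp_hasDerivAt (θ : ℝ) : HasDerivAt yp (yp1 θ) θ := by
  have h := fun a => shift Y_hasDerivAt a θ
  exact (((((h 11).neg.add (h 27)).sub (h 43)).sub (h 57)).add (h 61)).sub (h 65)

lemma zp_hasDerivAt (l θ : ℝ) : HasDerivAt (zp l) (zp1 l θ) θ := by
  have h := fun a => shift (Gp_hasDerivAt l) a θ
  have := ((((((hasDerivAt_const θ (3 * hh)).sub (h 11)).sub (h 27)).sub (h 43)).add (h 57)).add
    (h 61)).add (h 65)
  convert! this using 1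
  unfold zp1; ring

lemma ys_hasDerivAt (θ : ℝ) : HasDerivAt ys (ys1 θ) θ := by
  have h := fun a b => scale S_hasDerivAt a b θ
  have h0 := h 0 10
  simp only [sub_zero] at h0
  exact (h0.sub (h 38 28)).add (h 76 10)

lemma F_hasDerivAt (s l θ : ℝ) : HasDerivAt (F s l) (F1 s l θ) θ := by
  have a1 := ((xm_hasDerivAt θ).const_mul (1 - s)).add ((xp_hasDerivAt θ).const_mul s)
  have a2 := ((((ym_hasDerivAt θ).const_mul (1 - s)).add ((yp_hasDerivAt θ).const_mul s)).const_mul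
    (1 - l)).add ((ys_hasDerivAt θ).const_mul l)
  have a3 := ((zm_hasDerivAt l θ).const_mul (1 - s)).add ((zp_hasDerivAt l θ).const_mul s)
  exact a1.prodMk (a2.prodMk a3)

lemma xm_contDiff : ContDiff ℝ ∞ xm := by
  have h : ∀ a, ContDiff ℝ ∞ (fun θ => R (θ - a)) := fun a =>
    R_contDiff.comp (contDiff_id.sub contDiff_const)
  unfold xm; fun_prop

lemma ym_contDiff : ContDiff ℝ ∞ ym := by
  have h : ∀ a, ContDiff ℝ ∞ (fun θ => Y (θ - a)) := fun a =>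
    Y_contDiff.comp (contDiff_id.sub contDiff_const)
  unfold ym; fun_prop

lemma xp_contDiff : ContDiff ℝ ∞ xp := by
  have h : ∀ a, ContDiff ℝ ∞ (fun θ => R (θ - a)) := fun a =>
    R_contDiff.comp (contDiff_id.sub contDiff_const)
  have h2 : ContDiff ℝ ∞ (fun θ => S (θ - 50)) :=
    S_contDiff.comp (contDiff_id.sub contDiff_const)
  unfold xp; fun_prop

lemma yp_contDiff : ContDiff ℝ ∞ yp := by
  have h : ∀ a, ContDiff ℝ ∞ (fun θ => Y (θ - a)) := fun a =>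
    Y_contDiff.comp (contDiff_id.sub contDiff_const)
  unfold yp; fun_prop

lemma ys_contDiff : ContDiff ℝ ∞ ys := by
  have h0 : ContDiff ℝ ∞ (fun θ => S (θ / 10)) := S_contDiff.comp (contDiff_id.div_const _)
  have h1 : ContDiff ℝ ∞ (fun θ => S ((θ - 38) / 28)) :=
    S_contDiff.comp ((contDiff_id.sub contDiff_const).div_const _)
  have h2 : ContDiff ℝ ∞ (fun θ => S ((θ - 76) / 10)) :=
    S_contDiff.comp ((contDiff_id.sub contDiff_const).div_const _)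
  unfold ys; fun_prop

lemma Gps_contDiff (a : ℝ) : ContDiff ℝ ∞ (fun q : ℝ × ℝ => Gp q.1 (q.2 - a)) :=
  Gp_contDiff.comp (contDiff_fst.prodMk (contDiff_snd.sub contDiff_const))

lemma zm_contDiff : ContDiff ℝ ∞ (fun q : ℝ × ℝ => zm q.1 q.2) := by
  have h := Gps_contDiff
  unfold zm; fun_prop

lemma zp_contDiff : ContDiff ℝ ∞ (fun q : ℝ × ℝ => zp q.1 q.2) := by
  have h := Gps_contDiff
  unfold zp; fun_prop

lemma F_contDiff : ContDiff ℝ ∞ (fun q : ℝ × ℝ × ℝ => F q.1 q.2.1 q.2.2) := by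
  have a1 : ContDiff ℝ ∞ (fun q : ℝ × ℝ × ℝ => q.1) := contDiff_fst
  have a2 : ContDiff ℝ ∞ (fun q : ℝ × ℝ × ℝ => q.2.1) := contDiff_fst.comp contDiff_snd
  have a3 : ContDiff ℝ ∞ (fun q : ℝ × ℝ × ℝ => q.2.2) := contDiff_snd.comp contDiff_snd
  have b1 : ContDiff ℝ ∞ (fun q : ℝ × ℝ × ℝ => xm q.2.2) := xm_contDiff.comp a3
  have b2 : ContDiff ℝ ∞ (fun q : ℝ × ℝ × ℝ => xp q.2.2) := xp_contDiff.comp a3
  have b3 : ContDiff ℝ ∞ (fun q : ℝ × ℝ × ℝ => ym q.2.2) := ym_contDiff.comp a3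
  have b4 : ContDiff ℝ ∞ (fun q : ℝ × ℝ × ℝ => yp q.2.2) := yp_contDiff.comp a3
  have b5 : ContDiff ℝ ∞ (fun q : ℝ × ℝ × ℝ => ys q.2.2) := ys_contDiff.comp a3
  have b6 : ContDiff ℝ ∞ (fun q : ℝ × ℝ × ℝ => zm q.2.1 q.2.2) := zm_contDiff.comp (a2.prodMk a3)
  have b7 : ContDiff ℝ ∞ (fun q : ℝ × ℝ × ℝ => zp q.2.1 q.2.2) := zp_contDiff.comp (a2.prodMk a3)
  unfold F
  exact (((contDiff_const.sub a1).mul b1).add (a1.mul b2)).prodMk
    ((((contDiff_const.sub a2).mul (((contDiff_const.sub a1).mul b3).add (a1.mul b4))).add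
      (a2.mul b5)).prodMk (((contDiff_const.sub a1).mul b6).add (a1.mul b7)))

/-! ### Values on the top strand -/

lemma xm_top {θ : ℝ} (h : θ ≤ 10) : xm θ = -θ := by
  rw [(wm1 (by linarith)).hx, X_of_le_neg_one (by linarith)]; ring
lemma ym_top {θ : ℝ} (h : θ ≤ 10) : ym θ = 0 := by
  rw [(wm1 (by linarith)).hy, Y_lo (by linarith)]; ring
lemma zm_top {l θ : ℝ} (h : θ ≤ 10) : zm l θ = 3 * hh := by
  rw [(wm1 (by linarith)).hz, Gl_lo (by linarith)]; ring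
lemma xp_top {θ : ℝ} (h : θ ≤ 10) : xp θ = -θ := by
  rw [(wp1 (by linarith)).hx, X_of_le_neg_one (by linarith)]; ring
lemma yp_top {θ : ℝ} (h : θ ≤ 10) : yp θ = 0 := by
  rw [(wp1 (by linarith)).hy, Y_lo (by linarith)]; ring
lemma zp_top {l θ : ℝ} (h : θ ≤ 10) : zp l θ = 3 * hh := by
  rw [(wp1 (by linarith)).hz, Gl_lo (by linarith)]; ring
lemma xm_top' {θ : ℝ} (h : 66 ≤ θ) : xm θ = 76 - θ := by
  rw [(wm10 (by linarith)).hx, X_of_one_le (by linarith)]; ring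
lemma ym_top' {θ : ℝ} (h : 66 ≤ θ) : ym θ = 0 := by
  rw [(wm10 (by linarith)).hy, Y_hi (by linarith)]; ring
lemma zm_top' {l θ : ℝ} (h : 66 ≤ θ) : zm l θ = 3 * hh := by
  rw [(wm10 (by linarith)).hz, Gl_hi (by linarith)]; ring
lemma xp_top' {θ : ℝ} (h : 66 ≤ θ) : xp θ = 76 - θ := by
  rw [(wp6 (by linarith)).hx, X_of_one_le (by linarith)]; ring
lemma yp_top' {θ : ℝ} (h : 66 ≤ θ) : yp θ = 0 := by
  rw [(wp6 (by linarith)).hy, Y_hi (by linarith)]; ring
lemma zp_top' {l θ : ℝ} (h : 66 ≤ θ) : zp l θ = 3 * hh := by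
  rw [(wp6 (by linarith)).hz, Gl_hi (by linarith)]; ring

lemma ys_A {θ : ℝ} (h' : θ ≤ 10) : ys θ = S (θ / 10) := by
  unfold ys; rw [S_neg_one (u := (θ - 38) / 28) (by linarith),
    S_neg_one (u := (θ - 76) / 10) (by linarith)]; ring
lemma ys_B {θ : ℝ} (h : 10 ≤ θ) (h' : θ ≤ 66) : ys θ = - S ((θ - 38) / 28) := by
  unfold ys; rw [S_one (u := θ / 10) (by linarith),
    S_neg_one (u := (θ - 76) / 10) (by linarith)]; ring
lemma ys_C {θ : ℝ} (h : 66 ≤ θ) : ys θ = S ((θ - 76) / 10) := by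
  unfold ys; rw [S_one (u := θ / 10) (by linarith),
    S_one (u := (θ - 38) / 28) (by linarith)]; ring

lemma F_match {s l θ : ℝ} (h : -10 ≤ θ) (h' : θ ≤ 10) : F s l (θ + 76) = F s l θ := by
  unfold F
  rw [xm_top h', xp_top h', ym_top h', yp_top h', zm_top h', zp_top h', ys_A h',
    xm_top' (by linarith), xp_top' (by linarith), ym_top' (by linarith), yp_top' (by linarith),
    zm_top' (by linarith), zp_top' (by linarith), ys_C (by linarith)]
  have : (θ + 76 - 76) / 10 = θ / 10 := by ring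
  rw [this]
  ext
  · simp
  · simp
  · simp

/-- reduction modulo the period -/
def rd (θ : ℝ) : ℝ := θ - 76 * ⌊(θ + 5) / 76⌋

lemma rd_bd (θ : ℝ) : -5 ≤ rd θ ∧ rd θ < 71 := by
  unfold rd
  have h1 := Int.floor_le ((θ + 5) / 76)
  have h2 := Int.lt_floor_add_one ((θ + 5) / 76)
  constructor <;> linarith

lemma rd_int (θ : ℝ) : ∃ n : ℤ, rd θ = θ + n * 76 := ⟨-⌊(θ + 5) / 76⌋, by unfold rd; push_cast; ring⟩

lemma rd_add (θ : ℝ) : rd (θ + 76) = rd θ := by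
  unfold rd
  have : (θ + 76 + 5) / 76 = (θ + 5) / 76 + 1 := by ring
  rw [this, Int.floor_add_one]; push_cast; ring

/-- the periodic family -/
def Fp (s l θ : ℝ) : ℝ × ℝ × ℝ := F s l (rd θ)

lemma Fp_eq {s l θ : ℝ} (k : ℤ) (h : -10 ≤ θ - 76 * k) (h' : θ - 76 * k ≤ 86) :
    Fp s l θ = F s l (θ - 76 * k) := by
  obtain ⟨h1, h2⟩ := rd_bd θ
  unfold Fp
  have e : θ - 76 * k = rd θ + 76 * ((⌊(θ + 5) / 76⌋ - k : ℤ) : ℝ) := by
    unfold rd; push_cast; ring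
  set m : ℤ := ⌊(θ + 5) / 76⌋ - k with hm
  have m1 : -2 < m := by
    have : (-2 : ℝ) < (m : ℝ) := by
      rw [e] at h; linarith
    exact_mod_cast this
  have m2 : m < 2 := by
    have : (m : ℝ) < 2 := by
      rw [e] at h'; linarith
    exact_mod_cast this
  have m3 : m = -1 ∨ m = 0 ∨ m = 1 := by omega
  rcases m3 with h3 | h3 | h3
  · rw [h3] at e
    have e2 : rd θ = (θ - 76 * k) + 76 := by rw [e]; push_cast; ring
    rw [e2, F_match h (by linarith)]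
  · rw [h3] at e
    rw [e]; simp
  · rw [h3] at e
    have e2 : θ - 76 * k = rd θ + 76 := by rw [e]; push_cast; ring
    rw [e2, F_match (by linarith) (by linarith)]

lemma Fp_eq0 {s l θ : ℝ} (h : -10 ≤ θ) (h' : θ ≤ 86) : Fp s l θ = F s l θ := by
  have := Fp_eq (s := s) (l := l) (θ := θ) 0 (by simpa using h) (by simpa using h')
  simpa using this

lemma Fp_periodic (s l θ : ℝ) : Fp s l (θ + 76) = Fp s l θ := by unfold Fp; rw [rd_add]

lemma Fp_contDiff : ContDiff ℝ ∞ (fun q : ℝ × ℝ × ℝ => Fp q.1 q.2.1 q.2.2) := by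
  rw [contDiff_iff_contDiffAt]
  rintro ⟨s₀, l₀, θ₀⟩
  obtain ⟨h1, h2⟩ := rd_bd θ₀
  set k := ⌊(θ₀ + 5) / 76⌋ with hk
  have e : θ₀ - 76 * k = rd θ₀ := rfl
  have hc : ContDiff ℝ ∞ (fun q : ℝ × ℝ × ℝ => F q.1 q.2.1 (q.2.2 - 76 * k)) := by
    have : ContDiff ℝ ∞ (fun q : ℝ × ℝ × ℝ => (q.1, q.2.1, q.2.2 - 76 * (k : ℝ))) := by fun_prop
    exact F_contDiff.comp this
  apply hc.contDiffAt.congr_of_eventuallyEq
  have hq0 : Continuous (fun q : ℝ × ℝ × ℝ => q.2.2 - 76 * (k : ℝ)) := by fun_prop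
  have ho : IsOpen {q : ℝ × ℝ × ℝ | -10 < q.2.2 - 76 * k ∧ q.2.2 - 76 * k < 86} :=
    (isOpen_lt continuous_const hq0).inter (isOpen_lt hq0 continuous_const)
  filter_upwards [ho.mem_nhds (show _ ∧ _ from ⟨by simp only [e]; linarith, by simp only [e]; linarith⟩)] with q hq
  exact Fp_eq k hq.1.le hq.2.le

lemma Fp_hasDerivAt (s l θ : ℝ) : HasDerivAt (Fp s l) (F1 s l (rd θ)) θ := by
  obtain ⟨h1, h2⟩ := rd_bd θ
  set k := ⌊(θ + 5) / 76⌋ with hk
  have e : θ - 76 * k = rd θ := rfl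
  have hd : HasDerivAt (fun q => F s l (q - 76 * k)) (F1 s l (rd θ)) θ := by
    have := HasDerivAt.scomp θ (F_hasDerivAt s l (θ - 76 * k)) ((hasDerivAt_id θ).sub_const (76 * (k:ℝ)))
    rw [one_smul, e] at this
    exact this
  apply hd.congr_of_eventuallyEq
  have hq0 : Continuous (fun q : ℝ => q - 76 * (k : ℝ)) := by fun_prop
  have ho : IsOpen {q : ℝ | -10 < q - 76 * k ∧ q - 76 * k < 86} :=
    (isOpen_lt continuous_const hq0).inter (isOpen_lt hq0 continuous_const)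
  filter_upwards [ho.mem_nhds (show _ ∧ _ from ⟨by simp only [e]; linarith, by simp only [e]; linarith⟩)] with q hq
  exact Fp_eq k hq.1.le hq.2.le

end

end Pool.Agent.N565.LC
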