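import Pool.Agent.N565.LC.Ends

/-!
# The orientation
-/

set_option autoImplicit false

namespace Pool.Agent.N565.LC

open Set Filter
open scoped Topology ContDiff

noncomputable section

lemma cdet_add (p u u' v : R4) : cdet p (u + u') v = cdet p u v + cdet p u' v := by
  unfold cdet
  simp only [Prod.fst_add, Prod.snd_add]
  push_cast
  ring

lemma cdet_smul (p : R4) (r : ℝ) (u v : R4) : cdet p (r • u) v = r * cdet p u v := by
  unfold cdet
  simp only [Prod.smul_fst, Prod.smul_snd, smul_eq_mul]
  push_cast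
  ring

lemma cdet_swap (p u v : R4) : cdet p v u = - cdet p u v := by
  unfold cdet; ring

lemma cdet_ne_zero {p u v : R4} (hω : omega p u v = 0) (hli : LinearIndependent ℝ ![u, v]) :
    cdet p u v ≠ 0 := by
  intro h0
  have hE := Real.exp_pos p.1
  set E := Real.exp p.1 with hEdef
  have hre : (E * u.1) * v.2.1 - u.2.2.2 * (E * (v.2.2.1 + p.2.2.1 * v.1))
      - ((E * v.1) * u.2.1 - v.2.2.2 * (E * (u.2.2.1 + p.2.2.1 * u.1))) = 0 := by
    have := congrArg Complex.re h0
    simp [cdet, Complex.exp_ofReal_re, Complex.exp_ofReal_im] at this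
    linarith
  have him : (E * u.1) * (E * (v.2.2.1 + p.2.2.1 * v.1)) + u.2.2.2 * v.2.1
      - ((E * v.1) * (E * (u.2.2.1 + p.2.2.1 * u.1)) + v.2.2.2 * u.2.1) = 0 := by
    have := congrArg Complex.im h0
    simp [cdet, Complex.exp_ofReal_re, Complex.exp_ofReal_im] at this
    linarith
  have hom : (E * u.1) * v.2.2.2 - (E * v.1) * u.2.2.2
      + (u.2.1 * (E * (v.2.2.1 + p.2.2.1 * v.1)) - v.2.1 * (E * (u.2.2.1 + p.2.2.1 * u.1))) = 0 := by
    unfold omega contactForm at hω
    linarith
  obtain ⟨ut, ux, uy, uz⟩ := u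
  obtain ⟨vt, vx, vy, vz⟩ := v
  simp only at hre him hom
  set d := E * (uy + p.2.2.1 * ut) with hd
  set d' := E * (vy + p.2.2.1 * vt) with hd'
  -- the minors
  have e24 : uz * d' - vz * d = E * ut * vx - E * vt * ux := by linarith
  have e23 : uz * vx - vz * ux = -(E * ut * d' - E * vt * d) := by linarith
  have e34 : ux * d' - vx * d = -(E * ut * vz - E * vt * uz) := by linarith
  have plu : (E * ut * vz - E * vt * uz) * (ux * d' - vx * d)
      - (E * ut * vx - E * vt * ux) * (uz * d' - vz * d)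
      + (E * ut * d' - E * vt * d) * (uz * vx - vz * ux) = 0 := by ring
  rw [e24, e23, e34] at plu
  have sq : (E * ut * vz - E * vt * uz) ^ 2 + (E * ut * vx - E * vt * ux) ^ 2
      + (E * ut * d' - E * vt * d) ^ 2 = 0 := by linarith
  have z12 : E * ut * vz - E * vt * uz = 0 := by
    apply pow_eq_zero_iff (n := 2) (by norm_num) |>.1
    nlinarith [sq_nonneg (E * ut * vx - E * vt * ux), sq_nonneg (E * ut * d' - E * vt * d),
      sq_nonneg (E * ut * vz - E * vt * uz)]
  have z13 : E * ut * vx - E * vt * ux = 0 := by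
    apply pow_eq_zero_iff (n := 2) (by norm_num) |>.1
    nlinarith [sq_nonneg (E * ut * vx - E * vt * ux), sq_nonneg (E * ut * d' - E * vt * d),
      sq_nonneg (E * ut * vz - E * vt * uz)]
  have z14 : E * ut * d' - E * vt * d = 0 := by
    apply pow_eq_zero_iff (n := 2) (by norm_num) |>.1
    nlinarith [sq_nonneg (E * ut * vx - E * vt * ux), sq_nonneg (E * ut * d' - E * vt * d),
      sq_nonneg (E * ut * vz - E * vt * uz)]
  rw [z13] at e24
  rw [z14] at e23
  rw [z12] at e34
  have tz : ut * vz - vt * uz = 0 := by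
    have : E * (ut * vz - vt * uz) = 0 := by linarith
    exact (mul_eq_zero.1 this).resolve_left hE.ne'
  have tx : ut * vx - vt * ux = 0 := by
    have : E * (ut * vx - vt * ux) = 0 := by linarith
    exact (mul_eq_zero.1 this).resolve_left hE.ne'
  have ty : ut * vy - vt * uy = 0 := by
    have : E * (E * (ut * vy - vt * uy)) = 0 := by rw [← z14, hd, hd']; ring
    exact (mul_eq_zero.1 ((mul_eq_zero.1 this).resolve_left hE.ne')).resolve_left hE.ne'
  have zx : uz * vx - vz * ux = 0 := by linarith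
  have zy : uz * vy - vz * uy = 0 := by
    have : E * (uz * vy - vz * uy) = 0 := by
      have h1 : E * (uz * vy - vz * uy) = (uz * d' - vz * d) + E * p.2.2.1 * (ut * vz - vt * uz) := by
        rw [hd, hd']; ring
      rw [h1, e24, tz]; ring
    exact (mul_eq_zero.1 this).resolve_left hE.ne'
  have xy : ux * vy - vx * uy = 0 := by
    have : E * (ux * vy - vx * uy) = 0 := by
      have h1 : E * (ux * vy - vx * uy) = (ux * d' - vx * d) + E * p.2.2.1 * (ut * vx - vt * ux) := by
        rw [hd, hd']; ring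
      rw [h1, e34, tx]; ring
    exact (mul_eq_zero.1 this).resolve_left hE.ne'
  rw [LinearIndependent.pair_iff] at hli
  have k1 : ut = 0 := by
    have := (hli vt (-ut) (by ext <;> simp <;> linarith)).2
    linarith
  have k2 : ux = 0 := by
    have := (hli vx (-ux) (by ext <;> simp <;> linarith)).2
    linarith
  have k3 : uy = 0 := by
    have := (hli vy (-uy) (by ext <;> simp <;> linarith)).2
    linarith
  have k4 : uz = 0 := by
    have := (hli vz (-uz) (by ext <;> simp <;> linarith)).2
    linarith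
  have := (hli 1 0 (by ext <;> simp [k1, k2, k3, k4])).1
  exact one_ne_zero this

/-- the orientation form -/
def ori (p u v : R4) : ℝ := (Complex.exp (-(theta p : ℂ) * Complex.I) * cdet p u v).re

lemma cdet_continuous (u v : R4) : Continuous (fun p : R4 => cdet p u v) := by
  unfold cdet
  fun_prop

lemma ori_orientation : IsOrientation L ori where
  add_left := fun p u u' v => by
    unfold ori; rw [cdet_add, mul_add, Complex.add_re]
  smul_left := fun p r u v => by
    unfold ori
    rw [cdet_smul]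
    have : Complex.exp (-(theta p : ℂ) * Complex.I) * ((r : ℂ) * cdet p u v) =
        (r : ℂ) * (Complex.exp (-(theta p : ℂ) * Complex.I) * cdet p u v) := by ring
    rw [this, Complex.re_ofReal_mul]
  alt := fun p u v => by
    unfold ori
    rw [cdet_swap, mul_neg, Complex.neg_re]
  continuousOn := fun u v => by
    have h1 : ContinuousOn theta L := fun _ hp => (good_all hp).cont
    have h2 : ContinuousOn (fun p => Complex.exp (-(theta p : ℂ) * Complex.I)) L := by
      apply Complex.continuous_exp.comp_continuousOn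
      exact ((Complex.continuous_ofReal.comp_continuousOn h1).neg).mul continuousOn_const
    exact Complex.continuous_re.comp_continuousOn (h2.mul (cdet_continuous u v).continuousOn)
  nonzero := fun p hp u hu v hv hli => by
    obtain ⟨r, hr⟩ := (good_all hp).phase u hu v hv
    have h1 := cdet_ne_zero ((good_all hp).lag u hu v hv) hli
    have hr0 : r ≠ 0 := by
      rintro rfl
      rw [hr] at h1
      simp at h1
    unfold ori
    rw [hr]
    have : Complex.exp (-(theta p : ℂ) * Complex.I) * ((r : ℂ) * Complex.exp (theta p * Complex.I))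
        = r := by
      have e : Complex.exp (-(theta p : ℂ) * Complex.I) * Complex.exp (theta p * Complex.I) = 1 := by
        rw [← Complex.exp_add]
        have : -(theta p : ℂ) * Complex.I + theta p * Complex.I = 0 := by ring
        rw [this, Complex.exp_zero]
      calc _ = (r : ℂ) * (Complex.exp (-(theta p : ℂ) * Complex.I) *
          Complex.exp (theta p * Complex.I)) := by ring
        _ = r := by rw [e, mul_one]
    rw [this, Complex.ofReal_re]
    exact hr0

lemma curve_tangent {A : Set R4} {c : ℝ → R4} {v : R4} {t : ℝ} (hc : HasDerivAt c v t)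
    (h : ∀ᶠ r in 𝓝 t, c r ∈ A) : v ∈ tangentConeAt ℝ A (c t) := by
  obtain ⟨U, hU, hUo, htU⟩ := eventually_nhds_iff.1 h
  have h1 : HasFDerivWithinAt c (ContinuousLinearMap.toSpanSingleton ℝ v) U t :=
    hc.hasFDerivAt.hasFDerivWithinAt
  have h2 := h1.mapsTo_tangent_cone
  have h3 : tangentConeAt ℝ U t = univ := by
    rw [← tangentConeAt_univ (𝕜 := ℝ) (x := t)]
    apply tangentConeAt_congr
    rw [nhdsWithin_univ, hUo.nhdsWithin_eq htU]
  have h4 : (1:ℝ) ∈ tangentConeAt ℝ U t := by rw [h3]; trivial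
  have h5 := h2 h4
  simp only [ContinuousLinearMap.toSpanSingleton_apply, one_smul] at h5
  apply tangentConeAt_mono _ h5
  rintro _ ⟨r, hr, rfl⟩
  exact hU r hr

/-- positivity at an end, from positivity at one point -/
lemma end_pos {γ γ' : ℝ → R3} (hγ : ∀ s, HasDerivAt γ (γ' s) s) (hγ' : Continuous γ')
    (himm : ∀ s, γ' s ≠ 0) {t : ℝ} (hL : ∀ᶠ r in 𝓝 t, ∀ s, (r, γ s) ∈ L)
    (h0 : 0 < ori (t, γ 0) (1, 0) (0, γ' 0)) (s : ℝ) : 0 < ori (t, γ s) (1, 0) (0, γ' s) := by
  have hγc : Continuous γ := continuous_iff_continuousAt.2 fun s => (hγ s).continuousAt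
  have hLt : ∀ s, (t, γ s) ∈ L := hL.self_of_nhds
  have hne : ∀ s, ori (t, γ s) (1, 0) (0, γ' s) ≠ 0 := by
    intro s
    apply ori_orientation.nonzero _ (hLt s)
    · have hc : HasDerivAt (fun r : ℝ => ((r, γ s) : R4)) ((1, 0) : R4) t :=
        (hasDerivAt_id t).prodMk (hasDerivAt_const t (γ s))
      exact curve_tangent (A := L) hc (by filter_upwards [hL] with r hr using hr s)
    · have hc : HasDerivAt (fun r : ℝ => ((t, γ r) : R4)) ((0, γ' s) : R4) s :=
        (hasDerivAt_const s t).prodMk (hγ s)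
      exact curve_tangent (A := L) hc (Eventually.of_forall hLt)
    · rw [LinearIndependent.pair_iff]
      intro a b hab
      have h1 := congrArg Prod.fst hab
      have h2 := congrArg Prod.snd hab
      simp at h1 h2
      exact ⟨h1, h2.resolve_right (himm s)⟩
  have hcont : Continuous (fun s => ori (t, γ s) (1, 0) (0, γ' s)) := by
    unfold ori
    have h1 : Continuous (fun s => theta (t, γ s)) := by
      have h2 : ContinuousOn theta L := fun _ hp => (good_all hp).cont
      exact h2.comp_continuous (continuous_const.prodMk hγc) hLt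
    have h3 : Continuous (fun s => cdet (t, γ s) (1, 0) (0, γ' s)) := by
      unfold cdet
      fun_prop
    have h4 : Continuous (fun s => Complex.exp (-(theta (t, γ s) : ℂ) * Complex.I)) := by
      fun_prop
    exact Complex.continuous_re.comp (h4.mul h3)
  by_contra hneg
  have hneg' : ori (t, γ s) (1, 0) (0, γ' s) ≤ 0 := not_lt.1 hneg
  have := mem_range_of_exists_le_of_exists_ge hcont ⟨s, hneg'⟩ ⟨0, h0.le⟩
  obtain ⟨r, hr⟩ := this
  exact hne r hr

lemma base_ori {t : ℝ} : 0 < ori (t, 0, 0, 3 * hh) (1, 0) (0, -1, 0, 0) := by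
  have h0 := hh_pos
  have hL : ((t, 0, 0, 3 * hh) : R4) ∈ L := level_top (by norm_num) (by norm_num)
  have hth : theta (t, 0, 0, 3 * hh) = Real.pi := by
    rw [theta3 hL (by norm_num) (by norm_num)]
    unfold thA3
    rw [if_pos (by simp only; linarith)]
    simp
  unfold ori
  rw [hth]
  have e1 : Complex.exp (-(Real.pi : ℂ) * Complex.I) = -1 := by
    rw [neg_mul, Complex.exp_neg, Complex.exp_pi_mul_I]; norm_num
  have e2 : cdet (t, 0, 0, 3 * hh) (1, 0) (0, -1, 0, 0) = -(Real.exp t : ℂ) := by
    unfold cdet; simp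
  rw [e1, e2, neg_mul_neg, one_mul, Complex.ofReal_re]
  exact Real.exp_pos t

lemma F1_continuous (s l : ℝ) : Continuous (fun θ => F1 s l (rd θ)) := by
  have h1 : ContDiff ℝ ∞ (fun θ : ℝ => Fp s l θ) := by
    have : ContDiff ℝ ∞ (fun θ : ℝ => (s, l, θ)) := by fun_prop
    exact Fp_contDiff.comp this
  have h2 : deriv (Fp s l) = fun θ => F1 s l (rd θ) := by
    ext1 θ; exact (Fp_hasDerivAt s l θ).deriv
  rw [← h2]
  exact (contDiff_infty_iff_deriv.1 h1).2.continuous

lemma rd_zero : rd 0 = 0 := by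
  unfold rd
  have : ⌊((0:ℝ) + 5) / 76⌋ = 0 := by
    rw [Int.floor_eq_iff]; constructor <;> norm_num
  rw [this]; simp

lemma Fp0_zero {s : ℝ} : Fp s 0 0 = (0, 0, 3 * hh) := by
  unfold Fp
  rw [rd_zero]
  unfold F
  rw [xm_top (by norm_num), xp_top (by norm_num), ym_top (by norm_num), yp_top (by norm_num),
    zm_top (by norm_num), zp_top (by norm_num)]
  ext <;> simp
  ring

lemma F10_zero {s : ℝ} : F1 s 0 (rd 0) = (-1, 0, 0) := by
  rw [rd_zero]
  unfold F1
  have w := wm1 (θ := 0) (by norm_num)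
  have w' := wp1 (θ := 0) (by norm_num)
  rw [w.hx1, w.hy1, w.hz1, w'.hx1, w'.hy1, w'.hz1, S_neg_one (by norm_num), Y1_lo (by norm_num),
    Gd_lo (by norm_num)]
  ext
  · simp; ring
  · simp
  · simp

lemma bottom_pos : ∀ t < -T0, ∀ s, 0 < ori (t, γm s) (1, 0) (0, deriv γm s) := by
  intro t ht s
  have hd : deriv γm s = F1 0 0 (rd s) := (Fp_hasDerivAt 0 0 s).deriv
  rw [hd]
  apply end_pos (γ := γm) (γ' := fun s => F1 0 0 (rd s)) (fun s => Fp_hasDerivAt 0 0 s)
    (F1_continuous 0 0) (fun s => F_imm ⟨le_rfl, zero_le_one, le_rfl, zero_le_one, Or.inl rfl⟩)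
  · filter_upwards [isOpen_Iio.mem_nhds ht] with r hr s
    exact (mem_L_bottom (eps_lt (le_of_lt hr))).2 ⟨s, rfl⟩
  · unfold γm
    rw [Fp0_zero, F10_zero]
    exact base_ori

lemma top_pos : ∀ t > T0, ∀ s, 0 < ori (t, γp s) (1, 0) (0, deriv γp s) := by
  intro t ht s
  have hd : deriv γp s = F1 1 0 (rd s) := (Fp_hasDerivAt 1 0 s).deriv
  rw [hd]
  apply end_pos (γ := γp) (γ' := fun s => F1 1 0 (rd s)) (fun s => Fp_hasDerivAt 1 0 s)
    (F1_continuous 1 0) (fun s => F_imm ⟨zero_le_one, le_rfl, le_rfl, zero_le_one, Or.inr (Or.inl rfl)⟩)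
  · filter_upwards [isOpen_Ioi.mem_nhds (show t ∈ Ioi T0 from ht)] with r hr s
    exact (mem_L_top (lt_eps (le_of_lt hr))).2 ⟨s, rfl⟩
  · unfold γp
    rw [Fp0_zero, F10_zero]
    exact base_ori

end

end Pool.Agent.N565.LC
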