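import Pool.Agent.N565.LC.Fun
import Pool.Agent.N565.LC.Ift
import Pool.Agent.N565.LC.Defs

/-!
# Two sheets of a Lagrangian surface meeting along cusp edges
-/

set_option autoImplicit false

namespace Pool.Agent.N565.LC

open Set Filter
open scoped Topology ContDiff

noncomputable section

/-- a common bound of the first two derivatives of `S` -/
def M : ℝ := exists_bound.choose

lemma one_le_M : 1 ≤ M := exists_bound.choose_spec.1
lemma abs_S1_le (u : ℝ) : |S1 u| ≤ M := exists_bound.choose_spec.2.1 u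
lemma abs_S2_le (u : ℝ) : |S2 u| ≤ M := exists_bound.choose_spec.2.2 u

/-- vertical scale -/
def eta : ℝ := 1 / (4 * M ^ 3)
/-- speed -/
def eps : ℝ := 1 / (6 * M ^ 2)
/-- half of the distance of neighbouring sheets -/
def hh : ℝ := eta / 3

lemma M_pos : 0 < M := lt_of_lt_of_le one_pos one_le_M
lemma eta_pos : 0 < eta := by unfold eta; have := M_pos; positivity
lemma eps_pos : 0 < eps := by unfold eps; have := M_pos; positivity
lemma hh_pos : 0 < hh := by unfold hh; have := eta_pos; positivity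

/-- the slope function -/
def Y (z : ℝ) : ℝ := eta * (S z * S1 z)
/-- the derivative of `Y` -/
def Y1 (z : ℝ) : ℝ := eta * (S1 z ^ 2 + S z * S2 z)
/-- the height function -/
def G (z : ℝ) : ℝ := hh * S z ^ 3

lemma Y_hasDerivAt (z : ℝ) : HasDerivAt Y (Y1 z) z := by
  have := ((S_hasDerivAt z).mul (S1_hasDerivAt z)).const_mul eta
  convert! this using 1
  unfold Y1; ring

lemma G_hasDerivAt (z : ℝ) : HasDerivAt G (S z * Y z) z := by
  have := ((S_hasDerivAt z).pow 3).const_mul hh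
  convert! this using 1
  unfold Y hh; push_cast; ring

lemma Y_contDiff : ContDiff ℝ ∞ Y := contDiff_const.mul (S_contDiff.mul S1_contDiff)
lemma Y1_contDiff : ContDiff ℝ ∞ Y1 :=
  contDiff_const.mul ((S1_contDiff.pow 2).add (S_contDiff.mul S2_contDiff))
lemma G_contDiff : ContDiff ℝ ∞ G := contDiff_const.mul (S_contDiff.pow 3)

lemma Y_odd (z : ℝ) : Y (-z) = - Y z := by simp [Y, S_odd, S1_even]
lemma G_odd (z : ℝ) : G (-z) = - G z := by simp [G, S_odd]; ring
@[simp] lemma Y_zero : Y 0 = 0 := by simp [Y]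
@[simp] lemma G_zero : G 0 = 0 := by simp [G]

lemma Y_of_one_le_abs {z : ℝ} (hz : 1 ≤ |z|) : Y z = 0 := by simp [Y, S1_zero hz]
lemma G_of_one_le {z : ℝ} (hz : 1 ≤ z) : G z = hh := by simp [G, S_one hz]
lemma G_of_le_neg_one {z : ℝ} (hz : z ≤ -1) : G z = -hh := by simp [G, S_neg_one hz]; ring

lemma Y_nonneg {z : ℝ} (hz : 0 ≤ z) : 0 ≤ Y z :=
  mul_nonneg eta_pos.le (mul_nonneg (S_nonneg hz) (S1_nonneg z))

lemma G_pos {z : ℝ} (hz : 0 < z) : 0 < G z := mul_pos hh_pos (pow_pos (S_pos hz) 3)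

lemma Y1_zero_pos : 0 < Y1 0 := by
  have := S1_pos (u := 0) (by simp)
  have h2 := eta_pos
  simp only [Y1, S_zero, zero_mul, add_zero]
  positivity

lemma abs_Y_le (z : ℝ) : |Y z| ≤ eta * M := by
  unfold Y
  rw [abs_mul, abs_mul, abs_of_pos eta_pos]
  have h1 := abs_S_le z
  have h2 := abs_S1_le z
  have h3 := abs_nonneg (S1 z)
  have h4 := abs_nonneg (S z)
  apply mul_le_mul_of_nonneg_left _ eta_pos.le
  nlinarith

lemma abs_Y1_le (z : ℝ) : |Y1 z| ≤ 2 * eta * M ^ 2 := by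
  unfold Y1
  rw [abs_mul, abs_of_pos eta_pos]
  have h1 := abs_S_le z
  have h2 := abs_S1_le z
  have h3 := abs_nonneg (S1 z)
  have h4 := abs_nonneg (S z)
  have h5 := abs_S2_le z
  have h6 := abs_nonneg (S2 z)
  have h7 : |S1 z ^ 2 + S z * S2 z| ≤ 2 * M ^ 2 := by
    refine (abs_add_le _ _).trans ?_
    rw [abs_mul, abs_pow]
    have := one_le_M
    nlinarith [mul_le_mul h1 h5 h6 zero_le_one]
  calc eta * |S1 z ^ 2 + S z * S2 z| ≤ eta * (2 * M ^ 2) :=
        mul_le_mul_of_nonneg_left h7 eta_pos.le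
    _ = 2 * eta * M ^ 2 := by ring

lemma abs_G_le (z : ℝ) : |G z| ≤ hh := by
  unfold G
  rw [abs_mul, abs_of_pos hh_pos, abs_pow]
  have h1 := abs_S_le z
  have h4 := abs_nonneg (S z)
  have : |S z| ^ 3 ≤ 1 := pow_le_one₀ h4 h1
  nlinarith [hh_pos]

/-- a time profile: the function `c`, its derivative `k` and its second derivative `l` -/
structure Prof where
  c : ℝ → ℝ
  k : ℝ → ℝ
  l : ℝ → ℝ
  hc : ∀ t, HasDerivAt c (k t) t
  hk : ∀ t, HasDerivAt k (l t) t
  cc : ContDiff ℝ ∞ c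
  kc : ContDiff ℝ ∞ k
  lc : ContDiff ℝ ∞ l
  k_nonpos : ∀ t, k t ≤ 0
  k_bd : ∀ t, |k t| ≤ eps * M
  l_bd : ∀ t, |l t| ≤ eps * M
  nz : ∀ t, c t = 0 → k t ≠ 0
  c_bd : ∀ t, |c t| ≤ 1

/-- the constant profile -/
def Prof.one : Prof where
  c := fun _ => 1
  k := fun _ => 0
  l := fun _ => 0
  hc := fun t => hasDerivAt_const t 1
  hk := fun t => hasDerivAt_const t 0
  cc := contDiff_const
  kc := contDiff_const
  lc := contDiff_const
  k_nonpos := fun _ => le_rfl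
  k_bd := fun _ => by simp; exact mul_nonneg eps_pos.le M_pos.le
  l_bd := fun _ => by simp; exact mul_nonneg eps_pos.le M_pos.le
  nz := fun _ h => absurd h one_ne_zero
  c_bd := fun _ => by simp

lemma eps_le_one : eps ≤ 1 := by
  unfold eps
  rw [div_le_one (by have := M_pos; positivity)]
  nlinarith [one_le_M]

/-- the profile decreasing from `1` to `-1` around the time where `eps * t + a = 0` -/
def Prof.dec (a : ℝ) : Prof where
  c := fun t => - S (eps * t + a)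
  k := fun t => - (eps * S1 (eps * t + a))
  l := fun t => - (eps * (eps * S2 (eps * t + a)))
  hc := fun t => by
    have h1 : HasDerivAt (fun t => eps * t + a) eps t := by
      simpa using ((hasDerivAt_id t).const_mul eps).add_const a
    have := ((S_hasDerivAt (eps * t + a)).comp t h1).neg
    convert! this using 1
    ring
  hk := fun t => by
    have h1 : HasDerivAt (fun t => eps * t + a) eps t := by
      simpa using ((hasDerivAt_id t).const_mul eps).add_const a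
    have := (((S1_hasDerivAt (eps * t + a)).comp t h1).const_mul eps).neg
    convert! this using 1
    ring
  cc := (S_contDiff.comp ((contDiff_const.mul contDiff_id).add contDiff_const)).neg
  kc := (contDiff_const.mul
    (S1_contDiff.comp ((contDiff_const.mul contDiff_id).add contDiff_const))).neg
  lc := (contDiff_const.mul (contDiff_const.mul
    (S2_contDiff.comp ((contDiff_const.mul contDiff_id).add contDiff_const)))).neg
  k_nonpos := fun t => by
    have := mul_nonneg eps_pos.le (S1_nonneg (eps * t + a))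
    linarith
  k_bd := fun t => by
    rw [abs_neg, abs_mul, abs_of_pos eps_pos]
    exact mul_le_mul_of_nonneg_left (abs_S1_le _) eps_pos.le
  l_bd := fun t => by
    rw [abs_neg, abs_mul, abs_mul, abs_of_pos eps_pos]
    apply mul_le_mul_of_nonneg_left _ eps_pos.le
    have h1 := abs_S2_le (eps * t + a)
    have h2 := abs_nonneg (S2 (eps * t + a))
    nlinarith [eps_le_one, eps_pos]
  nz := fun t h => by
    have h1 : eps * t + a = 0 := S_eq_zero.1 (neg_eq_zero.1 h)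
    rw [h1]
    have h2 := mul_pos eps_pos (S1_pos (u := 0) (by simp))
    linarith
  c_bd := fun t => by rw [abs_neg]; exact abs_S_le _

/-- the coordinates as linear forms -/
def dt : R4 →L[ℝ] ℝ := ContinuousLinearMap.fst ℝ ℝ R3
/-- the coordinates as linear forms -/
def dx : R4 →L[ℝ] ℝ :=
  (ContinuousLinearMap.fst ℝ ℝ (ℝ × ℝ)).comp (ContinuousLinearMap.snd ℝ ℝ R3)
/-- the coordinates as linear forms -/
def dy : R4 →L[ℝ] ℝ := (ContinuousLinearMap.fst ℝ ℝ ℝ).comp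
  ((ContinuousLinearMap.snd ℝ ℝ (ℝ × ℝ)).comp (ContinuousLinearMap.snd ℝ ℝ R3))
/-- the coordinates as linear forms -/
def dz : R4 →L[ℝ] ℝ := (ContinuousLinearMap.snd ℝ ℝ ℝ).comp
  ((ContinuousLinearMap.snd ℝ ℝ (ℝ × ℝ)).comp (ContinuousLinearMap.snd ℝ ℝ R3))

@[simp] lemma dt_apply (v : R4) : dt v = v.1 := rfl
@[simp] lemma dx_apply (v : R4) : dx v = v.2.1 := rfl
@[simp] lemma dy_apply (v : R4) : dy v = v.2.2.1 := rfl
@[simp] lemma dz_apply (v : R4) : dz v = v.2.2.2 := rfl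

lemma liouville_apply (p v : R4) :
    liouville p v = Real.exp p.1 * (v.2.2.2 - p.2.2.1 * v.2.1) := rfl

/-- the three equations -/
def R1 (j : ℝ) (P : Prof) (q : R4 × ℝ) : ℝ := X (q.1.2.1 - j) - X q.2 - P.c q.1.1
/-- the three equations -/
def R2 (j : ℝ) (q : R4 × ℝ) : ℝ := Y q.2 * S (q.1.2.1 - j) - q.1.2.2.1
/-- the three equations -/
def R3' (c₀ : ℝ) (P : Prof) (q : R4 × ℝ) : ℝ := c₀ + G q.2 - Y q.2 * P.k q.1.1 - q.1.2.2.2

/-- a pair of sheets -/
def Pair (j c₀ : ℝ) (P : Prof) : Set R4 :=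
  {p | ∃ z, R1 j P (p, z) = 0 ∧ R2 j (p, z) = 0 ∧ R3' c₀ P (p, z) = 0}

/-- the sheet coordinate -/
def zt (j c₀ : ℝ) (P : Prof) (p : R4) : ℝ :=
  (if c₀ ≤ p.2.2.2 then 1 else -1) * Xinv (X (p.2.1 - j) - P.c p.1)

lemma GYk_pos (P : Prof) {z : ℝ} (hz : 0 < z) (t : ℝ) : 0 < G z - Y z * P.k t := by
  have h1 := G_pos hz
  have h2 := mul_nonneg (Y_nonneg hz.le) (neg_nonneg.2 (P.k_nonpos t))
  nlinarith

lemma zt_eq {j c₀ : ℝ} {P : Prof} {p : R4} {z : ℝ} (h1 : R1 j P (p, z) = 0)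
    (h3 : R3' c₀ P (p, z) = 0) : zt j c₀ P p = z := by
  unfold zt
  have e1 : X (p.2.1 - j) - P.c p.1 = X z := by unfold R1 at h1; simp at h1; linarith
  rw [e1, Xinv_X']
  unfold R3' at h3; simp only at h3
  rcases lt_trichotomy z 0 with hz | hz | hz
  · have h4 := GYk_pos P (neg_pos.2 hz) p.1
    rw [G_odd, Y_odd] at h4
    rw [if_neg (by push Not; linarith), abs_of_neg hz]; ring
  · simp [hz]
  · have h4 := GYk_pos P hz p.1
    rw [if_pos (by linarith), abs_of_pos hz]; ring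

lemma mem_pair_iff {j c₀ : ℝ} {P : Prof} {p : R4} : p ∈ Pair j c₀ P ↔
    R1 j P (p, zt j c₀ P p) = 0 ∧ R2 j (p, zt j c₀ P p) = 0 ∧ R3' c₀ P (p, zt j c₀ P p) = 0 := by
  constructor
  · rintro ⟨z, h1, h2, h3⟩
    rw [zt_eq h1 h3]
    exact ⟨h1, h2, h3⟩
  · intro h
    exact ⟨_, h⟩

lemma R1_contDiff (j : ℝ) (P : Prof) : ContDiff ℝ ∞ (R1 j P) := by
  have h1 : ContDiff ℝ ∞ (fun q : R4 × ℝ => q.1.2.1 - j) := by fun_prop
  have h2 : ContDiff ℝ ∞ (fun q : R4 × ℝ => q.1.1) := by fun_prop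
  exact ((X_contDiff.comp h1).sub (X_contDiff.comp contDiff_snd)).sub (P.cc.comp h2)

lemma R2_contDiff (j : ℝ) : ContDiff ℝ ∞ (R2 j) := by
  have h1 : ContDiff ℝ ∞ (fun q : R4 × ℝ => q.1.2.1 - j) := by fun_prop
  have h2 : ContDiff ℝ ∞ (fun q : R4 × ℝ => q.1.2.2.1) := by fun_prop
  exact ((Y_contDiff.comp contDiff_snd).mul (S_contDiff.comp h1)).sub h2

lemma R3_contDiff (c₀ : ℝ) (P : Prof) : ContDiff ℝ ∞ (R3' c₀ P) := by
  have h1 : ContDiff ℝ ∞ (fun q : R4 × ℝ => q.1.1) := by fun_prop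
  have h2 : ContDiff ℝ ∞ (fun q : R4 × ℝ => q.1.2.2.2) := by fun_prop
  exact ((contDiff_const.add (G_contDiff.comp contDiff_snd)).sub
    ((Y_contDiff.comp contDiff_snd).mul (P.kc.comp h1))).sub h2

lemma hasFDerivAt_R1 (j : ℝ) (P : Prof) {ψ : R4 → ℝ} {ψ' : R4 →L[ℝ] ℝ} {p : R4}
    (hψ : HasFDerivAt ψ ψ' p) : HasFDerivAt (fun q => R1 j P (q, ψ q))
      (S (p.2.1 - j) • dx - S (ψ p) • ψ' - P.k p.1 • dt) p := by
  have h1 : HasFDerivAt (fun q : R4 => q.2.1 - j) dx p := (dx.hasFDerivAt).sub_const j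
  have h2 : HasFDerivAt (fun q : R4 => q.1) dt p := dt.hasFDerivAt
  exact (((X_hasDerivAt _).comp_hasFDerivAt p h1).sub
    ((X_hasDerivAt _).comp_hasFDerivAt p hψ)).sub ((P.hc _).comp_hasFDerivAt p h2)

lemma hasFDerivAt_R2 (j : ℝ) {ψ : R4 → ℝ} {ψ' : R4 →L[ℝ] ℝ} {p : R4}
    (hψ : HasFDerivAt ψ ψ' p) : HasFDerivAt (fun q => R2 j (q, ψ q))
      ((Y1 (ψ p) * S (p.2.1 - j)) • ψ' + (Y (ψ p) * S1 (p.2.1 - j)) • dx - dy) p := by
  have h1 : HasFDerivAt (fun q : R4 => q.2.1 - j) dx p := (dx.hasFDerivAt).sub_const j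
  have h2 : HasFDerivAt (fun q : R4 => q.2.2.1) dy p := dy.hasFDerivAt
  have h3 := (((Y_hasDerivAt _).comp_hasFDerivAt p hψ).mul
    ((S_hasDerivAt _).comp_hasFDerivAt p h1)).sub h2
  convert! h3 using 1
  ext
  · simp; ring
  · simp; ring
  · simp; ring
  · simp; ring

lemma hasFDerivAt_R3 (c₀ : ℝ) (P : Prof) {ψ : R4 → ℝ} {ψ' : R4 →L[ℝ] ℝ} {p : R4}
    (hψ : HasFDerivAt ψ ψ' p) : HasFDerivAt (fun q => R3' c₀ P (q, ψ q))
      ((S (ψ p) * Y (ψ p) - Y1 (ψ p) * P.k p.1) • ψ' - (Y (ψ p) * P.l p.1) • dt - dz) p := by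
  have h1 : HasFDerivAt (fun q : R4 => q.1) dt p := dt.hasFDerivAt
  have h2 : HasFDerivAt (fun q : R4 => q.2.2.2) dz p := dz.hasFDerivAt
  have h3 := ((((G_hasDerivAt _).comp_hasFDerivAt p hψ).const_add c₀).sub
    (((Y_hasDerivAt _).comp_hasFDerivAt p hψ).mul ((P.hk _).comp_hasFDerivAt p h1))).sub h2
  convert! h3 using 1
  ext
  · simp; ring
  · simp; ring
  · simp; ring
  · simp; ring

end

end Pool.Agent.N565.LC
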